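import Pool.Agent.Lib.MP_7ebc2a_al.Rep2

/-! The matrix coefficients of an irreducible polynomial representation, and the invariant
vector built from a regular filling. -/

namespace MP7ebc2a
open Equiv Matrix

variable {m : ℕ} {V : Type*} [AddCommGroup V] [Module ℂ V]

noncomputable def dg (t : Fin m → ℂˣ) : GL (Fin m) ℂ :=
  GeneralLinearGroup.mkOfDetNeZero (diagonal fun i => (t i : ℂ))
    (by simp [det_diagonal, Finset.prod_ne_zero_iff])

lemma dg_val (t : Fin m → ℂˣ) : (dg t).val = diagonal fun i => (t i : ℂ) := rfl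

lemma exists_xi (ρ : Representation ℂ (GL (Fin m) ℂ) V) (hp : IsPolynomialRep ρ)
    {lam : Fin m → ℕ} {v0 : V} (h0 : v0 ≠ 0)
    (hv : ∀ b : GL (Fin m) ℂ, (∀ i j, j < i → b.val i j = 0) →
      ρ b v0 = (∏ i, b.val i i ^ lam i) • v0) :
    ∃ ξ : Module.Dual ℂ V, (∀ u : GL (Fin m) ℂ, (∀ i j, i < j → u.val i j = 0) →
      (∀ i, u.val i i = 1) → ξ (ρ u v0) = 1) := by
  obtain ⟨φ, hφ⟩ := Module.Projective.exists_dual_eq_one ℂ h0
  let t : ℂˣ → GL (Fin m) ℂ := fun z => dg fun i => z ^ (i : ℕ)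
  have uniq : ∀ p q : Polynomial ℂ, (∀ z : ℂˣ, p.eval (z : ℂ) = q.eval (z : ℂ)) → p = q := by
    intro p q h
    refine Polynomial.eq_of_infinite_eval_eq p q ?_
    refine ((Set.finite_singleton (0 : ℂ)).infinite_compl).mono fun z hz => ?_
    exact h (Units.mk0 z hz)
  have ev : ∀ (P : MvPolynomial (Fin m × Fin m) ℂ) (F : Fin m × Fin m → Polynomial ℂ) (z : ℂ),
      (MvPolynomial.aeval F P).eval z = MvPolynomial.eval (fun p => (F p).eval z) P := by
    intro P F z
    induction P using MvPolynomial.induction_on with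
    | C a => simp
    | add p q hp hq => simp [hp, hq]
    | mul_X p i hp => simp [hp]
  have ex : ∀ x : V, ∃ Q : Polynomial ℂ, ∀ z : ℂˣ, Q.eval (z : ℂ) = φ (ρ (t z) x) := by
    intro x
    obtain ⟨P, hP⟩ := hp φ x
    refine ⟨MvPolynomial.aeval (fun p : Fin m × Fin m =>
      if p.1 = p.2 then Polynomial.X ^ (p.1 : ℕ) else 0) P, fun z => ?_⟩
    rw [hP, ev]
    congr 2
    ext p
    simp only [t, dg_val, diagonal_apply]
    split_ifs <;> simp
  choose Q hQ using ex
  let s := ∑ i : Fin m, (i : ℕ) * lam i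
  refine ⟨⟨⟨fun x => (Q x).coeff s, fun x y => ?_⟩, fun c x => ?_⟩, fun u u1 u2 => ?_⟩
  · rw [← Polynomial.coeff_add, uniq (Q (x + y)) (Q x + Q y) fun z => by simp [hQ]]
  · simp [uniq (Q (c • x)) (c • Q x) fun z => by simp [hQ]]
  obtain ⟨P, hP⟩ := hp φ v0
  let F : Fin m × Fin m → Polynomial ℂ := fun p =>
    Polynomial.C (u.val p.1 p.2) * Polynomial.X ^ ((p.1 : ℕ) - p.2)
  have key : Q (ρ u v0) = MvPolynomial.aeval F P * Polynomial.X ^ s := by
    refine uniq _ _ fun z => ?_
    have e1 : t z * u = (t z * u * (t z)⁻¹) * t z := by simp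
    have e2 : ρ (t z) v0 = ((z : ℂ) ^ s) • v0 := by
      rw [hv _ (fun i j h => by simp [t, dg_val, diagonal_apply_ne _ h.ne'])]
      simp [t, dg_val, s, ← pow_mul, Finset.prod_pow_eq_pow_sum]
    have e3 : ∀ i j, (t z * u * (t z)⁻¹).val i j = u.val i j * (z : ℂ) ^ ((i : ℕ) - j) := by
      intro i j
      have : (t z * u * (t z)⁻¹).val * (t z).val = (t z).val * u.val := by
        rw [← Units.val_mul, ← Units.val_mul]; simp
      have := congrFun (congrFun this i) j
      simp only [t, dg_val, mul_diagonal, diagonal_mul, Units.val_pow_eq_pow_val] at this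
      refine mul_right_cancel₀ (pow_ne_zero (j : ℕ) z.ne_zero) ?_
      rw [this]
      rcases lt_or_ge i j with h | h
      · simp [u1 i j h]
      · rw [mul_assoc, ← pow_add, Nat.sub_add_cancel h, mul_comm]
    rw [hQ, ← Module.End.mul_apply, ← map_mul, e1, map_mul, Module.End.mul_apply, e2, map_smul,
      map_smul, hP, Polynomial.eval_mul, ev]
    simp only [F, e3, Polynomial.eval_mul, Polynomial.eval_C, Polynomial.eval_pow,
      Polynomial.eval_X, smul_eq_mul]
    exact mul_comm _ _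
  change (Q (ρ u v0)).coeff s = 1
  rw [key, Polynomial.coeff_mul_X_pow', if_pos le_rfl, Nat.sub_self,
    Polynomial.coeff_zero_eq_eval_zero, ev,
    ← hφ, show φ v0 = φ (ρ 1 v0) by simp, hP]
  congr 2
  ext ⟨i, j⟩
  rcases lt_trichotomy i j with h | rfl | h
  · simp [F, u1 i j h, one_apply_ne h.ne]
  · simp [F, u2]
  · have : (i : ℕ) - j ≠ 0 := by have := Fin.lt_def.1 h; omega
    simp [F, this, one_apply_ne h.ne']

lemma xi_eq (ρ : Representation ℂ (GL (Fin m) ℂ) V) (hp : IsPolynomialRep ρ)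
    {lam : Fin m → ℕ} {v0 : V} (h0 : v0 ≠ 0)
    (hv : ∀ b : GL (Fin m) ℂ, (∀ i j, j < i → b.val i j = 0) →
      ρ b v0 = (∏ i, b.val i i ^ lam i) • v0) {N : ℕ} {ν : Fin N → ℕ} (hν : ∀ k, ν k ≤ m)
    (hl : ∀ i : Fin m, (Finset.univ.filter fun k => (i : ℕ) < ν k).card = lam i) :
    ∃ ξ : Module.Dual ℂ V, ∀ g : GL (Fin m) ℂ,
      ξ (ρ g v0) = EE hν g.val (fun k => Fin.castLE (hν k)) := by
  obtain ⟨ξ, hξ⟩ := exists_xi ρ hp h0 hv
  obtain ⟨P, hP⟩ := hp ξ v0
  have := eq_of_LU (f := fun A => MvPolynomial.eval (fun p => A p.1 p.2) P)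
    (g := fun A => EE hν A (fun k => Fin.castLE (hν k)))
    (P.continuous_eval.comp (by fun_prop)) (by
      unfold EE
      exact continuous_finsetProd _ fun k _ =>
        (continuous_id.matrix_submatrix _ _).matrix_det) (by
      rintro _ ⟨u, b, u1, u2, b1, b2, rfl⟩
      have du : u.det ≠ 0 := by
        rw [det_of_isLowerTriangular u (fun i j h => u1 _ _ (by simpa using h))]; simp [u2]
      have db : b.det ≠ 0 := by
        rw [det_of_isUpperTriangular (M := b) (fun i j h => b1 _ _ (by simpa using h))]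
        exact Finset.prod_ne_zero_iff.2 fun i _ => b2 i
      have := hP (GeneralLinearGroup.mkOfDetNeZero u du * GeneralLinearGroup.mkOfDetNeZero b db)
      rw [map_mul, Module.End.mul_apply, hv _ b1, map_smul, map_smul, hξ _ u1 u2] at this
      rw [EE_LU hν u b u1 u2 b1]
      simp only [hl]
      simpa using this.symm)
  exact ⟨ξ, fun g => (hP g).trans (congrFun this g.val)⟩

lemma monomial_of_mem {n : SpecialLinearGroup (Fin m) ℂ} (hn : n ∈ Subgroup.normalizer (torus m)) :
    ∃ (σ : Perm (Fin m)) (u : Fin m → ℂ), ((Perm.sign σ : ℤ) : ℂ) * ∏ j, u j = 1 ∧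
      ∀ A : Matrix (Fin m) (Fin m) ℂ, A * n.val = A.submatrix id σ * diagonal u := by
  let a : Fin m → ℂ := fun i => 2 ^ (i : ℕ) / 2 ^ ((Fin.rev i : Fin m) : ℕ)
  have a1 : ∏ i, a i = 1 := by
    simp only [a, Finset.prod_div_distrib]
    rw [← Equiv.prod_comp Fin.revPerm fun i : Fin m => (2 : ℂ) ^ (i : ℕ)]
    exact div_self (Finset.prod_ne_zero_iff.2 fun i _ => by simp)
  have a2 : Function.Injective a := by
    intro i j h
    simp only [a] at h
    rw [div_eq_div_iff (by simp) (by simp), ← pow_add, ← pow_add] at h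
    have h' : (2 : ℕ) ^ ((i : ℕ) + (Fin.rev j : Fin m)) = 2 ^ ((j : ℕ) + (Fin.rev i : Fin m)) := by
      exact_mod_cast h
    have := Nat.pow_right_injective le_rfl h'
    simp only [Fin.val_rev] at this
    have := i.2
    have := j.2
    exact Fin.ext (by omega)
  let t : SpecialLinearGroup (Fin m) ℂ := ⟨diagonal a, by rw [det_diagonal, a1]⟩
  have ht : (n * t * n⁻¹).val.IsDiag :=
    (Subgroup.mem_set_normalizer_iff.1 hn t).1 (isDiag_diagonal a)
  have e : (n * t * n⁻¹).val * n.val = n.val * diagonal a := by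
    have : n * t * n⁻¹ * n = n * t := inv_mul_cancel_right _ _
    exact congrArg Subtype.val this
  rw [← ht.diagonal_diag] at e
  have e' : ∀ i j, n.val i j ≠ 0 → (n * t * n⁻¹).val i i = a j := by
    intro i j h
    have := congrFun (congrFun e i) j
    rw [diagonal_mul, mul_diagonal, mul_comm] at this
    exact mul_left_cancel₀ h this
  have hd : n.val.det ≠ 0 := by simp
  rw [det_apply'] at hd
  obtain ⟨σ, _, hσ⟩ := Finset.exists_ne_zero_of_sum_ne_zero hd
  have h1 : ∀ j, n.val (σ j) j ≠ 0 := fun j =>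
    Finset.prod_ne_zero_iff.1 (right_ne_zero_of_mul hσ) j (Finset.mem_univ _)
  have h2 : ∀ A : Matrix (Fin m) (Fin m) ℂ,
      A * n.val = A.submatrix id σ * diagonal fun j => n.val (σ j) j := by
    intro A
    ext r j
    rw [mul_diagonal, mul_apply, Finset.sum_eq_single (σ j) (fun i _ hi => ?_) (by simp)]
    · rfl
    · refine mul_eq_zero_of_right _ (by_contra fun h => hi ?_)
      obtain ⟨k, rfl⟩ := σ.surjective i
      rw [a2 ((e' _ _ (h1 k)).symm.trans (e' _ _ h))]
  refine ⟨σ, _, ?_, h2⟩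
  have := congrArg det (h2 1)
  rw [one_mul, det_mul, det_permute', det_diagonal] at this
  simpa using this.symm

theorem invariant_of_Phi (ρ : Representation ℂ (GL (Fin m) ℂ) V) (hp : IsPolynomialRep ρ)
    [ρ.IsIrreducible] {lam : Fin m → ℕ} (hw : HasHighestWeight ρ lam) {N : ℕ} {ν : Fin N → ℕ}
    (hν : ∀ k, ν k ≤ m)
    (hl : ∀ i : Fin m, (Finset.univ.filter fun k => (i : ℕ) < ν k).card = lam i) {d : ℕ}
    (Z : Matrix (Fin m) (Fin m) ℤ) (hZ : Z.det ≠ 0) (τ0 : Fill m ν) (h1 : ∀ j, content τ0 j = d)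
    (h2 : Phi hν d Z τ0 ≠ 0) :
    ∃ v ≠ 0, ∀ n ∈ Subgroup.normalizer (torus m), ρ (SpecialLinearGroup.toGL n) v = v := by
  classical
  obtain ⟨v0, h0, hv⟩ := hw
  obtain ⟨ξ, hξ⟩ := xi_eq ρ hp h0 hv hν hl
  let Ψ : V →ₗ[ℂ] (GL (Fin m) ℂ → ℂ) := LinearMap.pi fun g => ξ ∘ₗ ρ g
  have hΨ : ∀ x g, Ψ x g = ξ (ρ g x) := fun _ _ => rfl
  have tr : ∀ x g h, Ψ (ρ h x) g = Ψ x (g * h) := fun x g h => by simp [hΨ]
  have inj : Function.Injective Ψ := by
    let K : Subrepresentation ρ := ⟨LinearMap.ker Ψ, fun h x hx => by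
      ext g
      rw [tr, LinearMap.mem_ker.1 hx]; rfl⟩
    rcases eq_bot_or_eq_top K with h | h
    · exact LinearMap.ker_eq_bot.1 (congrArg Subrepresentation.toSubmodule h)
    · have : v0 ∈ LinearMap.ker Ψ := by
        rw [show LinearMap.ker Ψ = ⊤ from congrArg Subrepresentation.toSubmodule h]; trivial
      have := congrFun (LinearMap.mem_ker.1 this) 1
      rw [hΨ, hξ] at this
      have e := EE_LU hν (1 : Matrix (Fin m) (Fin m) ℂ) 1 (fun i j h => one_apply_ne h.ne)
        (by simp) (fun i j h => one_apply_ne h.ne')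
      simp at this
      simp [this] at e
  let A : Matrix (Fin m) (Fin m) ℂ := Z.map (Int.castRingHom ℂ)
  have dA : Aᵀ.det ≠ 0 := by
    rw [det_transpose, show A.det = Int.castRingHom ℂ Z.det from (RingHom.map_det _ Z).symm]
    simpa using hZ
  let χ : Fill m ν → ((Fin m → ℂˣ) →* ℂ) := fun τ =>
    ⟨⟨fun t => ∏ j, (t j : ℂ) ^ content τ j, by simp⟩, fun s t => by
      simp [mul_pow, Finset.prod_mul_distrib]⟩
  have hχ : ∀ τ, χ τ = χ τ0 ↔ ∀ j, content τ j = d := by
    intro τ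
    constructor
    · intro h j
      have := DFunLike.congr_fun h (Pi.mulSingle j (Units.mk0 2 two_ne_zero))
      simp only [χ, MonoidHom.coe_mk, OneHom.coe_mk] at this
      rw [Finset.prod_eq_single j (fun i _ hi => by simp [hi]) (by simp),
        Finset.prod_eq_single j (fun i _ hi => by simp [hi]) (by simp), h1] at this
      simp only [Pi.mulSingle_eq_same, Units.val_mk0] at this
      exact Nat.pow_right_injective le_rfl (by exact_mod_cast this)
    · intro h
      ext t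
      simp [χ, h, h1]
  obtain ⟨x0, hx0⟩ := mem_of_chars (LinearMap.range Ψ)
    (fun τ : Fill m ν => fun g : GL (Fin m) ℂ => EE hν g.val τ * EE hν A τ) χ (fun t => by
      refine ⟨(∏ k, ((ν k).factorial : ℂ)) • ρ (dg t * GeneralLinearGroup.mkOfDetNeZero _ dA) v0, ?_⟩
      ext g
      rw [map_smul, Pi.smul_apply, tr, hΨ, hξ, smul_eq_mul, ← mul_assoc g, Units.val_mul, EE_mul,
        Finset.sum_apply]
      refine Finset.sum_congr rfl fun τ _ => ?_
      rw [Units.val_mul, dg_val, EE_diag]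
      simp [χ, mul_assoc]) (χ τ0)
  simp only [hχ] at hx0
  let pm : Perm (Fin m) → GL (Fin m) ℂ := fun w =>
    GeneralLinearGroup.mkOfDetNeZero ((1 : Matrix (Fin m) (Fin m) ℂ).submatrix id w) (by
      rw [det_permute']; simp)
  have hpm : ∀ (g : GL (Fin m) ℂ) w, (g * pm w).val = g.val.submatrix id w := fun g w =>
    mul_submatrix_one (Equiv.refl _) w g.val
  let x := ∑ w : Perm (Fin m), ((Perm.sign w : ℤ) : ℂ) ^ d • ρ (pm w) x0
  have hx : ∀ g, Ψ x g =
      ∑ τ : Fill m ν with (∀ j, content τ j = d), Phi hν d g.val τ * EE hν A τ := by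
    intro g
    simp only [x, map_sum, map_smul, Finset.sum_apply, Pi.smul_apply, tr, hx0, hpm, EE_submatrix,
      smul_eq_mul, Finset.mul_sum, Phi, Finset.sum_mul, mul_assoc]
    exact Finset.sum_comm
  refine ⟨x, fun h => ?_, fun n hn => inj ?_⟩
  · have e := hx (GeneralLinearGroup.mkOfDetNeZero A (by rwa [det_transpose] at dA))
    rw [h, map_zero] at e
    have e' : ((∑ τ : Fill m ν with (∀ j, content τ j = d), Phi hν d Z τ * EE hν Z τ : ℤ) : ℂ)
        = 0 := by
      rw [← eq_intCast (Int.castRingHom ℂ), map_sum]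
      simp only [map_mul, map_Phi, map_EE]
      exact e.symm
    have e2 := sum_Phi_sq hν d Z
    rw [Int.cast_eq_zero.1 e', mul_zero,
      Finset.sum_eq_zero_iff_of_nonneg fun _ _ => mul_self_nonneg _] at e2
    exact h2 (mul_self_eq_zero.1 (e2 τ0 (by simpa using h1)))
  · obtain ⟨σ, u, e1, e2⟩ := monomial_of_mem hn
    ext g
    rw [tr, hx, hx]
    refine Finset.sum_congr rfl fun τ hτ => ?_
    rw [Units.val_mul, SpecialLinearGroup.coe_GL_coe_matrix, e2,
      Phi_diag hν _ _ (Finset.mem_filter.1 hτ).2, Phi_submatrix, ← mul_assoc, ← mul_pow,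
      mul_comm (∏ j, u j), e1]
    simp

end MP7ebc2a
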