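import Pool.Agent.Lib.MP_7ebc2a_al.G6

namespace MP7ebc2a

def s61_0 : List Cert := [
]

lemma s61_0_ok : s61_0.all (Cert.ok 6 1) = true := by decide +kernel

def s61 : List Cert := s61_0

lemma s61_ok : s61.all (Cert.ok 6 1) = true := by
  simp only [s61, s61_0_ok]

lemma s61_keys : s61.map Cert.a = keys 6 1 ZF6 (need6 1) := by decide +kernel

end MP7ebc2a
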