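import Pool.Agent.Lib.MP_7ebc2a_al.G6

namespace MP7ebc2a

def s66_0 : List Cert := [
]

lemma s66_0_ok : s66_0.all (Cert.ok 6 6) = true := by decide +kernel

def s66 : List Cert := s66_0

lemma s66_ok : s66.all (Cert.ok 6 6) = true := by
  simp only [s66, s66_0_ok]

lemma s66_keys : s66.map Cert.a = keys 6 6 ZF6 (need6 6) := by decide +kernel

end MP7ebc2a
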