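import Pool.Agent.Lib.MP_7ebc2a_al.G7

namespace MP7ebc2a

def s71_0 : List Cert := [
]

lemma s71_0_ok : s71_0.all (Cert.ok 7 1) = true := by decide +kernel

def s71 : List Cert := s71_0

lemma s71_ok : s71.all (Cert.ok 7 1) = true := by
  simp only [s71, s71_0_ok]

lemma s71_keys : s71.map Cert.a = keys 7 1 ZF7 (need7 1) := by decide +kernel

end MP7ebc2a
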