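import Pool.Agent.Lib.MP_7ebc2a_al.G7

namespace MP7ebc2a

def s72_0 : List Cert := [
]

lemma s72_0_ok : s72_0.all (Cert.ok 7 2) = true := by decide +kernel

def s72 : List Cert := s72_0

lemma s72_ok : s72.all (Cert.ok 7 2) = true := by
  simp only [s72, s72_0_ok]

lemma s72_keys : s72.map Cert.a = keys 7 2 ZF7 (need7 2) := by decide +kernel

end MP7ebc2a
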