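import Pool.Agent.Lib.MP_7ebc2a_al.G7

namespace MP7ebc2a

def s76_0 : List Cert := [
]

lemma s76_0_ok : s76_0.all (Cert.ok 7 6) = true := by decide +kernel

def s76 : List Cert := s76_0

lemma s76_ok : s76.all (Cert.ok 7 6) = true := by
  simp only [s76, s76_0_ok]

lemma s76_keys : s76.map Cert.a = keys 7 6 ZF7 (need7 6) := by decide +kernel

end MP7ebc2a
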