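import Pool.Agent.Lib.MP_7ebc2a_al.G7

namespace MP7ebc2a

def s77_0 : List Cert := [
]

lemma s77_0_ok : s77_0.all (Cert.ok 7 7) = true := by decide +kernel

def s77 : List Cert := s77_0

lemma s77_ok : s77.all (Cert.ok 7 7) = true := by
  simp only [s77, s77_0_ok]

lemma s77_keys : s77.map Cert.a = keys 7 7 ZF7 (need7 7) := by decide +kernel

end MP7ebc2a
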