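import Pool.Agent.Lib.MP_7ebc2a_al.S60
import Pool.Agent.Lib.MP_7ebc2a_al.S61
import Pool.Agent.Lib.MP_7ebc2a_al.S62
import Pool.Agent.Lib.MP_7ebc2a_al.S63
import Pool.Agent.Lib.MP_7ebc2a_al.S64
import Pool.Agent.Lib.MP_7ebc2a_al.S65
import Pool.Agent.Lib.MP_7ebc2a_al.S66
import Pool.Agent.Lib.MP_7ebc2a_al.S70
import Pool.Agent.Lib.MP_7ebc2a_al.S71
import Pool.Agent.Lib.MP_7ebc2a_al.S72
import Pool.Agent.Lib.MP_7ebc2a_al.S73
import Pool.Agent.Lib.MP_7ebc2a_al.S74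
import Pool.Agent.Lib.MP_7ebc2a_al.S75
import Pool.Agent.Lib.MP_7ebc2a_al.S76
import Pool.Agent.Lib.MP_7ebc2a_al.S77

/-! The base cases with six and seven letters, and the combinatorial theorem. -/

namespace MP7ebc2a
open Multiset

lemma bs_zero {m : ℕ} {ν : Multiset ℕ} (hR : Reg m ν) : ∀ i ≤ m, bs 0 i ≤ ν.count i :=
  fun i hi => by simpa [bs] using hR.one_le hi

lemma bs_succ {m t : ℕ} {ν : Multiset ℕ} (hR : Reg m ν) (c1 : 2 ≤ ν.count t)
    (c2 : 2 ≤ ν.count (t + 1)) : ∀ i ≤ m, bs (t + 1) i ≤ ν.count i := by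
  intro i hi
  unfold bs
  split_ifs with h
  · rcases h.2 with h | h
    · obtain rfl : t = i := by omega
      exact c1
    · exact h ▸ c2
  · exact hR.one_le hi

theorem g6 : GAll 6 := fun d ν hev hR hs =>
  fin_reduce (o := 0) (by norm_num) GB6 ZF6 6 (need6 0) s60 GB6_ok ZF6_ok s60_keys s60_ok
    (fun _ _ _ _ _ _ h => by simp [need6] at h) d ν hev hR hs (bs_zero hR)

lemma k6_aux {t : ℕ} (ht : t < 6) (s : List Cert)
    (h1 : s.map Cert.a = keys 6 (t + 1) ZF6 (need6 (t + 1))) (h2 : s.all (Cert.ok 6 (t + 1)) = true)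
    (d : ℕ) (ν : Multiset ℕ) (hev : Even d) (hR : Reg 6 ν) (hs : ν.sum = 6 * d)
    (c1 : 2 ≤ ν.count t) (c2 : 2 ≤ ν.count (t + 1)) : Kp 6 d t ν :=
  fin_reduce (o := t + 1) (by norm_num) GB6 ZF6 6 (need6 (t + 1)) s GB6_ok ZF6_ok h1 h2
    (fun d ν hev hR hs _ h => (g6 d ν hev hR hs).kp' hR ht fun h' => by
      have : need6 (t + 1) d ν = true := by simpa [need6, Nat.blt_eq] using h'
      simp [this] at h) d ν hev hR hs (bs_succ hR c1 c2)

theorem k6 : KAll 6 := by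
  intro d ν t hev hR hs ht c1 c2
  interval_cases t
  · exact k6_aux ht _ s61_keys s61_ok d ν hev hR hs c1 c2
  · exact k6_aux ht _ s62_keys s62_ok d ν hev hR hs c1 c2
  · exact k6_aux ht _ s63_keys s63_ok d ν hev hR hs c1 c2
  · exact k6_aux ht _ s64_keys s64_ok d ν hev hR hs c1 c2
  · exact k6_aux ht _ s65_keys s65_ok d ν hev hR hs c1 c2
  · exact k6_aux ht _ s66_keys s66_ok d ν hev hR hs c1 c2

theorem g7 : GAll 7 := fun d ν hev hR hs =>
  fin_reduce (o := 0) (by norm_num) GB7 ZF7 7 (need7 0) s70 GB7_ok ZF7_ok s70_keys s70_ok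
    (fun d ν hev hR hs _ h => by
      rcases good_succ (m := 6) (by norm_num) k6 hev hR hs with h' | ⟨t, a, _, c⟩
      · exact h'
      · have : need7 0 d ν = true := by
          simp only [need7, List.any_eq_true, List.mem_range, beq_iff_eq]
          exact ⟨t, by omega, c⟩
        simp [this] at h) d ν hev hR hs (bs_zero hR)

lemma k7_aux {t : ℕ} (ht : t < 7) (s : List Cert)
    (h1 : s.map Cert.a = keys 7 (t + 1) ZF7 (need7 (t + 1))) (h2 : s.all (Cert.ok 7 (t + 1)) = true)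
    (d : ℕ) (ν : Multiset ℕ) (hev : Even d) (hR : Reg 7 ν) (hs : ν.sum = 7 * d)
    (c1 : 2 ≤ ν.count t) (c2 : 2 ≤ ν.count (t + 1)) : Kp 7 d t ν :=
  fin_reduce (o := t + 1) (by norm_num) GB7 ZF7 7 (need7 (t + 1)) s GB7_ok ZF7_ok h1 h2
    (fun d ν hev hR hs _ h => kp_succ (m := 6) (by norm_num) k6 g7 hev hR hs ht
      (by simpa [need7] using h)) d ν hev hR hs (bs_succ hR c1 c2)

theorem k7 : KAll 7 := by
  intro d ν t hev hR hs ht c1 c2
  interval_cases t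
  · exact k7_aux ht _ s71_keys s71_ok d ν hev hR hs c1 c2
  · exact k7_aux ht _ s72_keys s72_ok d ν hev hR hs c1 c2
  · exact k7_aux ht _ s73_keys s73_ok d ν hev hR hs c1 c2
  · exact k7_aux ht _ s74_keys s74_ok d ν hev hR hs c1 c2
  · exact k7_aux ht _ s75_keys s75_ok d ν hev hR hs c1 c2
  · exact k7_aux ht _ s76_keys s76_ok d ν hev hR hs c1 c2
  · exact k7_aux ht _ s77_keys s77_ok d ν hev hR hs c1 c2

theorem gall {m : ℕ} (hm : 6 ≤ m) : GAll m := all_of_base g6 k6 g7 k7 hm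

end MP7ebc2a
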