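import Pool.Agent.Lib.MP_7ebc2a_al.Base
import Pool.Agent.Lib.MP_7ebc2a_al.Rep3

/-! From the combinatorial theorem to a regular filling of the diagram of `lam`. -/

namespace MP7ebc2a
open Equiv Matrix

lemma index_cols {α β ι : Type*} [Inhabited α] (f : α → β) (g : ι → β) (s : Finset ι)
    (T : Multiset α) (h : T.map f = s.val.map g) :
    ∃ c : ι → α, T = s.val.map c ∧ ∀ k ∈ s, f (c k) = g k := by
  classical
  induction s using Finset.induction_on generalizing T with
  | empty => exact ⟨default, by simpa using h, by simp⟩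
  | insert k s hk ih =>
    rw [Finset.insert_val_of_notMem hk, Multiset.map_cons] at h
    obtain ⟨a, ha, h1, h2⟩ := (Multiset.map_eq_cons f T _ _).2 h
    obtain ⟨c, h3, h4⟩ := ih _ h2
    refine ⟨Function.update c k a, ?_, fun j hj => ?_⟩
    · rw [Finset.insert_val_of_notMem hk, Multiset.map_cons, Function.update_self,
        ← Multiset.cons_erase ha, h3]
      congr 1
      exact Multiset.map_congr rfl fun j hj =>
        (Function.update_of_ne (fun e => hk (by rw [← e]; exact hj)) _ _).symm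
    · rcases Finset.mem_insert.1 hj with rfl | hj
      · simpa using h1
      · rw [Function.update_of_ne (fun e => hk (by rw [← e]; exact hj)), h4 j hj]

variable {R : Type*} [CommRing R] {m : ℕ}

def mat (m : ℕ) (Z : ℕ → ℕ → R) : Matrix (Fin m) (Fin m) R := Matrix.of fun i j => Z i j

lemma D_full {c : List ℕ} (h1 : c.Nodup) (h2 : ∀ j ∈ c, j < m) (h3 : c.length = m) :
    ∃ σ : Perm (Fin m), ∀ Z : ℕ → ℕ → R, D Z c = (Perm.sign σ : ℤ) * (mat m Z).det := by
  subst h3
  let f : Fin c.length → Fin c.length := fun i => ⟨c.getD i 0, h2 _ (getD_mem i.2)⟩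
  have hf : Function.Injective f := by
    intro a b hab
    have hab' : c.getD a 0 = c.getD b 0 := congrArg Fin.val hab
    rw [List.getD_eq_getElem _ _ a.2, List.getD_eq_getElem _ _ b.2] at hab'
    exact Fin.ext ((List.Nodup.getElem_inj_iff h1).1 hab')
  refine ⟨Equiv.ofBijective f (Finite.injective_iff_bijective.1 hf), fun Z => ?_⟩
  rw [← det_permute']
  rfl

lemma E_full (Z : ℕ → ℕ → R) (T : Multiset (List ℕ))
    (h : ∀ c ∈ T, (c.Nodup ∧ ∀ j ∈ c, j < m) ∧ c.length = m) (w : Perm (Fin m)) :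
    E (fun r j => Z r (wa w j)) T = ((Perm.sign w : ℤ) : R) ^ T.card * E Z T := by
  induction T using Multiset.induction_on with
  | empty => simp
  | cons c T ih =>
    have hc := h c (Multiset.mem_cons_self _ _)
    obtain ⟨σ, hσ⟩ := D_full (R := R) hc.1.1 hc.1.2 hc.2
    have : mat m (fun r j => Z r (wa w j)) = (mat m Z).submatrix id w := by
      ext i j; simp [mat, wa_coe]
    rw [E_cons, E_cons, ih fun c' h' => h c' (Multiset.mem_cons_of_mem h'), hσ, hσ, this,
      det_permute', Multiset.card_cons]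
    ring

def colLen (lam : Fin m → ℕ) (k : ℕ) : ℕ := (Finset.univ.filter fun i => k < lam i).card

lemma colLen_le (lam : Fin m → ℕ) (k : ℕ) : colLen lam k ≤ m :=
  (Finset.card_le_univ _).trans (by simp)

lemma lt_colLen {lam : Fin m → ℕ} (hl : Antitone lam) (i : Fin m) (k : ℕ) :
    (i : ℕ) < colLen lam k ↔ k < lam i := by
  unfold colLen
  constructor
  · intro h
    by_contra hk
    have : (Finset.univ.filter fun j => k < lam j) ⊆ Finset.Iio i := fun j hj => by
      rw [Finset.mem_Iio]
      by_contra hij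
      have := hl (not_lt.1 hij)
      have := (Finset.mem_filter.1 hj).2
      omega
    have := Finset.card_le_card this
    rw [Fin.card_Iio] at this
    omega
  · intro h
    have : Finset.Iic i ⊆ Finset.univ.filter fun j => k < lam j := fun j hj =>
      Finset.mem_filter.2 ⟨Finset.mem_univ _, h.trans_le (hl (Finset.mem_Iic.1 hj))⟩
    have := Finset.card_le_card this
    rw [Fin.card_Iic] at this
    omega

lemma card_lt_fin {N a : ℕ} (h : a ≤ N) :
    (Finset.univ.filter fun k : Fin N => (k : ℕ) < a).card = a := by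
  rw [Fin.card_filter_val_lt]; omega

lemma colLen_self {lam : Fin m → ℕ} (hl : StrictAnti lam) (i : Fin m) :
    colLen lam (lam i) = i := by
  unfold colLen
  simp only [hl.lt_iff_gt]
  exact card_lt_fin i.2.le

theorem exists_fill (hG : GAll m) {lam : Fin m → ℕ} (hl : StrictAnti lam) {d N : ℕ}
    (hd : ∑ i, lam i = m * d) (hN : ∀ i, lam i < N) :
    ∃ Z : Matrix (Fin m) (Fin m) ℤ, Z.det ≠ 0 ∧ ∃ τ : Fill m fun k : Fin N => colLen lam k,
      (∀ j, content τ j = d) ∧ Phi (fun k => colLen_le lam k) d Z τ ≠ 0 := by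
  obtain ⟨e, he⟩ : ∃ e, Even (d + (e + 1)) := ⟨d + 1, by
    rw [show d + (d + 1 + 1) = (d + 1) + (d + 1) by ring]; exact ⟨_, rfl⟩⟩
  obtain ⟨T, hv, hT, hnz⟩ := hG (d + (e + 1))
    ((Finset.univ : Finset (Fin N)).val.map (fun k : Fin N => colLen lam k) +
      Multiset.replicate (e + 1) m) he (fun i => by
      simp only [Multiset.mem_add, Multiset.mem_map, Finset.mem_val, Finset.mem_univ, true_and,
        Multiset.mem_replicate]
      constructor
      · rintro (⟨k, rfl⟩ | ⟨_, rfl⟩)
        exacts [colLen_le _ _, le_rfl]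
      · intro hi
        rcases hi.lt_or_eq with hi | hi
        · exact Or.inl ⟨⟨lam ⟨i, hi⟩, hN _⟩, colLen_self hl _⟩
        · exact Or.inr ⟨by simp, hi⟩) (by
      rw [Multiset.sum_add, Multiset.sum_replicate, mul_add, ← hd, smul_eq_mul, mul_comm]
      congr 1
      change ∑ k : Fin N, colLen lam k = _
      simp only [colLen, Finset.card_filter]
      rw [Finset.sum_comm]
      refine Finset.sum_congr rfl fun i _ => ?_
      rw [← Finset.card_filter, card_lt_fin (hN i).le])
  obtain ⟨T1, T2, rfl, h1, h2⟩ := map_eq_add _ _ _ _ hT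
  obtain ⟨h3, h4⟩ := len_of_rep h2
  have h5 : ∀ c ∈ T2, (c.Nodup ∧ ∀ j ∈ c, j < m) ∧ c.length = m := fun c hc =>
    ⟨hv.1 c (Multiset.mem_add.2 (Or.inr hc)), h4 c hc⟩
  obtain ⟨c, rfl, hc⟩ := index_cols _ _ _ _ h1
  have hc1 : ∀ k, (c k).length = colLen lam k := fun k => hc k (Finset.mem_univ _)
  have hc2 : ∀ k, (c k).Nodup ∧ ∀ j ∈ c k, j < m := fun k =>
    hv.1 _ (Multiset.mem_add.2 (Or.inl (Multiset.mem_map_of_mem _ (Finset.mem_univ_val k))))
  obtain ⟨x, hx⟩ : ∃ x : ℕ × ℕ → ℤ, MvPolynomial.eval x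
      (Psi m Xg ((Finset.univ : Finset (Fin N)).val.map c + T2)) ≠ 0 := by
    by_contra! h
    exact hnz (MvPolynomial.funext fun x => by simpa using h x)
  rw [map_Psi] at hx
  set Z : ℕ → ℕ → ℤ := fun r j => MvPolynomial.eval x (Xg r j)
  let τ : Fill m fun k : Fin N => colLen lam k := fun k i =>
    ⟨(c k).getD i 0, (hc2 k).2 _ (getD_mem (by rw [hc1]; exact i.2))⟩
  have key : Psi m Z ((Finset.univ : Finset (Fin N)).val.map c + T2) =
      Phi (fun k => colLen_le lam k) d (mat m Z) τ * E Z T2 := by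
    unfold Psi Phi
    rw [Finset.sum_mul]
    refine Finset.sum_congr rfl fun w _ => ?_
    have e1 : ((Perm.sign w : ℤ) : ℤ) ^ (e + 1) = ((Perm.sign w : ℤ) : ℤ) ^ d := by
      rcases Int.units_eq_one_or (Perm.sign w) with h | h
      · simp [h]
      · simp only [h, Units.val_neg, Units.val_one]
        exact neg_one_pow_congr (Nat.even_add.1 he).symm
    have e2 : E (fun r j => Z r (wa w j)) ((Finset.univ : Finset (Fin N)).val.map c) =
        EE (fun k => colLen_le lam k) (mat m Z) (act w τ) := by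
      unfold E EE
      rw [Multiset.map_map]
      refine Finset.prod_congr rfl fun k _ => ?_
      rw [Function.comp_apply, D, hc1, Dn]
      congr 1
      ext i j
      simp [mat, act, τ, ← wa_coe]
    rw [E_add, E_full _ _ h5, h3, e2]
    simp only [Int.cast_id, e1]
    ring
  rw [key] at hx
  refine ⟨mat m Z, fun h0 => right_ne_zero_of_mul hx ?_, τ, fun j => ?_, left_ne_zero_of_mul hx⟩
  · obtain ⟨a, ha⟩ := Multiset.card_pos_iff_exists_mem.1 (by omega : 0 < T2.card)
    obtain ⟨σ, hσ⟩ := D_full (R := ℤ) (h5 a ha).1.1 (h5 a ha).1.2 (h5 a ha).2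
    rw [← Multiset.cons_erase ha, E_cons, hσ, h0]
    simp
  · have e1 := hv.2 j j.2
    have e2 : T2.countP ((j : ℕ) ∈ ·) = e + 1 := by
      rw [← h3, Multiset.countP_eq_card]
      intro a ha
      have := Finset.eq_of_subset_of_card_le (s := a.toFinset) (t := Finset.range m)
        (fun i hi => Finset.mem_range.2 ((h5 a ha).1.2 i (List.mem_toFinset.1 hi)))
        (by rw [List.toFinset_card_of_nodup (h5 a ha).1.1, (h5 a ha).2]; simp)
      rw [← List.mem_toFinset, this]
      simp
    rw [Multiset.countP_add, e2, Multiset.countP_map] at e1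
    rw [← Nat.add_right_cancel e1]
    change _ = (Finset.univ.filter fun k => (j : ℕ) ∈ c k).card
    rw [content, Finset.card_filter]
    refine Finset.sum_congr rfl fun k _ => ?_
    have g : ∀ i : Fin (colLen lam k), (τ k i : ℕ) = (c k)[(i : ℕ)]'(by rw [hc1]; exact i.2) :=
      fun i => List.getD_eq_getElem _ _ _
    split_ifs with h
    · obtain ⟨i, hi, e⟩ := List.getElem_of_mem h
      refine Finset.card_eq_one.2 ⟨⟨i, by rwa [← hc1]⟩, ?_⟩
      ext i'
      simp only [Finset.mem_filter, Finset.mem_univ, true_and, Finset.mem_singleton, Fin.ext_iff, g,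
        ← e]
      exact (hc2 k).1.getElem_inj_iff
    · rw [Finset.card_eq_zero, Finset.filter_eq_empty_iff]
      intro i _ e
      exact h (by rw [← e, g]; exact List.getElem_mem _)

theorem invariant_of_strictAnti (hG : GAll m) (lam : Fin m → ℕ) (hl : StrictAnti lam)
    (hd : m ∣ ∑ i, lam i) {V : Type*} [AddCommGroup V] [Module ℂ V]
    (ρ : Representation ℂ (GL (Fin m) ℂ) V) (hp : IsPolynomialRep ρ) [ρ.IsIrreducible]
    (hw : HasHighestWeight ρ lam) :
    ∃ v ≠ 0, ∀ n ∈ Subgroup.normalizer (torus m), ρ (SpecialLinearGroup.toGL n) v = v := by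
  obtain ⟨d, hd⟩ := hd
  have hN : ∀ i, lam i < ∑ i, lam i + 1 := fun i =>
    Nat.lt_succ_of_le (Finset.single_le_sum (fun _ _ => Nat.zero_le _) (Finset.mem_univ i))
  obtain ⟨Z, h1, τ, h2, h3⟩ := exists_fill hG hl hd hN
  refine invariant_of_Phi ρ hp hw _ (fun i => ?_) Z h1 τ h2 h3
  simp only [lt_colLen hl.antitone]
  exact card_lt_fin (hN i).le

end MP7ebc2a
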