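import Pool.Agent.Lib.MP_7ebc2a_al.Ev
import Pool.Agent.Lib.MP_7ebc2a_al.Rep4

/-! Blocks of eight columns filled with words of the extended Hamming code. -/

namespace MP7ebc2a
open Multiset

/-- the number of `i < S` congruent to `j` modulo `n` -/
def cn (n S j : ℕ) : ℕ := S / n + if j < S % n then 1 else 0

lemma cn_sum {n : ℕ} (hn : 0 < n) (S : ℕ) : ∑ j ∈ Finset.range n, cn n S j = S := by
  have := Nat.mod_lt S hn
  simp only [cn, Finset.sum_add_distrib, Finset.sum_const, Finset.card_range, smul_eq_mul]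
  rw [← Finset.card_filter, show (Finset.range n).filter (· < S % n) = Finset.range (S % n) by
    ext j; simp; omega, Finset.card_range, Nat.div_add_mod]

lemma cn_add {n : ℕ} (S σ : ℕ) {j : ℕ} (hj : j < n) :
    cn n (S + σ) j = cn n S j + σ / n ∨ cn n (S + σ) j = cn n S j + (σ / n + 1) := by
  have hn : 0 < n := by omega
  have h1 := Nat.mod_lt S hn
  have h2 := Nat.mod_lt σ hn
  unfold cn
  rw [Nat.add_div hn]
  by_cases h : n ≤ S % n + σ % n
  · have := Nat.add_mod_add_of_le_add_mod h
    split_ifs <;> omega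
  · have := Nat.add_mod_of_add_mod_lt (not_le.1 h)
    split_ifs <;> omega

lemma cn_mul {n : ℕ} (hn : 0 < n) (q j : ℕ) : cn n (n * q) j = q := by
  simp [cn, Nat.mul_div_cancel_left _ hn]

lemma rep_two {a : ℕ} (s : Multiset ℕ) (h : ∀ x ∈ s, x = a ∨ x = a + 1) :
    ∃ p q, s = replicate p a + replicate q (a + 1) := by
  induction s using Multiset.induction_on with
  | empty => exact ⟨0, 0, by simp⟩
  | cons x s ih =>
    obtain ⟨p, q, rfl⟩ := ih fun y hy => h y (mem_cons_of_mem hy)
    rcases h x (mem_cons_self _ _) with rfl | rfl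
    · exact ⟨p + 1, q, by simp [replicate_succ]⟩
    · exact ⟨p, q + 1, by simp [replicate_succ]⟩

lemma two_level {a b : ℕ} {s t : Multiset ℕ} (hs : ∀ x ∈ s, x = a ∨ x = a + 1)
    (ht : ∀ x ∈ t, x = b ∨ x = b + 1) (h1 : card s = card t) (h2 : s.sum = t.sum) : s = t := by
  wlog hab : a ≤ b generalizing a b s t
  · exact (this ht hs h1.symm h2.symm (by omega)).symm
  obtain ⟨p, q, rfl⟩ := rep_two s hs
  obtain ⟨p', q', rfl⟩ := rep_two t ht
  simp only [card_add, card_replicate, sum_add, sum_replicate, smul_eq_mul] at h1 h2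
  obtain ⟨e, rfl⟩ := Nat.exists_eq_add_of_le hab
  have h3 : q = (p + q) * e + q' := by
    have : (p + q) * a = (p' + q') * a := by rw [h1]
    have : (p + q) * e = (p' + q') * e := by rw [h1]
    nlinarith
  rcases e with _ | e
  · obtain rfl : q = q' := by simpa using h3
    obtain rfl : p = p' := by omega
    rfl
  · obtain rfl : p = 0 := by nlinarith
    obtain rfl : q' = 0 := by nlinarith
    obtain rfl : q = p' := by omega
    rcases q with _ | q
    · simp
    · obtain rfl : e = 0 := by nlinarith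
      simp

def bit (w : Fin 16) (x : Fin 8) : Bool :=
  xor (w.val.testBit 3) (xor (w.val.testBit 0 && x.val.testBit 0)
    (xor (w.val.testBit 1 && x.val.testBit 1) (w.val.testBit 2 && x.val.testBit 2)))

def lev (w : Fin 16) : ℕ := if w = 0 then 0 else if w = 8 then 2 else 1

lemma bit_even : ∀ w w' : Fin 16,
    Even (Finset.univ.filter fun x => bit w x = true ∧ bit w' x = true).card := by decide

lemma bit_card : ∀ w : Fin 16, (Finset.univ.filter fun x => bit w x = true).card = 4 * lev w := by
  decide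

lemma bit_not : ∀ w x, bit (w + 8) x = !bit w x := by decide

lemma lev_not : ∀ w, lev (w + 8) + lev w = 2 := by decide

def Feas (n : ℕ) (v : Fin 8 → ℕ) : Prop :=
  ∃ W : Multiset (Fin 16), card W = n ∧ (∀ x, W.countP (bit · x = true) = v x) ∧
    ∃ a, ∀ w ∈ W, lev w = a ∨ lev w = a + 1

def Fil (n σ : ℕ) (V : Multiset ℕ) : Prop :=
  V.sum = 4 * σ ∧ 8 ∣ card V ∧ ∀ S, ∃ T : Multiset Col, T.map (len n) = V ∧
    (∀ a b, Even (T.countP fun c => c a = true ∧ c b = true)) ∧
    ∀ j < n, T.countP (fun c => c j = true) + 4 * cn n S j = 4 * cn n (S + σ) j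

lemma Fil.zero (n : ℕ) : Fil n 0 0 := ⟨by simp, by simp, fun _ => ⟨0, by simp, by simp, by simp⟩⟩

lemma Fil.add {n σ σ' : ℕ} {V V' : Multiset ℕ} (h : Fil n σ V) (h' : Fil n σ' V') :
    Fil n (σ + σ') (V + V') := by
  refine ⟨by rw [sum_add, h.1, h'.1, mul_add], card_add V V' ▸ dvd_add h.2.1 h'.2.1, fun S => ?_⟩
  obtain ⟨T, a1, a2, a3⟩ := h.2.2 S
  obtain ⟨T', b1, b2, b3⟩ := h'.2.2 (S + σ)
  refine ⟨T + T', by rw [Multiset.map_add, a1, b1], fun a b => ?_, fun j hj => ?_⟩
  · rw [countP_add]; exact (a2 a b).add (b2 a b)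
  · have := a3 j hj
    have := b3 j hj
    rw [countP_add, ← add_assoc S]
    omega

lemma countP_univ {ι α : Type*} (s : Finset ι) (f : ι → α) (p : α → Prop) [DecidablePred p] :
    (s.val.map f).countP p = (s.filter fun i => p (f i)).card := by
  rw [countP_map]; rfl

lemma Feas.fil {n : ℕ} (hn : 0 < n) {v : Fin 8 → ℕ} (h : Feas n v) :
    ∃ σ, Fil n σ (Finset.univ.val.map v) := by
  obtain ⟨W, h1, h2, a, h3⟩ := h
  have key : ∀ S, ∃ T : Multiset Col, T.map (len n) = Finset.univ.val.map v ∧
      (∀ a b, Even (T.countP fun c => c a = true ∧ c b = true)) ∧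
      ∀ j < n, T.countP (fun c => c j = true) + 4 * cn n S j =
        4 * cn n (S + (W.map lev).sum) j := by
    intro S
    have e : W.map lev = (Finset.range n).val.map fun j =>
        cn n (S + (W.map lev).sum) j - cn n S j := by
      refine two_level (a := a) (b := (W.map lev).sum / n) (fun x hx => ?_) (fun x hx => ?_)
        (by simp [h1]) ?_
      · obtain ⟨w, hw, rfl⟩ := mem_map.1 hx
        exact h3 w hw
      · obtain ⟨j, hj, rfl⟩ := mem_map.1 hx
        have := cn_add S (W.map lev).sum (Finset.mem_range.1 hj)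
        generalize (W.map lev).sum / n = q at this ⊢
        omega
      · change _ = ∑ j ∈ Finset.range n, _
        rw [Finset.sum_tsub_distrib _ fun j hj => by
          have := cn_add S (W.map lev).sum (Finset.mem_range.1 hj)
          generalize (W.map lev).sum / n = q at this
          omega, cn_sum hn, cn_sum hn, Nat.add_sub_cancel_left]
    obtain ⟨w, e1, e2⟩ := index_cols _ _ _ _ e
    refine ⟨Finset.univ.val.map fun (x : Fin 8) j => bit (w j) x, ?_, fun a b => ?_,
      fun j hj => ?_⟩
    · rw [Multiset.map_map]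
      refine map_congr rfl fun x _ => ?_
      rw [← h2 x, e1, countP_univ, Finset.card_filter, Function.comp_apply, len_eq_sum]
    · rw [countP_univ]; exact bit_even _ _
    · have := cn_add S (W.map lev).sum hj
      rw [countP_univ, bit_card, e2 j (Finset.mem_range.2 hj)]
      generalize (W.map lev).sum / n = q at this
      omega
  refine ⟨(W.map lev).sum, ?_, by simp, key⟩
  rw [← funext h2]
  clear key h1 h2 h3
  change ∑ x, _ = _
  induction W using Multiset.induction_on with
  | empty => simp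
  | cons w W ih =>
    simp only [countP_cons, Finset.sum_add_distrib, ih, map_cons, sum_cons, mul_add]
    rw [← Finset.card_filter, bit_card, add_comm]

lemma Feas.compl {n : ℕ} {v : Fin 8 → ℕ} (h : Feas n v) : Feas n fun x => n - v x := by
  obtain ⟨W, h1, h2, a, h3⟩ := h
  refine ⟨W.map (· + 8), by simpa using h1, fun x => ?_, 1 - a, fun w hw => ?_⟩
  · have := countP_lin W (fun w => bit (w + 8) x = true) (fun w => bit w x = true) (fun _ => True)
      (fun _ => False) fun w _ => by rw [bit_not]; cases bit w x <;> simp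
    rw [countP_map, ← countP_eq_card_filter]
    simp only [countP_True, countP_False, h1, h2] at this
    beta_reduce
    omega
  · obtain ⟨w, hw', rfl⟩ := mem_map.1 hw
    have := h3 w hw'
    have := lev_not w
    omega

lemma feas_of_mult (p : Fin 16 → ℕ) (h : p 0 = 0 ∨ p 8 = 0) :
    Feas (∑ w, p w) fun x => ∑ w, if bit w x = true then p w else 0 := by
  refine ⟨∑ w, replicate (p w) w, by simp, fun x => ?_, if p 8 = 0 then 0 else 1, fun w hw => ?_⟩
  · rw [← coe_countPAddMonoidHom, map_sum]
    refine Finset.sum_congr rfl fun w _ => ?_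
    rw [coe_countPAddMonoidHom]
    split_ifs with h
    · rw [countP_eq_card.2 fun y hy => eq_of_mem_replicate hy ▸ h, card_replicate]
    · exact countP_eq_zero.2 fun y hy => eq_of_mem_replicate hy ▸ h
  · obtain ⟨y, _, hy⟩ := Multiset.mem_sum.1 hw
    obtain ⟨h1, rfl⟩ := mem_replicate.1 hy
    unfold lev
    split_ifs <;> simp_all

lemma feas_blk {n c a : ℕ} (k : Fin 7 → ℕ)
    (h : (∑ i, k i ≤ a ∧ 7 * a + ∑ i, k i + c ≤ n) ∨
      (3 * ∑ i, k i ≤ c ∧ 7 * a + 4 * ∑ i, k i + c ≤ n)) :
    Feas n (Fin.cons c fun i => c + 4 * a + 4 * k i) := by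
  have aux : ∀ (p : Fin 16 → ℕ) (b : ℕ), p 0 = 0 → p 8 = 0 → ∑ w, p w + b ≤ n →
      Feas n fun x => (∑ w, if bit w x = true then p w else 0) + b := by
    intro p b p0 p8 hb
    obtain ⟨z, b1, b2, e1, e2, e3⟩ : ∃ z b1 b2, b1 + b2 = b ∧ ∑ w, p w + (z + b1 + b2 + b2) = n ∧
        (z = 0 ∨ b1 = 0) := by
      by_cases h : ∑ w, p w + 2 * b ≤ n
      · exact ⟨n - ∑ w, p w - 2 * b, 0, b, by omega⟩
      · exact ⟨0, ∑ w, p w + 2 * b - n, n - ∑ w, p w - b, by omega⟩
    have := feas_of_mult (fun w => p w + ![z, b2, 0, 0, 0, 0, 0, 0, b1, b2, 0, 0, 0, 0, 0, 0] w)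
      (by simpa [p0, p8] using e3)
    convert this using 1
    · rw [Finset.sum_add_distrib, ← e2]
      simp [Fin.sum_univ_succ]
      omega
    · ext x
      simp only [ite_add_zero, Finset.sum_add_distrib]
      congr 1
      fin_cases x <;> simp [Fin.sum_univ_succ, bit, Nat.testBit] <;> omega
  rcases h with ⟨h1, h2⟩ | ⟨h1, h2⟩
  · obtain ⟨e, rfl⟩ := Nat.exists_eq_add_of_le h1
    have := aux (fun w => if 0 < w ∧ w < 8 then
      e + 2 * ∑ i, if bit w i.succ = true then k i else 0 else 0) c (by simp) (by simp) (by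
        refine le_trans (le_of_eq ?_) h2
        simp [Fin.sum_univ_succ, bit, Nat.testBit]
        omega)
    convert this using 1
    ext x
    refine Fin.cases (by simp [Fin.sum_univ_succ, bit, Nat.testBit]) (fun x => ?_) x
    rw [Fin.cons_succ]
    fin_cases x <;> simp [Fin.sum_univ_succ, bit, Nat.testBit] <;> omega
  · obtain ⟨e, rfl⟩ := Nat.exists_eq_add_of_le h1
    have := aux (fun w => (if 0 < w ∧ w < 8 then a else 0) + if w = 8 then 0 else
      ∑ i, if bit w i.succ = true then k i else 0) e (by simp [bit]) (by simp) (by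
        refine le_trans (le_of_eq ?_) h2
        simp [Fin.sum_univ_succ, bit, Nat.testBit]
        omega)
    convert this using 1
    ext x
    refine Fin.cases (by simp [Fin.sum_univ_succ, bit, Nat.testBit]; omega) (fun x => ?_) x
    rw [Fin.cons_succ]
    fin_cases x <;> simp [Fin.sum_univ_succ, bit, Nat.testBit] <;> omega

end MP7ebc2a
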