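import Pool.Agent.Lib.MP_7ebc2a_al.Step

/-! A checker for explicit fillings: a small block is evaluated at an integer matrix and the
remaining letters are added one at a time. -/

namespace MP7ebc2a
open Equiv Matrix

/-- strict evaluation helpers -/
def force {α : Type} (n : ℕ) (k : ℕ → α) : α :=
  match n with
  | 0 => k 0
  | n + 1 => k n.succ

@[simp] lemma force_eq {α : Type} (n : ℕ) (k : ℕ → α) : force n k = k n := by cases n <;> rfl

def forceL {α : Type} : List ℕ → (List ℕ → α) → α
  | [], k => k []
  | x :: l, k => force x fun x' => forceL l fun l' => k (x' :: l')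

@[simp] lemma forceL_eq {α : Type} (l : List ℕ) (k : List ℕ → α) : forceL l k = k l := by
  induction l generalizing k with
  | nil => rfl
  | cons x l ih => simp [forceL, ih]

def forceLL {α : Type} : List (List ℕ) → (List (List ℕ) → α) → α
  | [], k => k []
  | x :: l, k => forceL x fun x' => forceLL l fun l' => k (x' :: l')

@[simp] lemma forceLL_eq {α : Type} (l : List (List ℕ)) (k : List (List ℕ) → α) :
    forceLL l k = k l := by
  induction l generalizing k with
  | nil => rfl
  | cons x l ih => simp [forceLL, ih]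

def forceZ {α : Type} (z : ℤ) (k : ℤ → α) : α :=
  match z with
  | Int.ofNat n => force n fun n' => k (Int.ofNat n')
  | Int.negSucc n => force n fun n' => k (Int.negSucc n')

@[simp] lemma forceZ_eq {α : Type} (z : ℤ) (k : ℤ → α) : forceZ z k = k z := by
  cases z <;> simp [forceZ]

def dl (Z : ℕ → ℕ → ℤ) : ℕ → List ℕ → ℤ
  | 0, _ => 1
  | n + 1, c => forceZ ((List.range (n + 1)).map fun i =>
      (if (n + i) % 2 = 0 then Z n (c.getD i 0) else - Z n (c.getD i 0)) *
        forceL (c.eraseIdx i) (dl Z n)).sum id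

lemma sum_range_map (f : ℕ → ℤ) (n : ℕ) : ((List.range n).map f).sum = ∑ i : Fin n, f i := by
  rw [← Finset.sum_range]; rfl

lemma dl_eq (Z : ℕ → ℕ → ℤ) (n : ℕ) (c : List ℕ) : dl Z n c = Dn Z n (fun j => c.getD j 0) := by
  induction n generalizing c with
  | zero => simp [dl, Dn]
  | succ n ih =>
    rw [dl, forceZ_eq, id, sum_range_map]
    conv_rhs => unfold Dn
    rw [det_succ_row _ (Fin.last n)]
    refine Finset.sum_congr rfl fun i _ => ?_
    rw [forceL_eq, ih]
    congr 1
    · simp only [Fin.val_last, Matrix.of_apply]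
      split_ifs with h
      · rw [(Nat.even_iff.2 h).neg_one_pow, one_mul]
      · rw [(Nat.odd_iff.2 (by omega)).neg_one_pow, neg_one_mul]
    · unfold Dn
      congr 1
      ext r j
      simp only [Matrix.of_apply, submatrix_apply, Fin.succAbove_last, Fin.val_castSucc,
        List.getD_eq_getElem?_getD, List.getElem?_eraseIdx]
      congr 2
      unfold Fin.succAbove
      simp only [Fin.lt_def, Fin.val_castSucc]
      split_ifs <;> simp

def perms : ℕ → List (List ℕ)
  | 0 => [[]]
  | n + 1 => (List.range (n + 1)).flatMap fun p =>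
      (perms n).map fun L => p :: L.map fun x => if x + 1 = p then 0 else x + 1

lemma sum_flatMap' {α : Type*} (f : α → List ℤ) (l : List α) :
    (l.flatMap f).sum = (l.map fun a => (f a).sum).sum := by
  induction l with
  | nil => simp
  | cons a l ih => simp [ih]

lemma sum_perms (n : ℕ) (g : List ℕ → ℤ) :
    ∑ w : Perm (Fin n), g (List.ofFn fun i => (w i : ℕ)) = ((perms n).map g).sum := by
  induction n generalizing g with
  | zero => simp [perms]
  | succ n ih =>
    rw [← Equiv.sum_comp Perm.decomposeFin.symm, Fintype.sum_prod_type, perms, List.map_flatMap,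
      sum_flatMap', sum_range_map]
    refine Finset.sum_congr rfl fun p _ => ?_
    rw [List.map_map, ← ih]
    refine Finset.sum_congr rfl fun e _ => ?_
    simp only [Function.comp_apply]
    congr 1
    rw [List.ofFn_succ, List.map_ofFn]
    congr 1
    · simp
    · congr 1
      ext i
      simp only [Perm.decomposeFin_symm_apply_succ, Function.comp_apply]
      by_cases h : (e i).succ = p
      · rw [h, swap_apply_right, if_pos (by rw [← h]; simp)]; rfl
      · have h' : ¬ ((e i : ℕ) + 1 = p) := fun h' => h (Fin.ext h')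
        rw [swap_apply_of_ne_of_ne (Fin.succ_ne_zero _) h, if_neg h']
        simp

def psiL (Z : ℕ → ℕ → ℤ) (b : ℕ) (T : List (List ℕ)) : ℤ :=
  forceLL (perms b) fun P => (P.map fun L => forceZ (T.map fun c =>
    forceL (c.map fun j => L.getD j 0) fun c' => force c.length fun n => dl Z n c').prod id).sum

lemma psiL_eq (Z : ℕ → ℕ → ℤ) (b : ℕ) (T : List (List ℕ)) (hT : ∀ c ∈ T, ∀ j ∈ c, j < b) :
    Psi b Z (T : Multiset (List ℕ)) = psiL Z b T := by
  unfold psiL Psi
  simp only [forceLL_eq, forceL_eq, force_eq, forceZ_eq, id]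
  rw [← sum_perms]
  refine Finset.sum_congr rfl fun w _ => ?_
  unfold E
  rw [Multiset.map_coe, Multiset.prod_coe]
  congr 1
  refine List.map_congr_left fun c hc => ?_
  rw [← D_map, dl_eq]
  have : (c.map fun j => (List.ofFn fun i => (w i : ℕ)).getD j 0) = c.map (wa w) := by
    refine List.map_congr_left fun j hj => ?_
    have hj' := hT c hc j hj
    rw [List.getD_eq_getElem _ _ (by simpa using hj')]
    simp [wa, hj']
  rw [this]
  unfold D
  simp

def Z0 (r j : ℕ) : ℤ :=
  (([[1, 1, 1, 1, 1], [0, 1, 2, 4, 7], [3, 1, 4, 1, 5], [2, 7, 1, 8, 2], [1, 4, 1, 4, 2]] :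
    List (List ℤ)).getD r []).getD j 0

def wtf : ℕ → ℕ → ℕ
  | 0, r => r
  | 1, r => 2 ^ r
  | 2, r => 3 ^ r
  | 3, r => if r < 7 then 64 - 64 / 2 ^ r else 57 + r
  | _, r => if r < 7 then 729 - 729 / 3 ^ r else 722 + r

lemma wtf_mono (k : ℕ) : StrictMono (wtf k) := by
  match k with
  | 0 => exact strictMono_id
  | 1 => exact fun a b h => Nat.pow_lt_pow_right (by norm_num) h
  | 2 => exact fun a b h => Nat.pow_lt_pow_right (by norm_num) h
  | 3 =>
    refine strictMono_nat_of_lt_succ fun r => ?_
    by_cases h : r < 7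
    · interval_cases r <;> decide
    · simp only [wtf]; rw [if_neg h, if_neg (by omega)]; omega
  | k + 4 =>
    refine strictMono_nat_of_lt_succ fun r => ?_
    by_cases h : r < 7
    · interval_cases r <;> simp [wtf]
    · simp only [wtf]; rw [if_neg h, if_neg (by omega)]; omega

def costL (wt : ℕ → ℕ) (T : List (List ℕ)) (j : ℕ) : ℕ :=
  T.foldr (fun c s => bif c.elem j then wt (c.length - 1) + s else s) 0

lemma costL_eq (wt : ℕ → ℕ) (T : List (List ℕ)) (j : ℕ) :
    cost wt (T : Multiset (List ℕ)) j = costL wt T j := by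
  induction T with
  | nil => simp [cost, costL]
  | cons c T ih =>
    have : cost wt ((c :: T : List (List ℕ)) : Multiset (List ℕ)) j = cst wt j c + cost wt T j := by
      simp [cost]
    rw [this, ih]
    by_cases h : j ∈ c <;> simp [costL, cst, h]

def flag (S : ℕ) : ℕ → List (List ℕ) → List (Bool × List ℕ)
  | _, [] => []
  | k, c :: T => (S.testBit k, c) :: flag S (k + 1) T

lemma flag_snd (S k : ℕ) (T : List (List ℕ)) : (flag S k T).map Prod.snd = T := by
  induction T generalizing k with
  | nil => rfl
  | cons c T ih => simp [flag, ih]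

def run (d : ℕ) : ℕ → List (List ℕ) → List (ℕ × ℕ) → Option (List (List ℕ))
  | _, T, [] => some T
  | l, T, (S, k) :: st =>
    forceLL ((flag S 0 T).map ext) fun T' => force (costL (wtf k) T' 0) fun c0 =>
    bif ((flag S 0 T).countP (·.1) == d) && (List.range l).all (fun j => Nat.blt (costL (wtf k) T' (j + 1)) c0)
    then run d (l + 1) T' st else none

lemma run_sound {d : ℕ} (st : List (ℕ × ℕ)) {l : ℕ} {T T' : List (List ℕ)}
    (hV : Valid l d T) (hN : NZ l T) (h : run d l T st = some T') :
    Valid (l + st.length) d T' ∧ NZ (l + st.length) T' := by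
  induction st generalizing l T with
  | nil => simp only [run, Option.some.injEq] at h; subst h; exact ⟨hV, hN⟩
  | cons x st ih =>
    obtain ⟨S, k⟩ := x
    simp only [run, forceLL_eq, force_eq] at h
    rw [Bool.cond_eq_ite] at h
    split_ifs at h with hc
    simp only [Bool.and_eq_true, beq_iff_eq, List.all_eq_true, List.mem_range, Nat.blt_eq] at hc
    have e1 : ((flag S 0 T : List _) : Multiset (Bool × List ℕ)).map Prod.snd = T := by
      rw [Multiset.map_coe, flag_snd]
    have h1 : Valid (l + 1) d (((flag S 0 T : List _) : Multiset (Bool × List ℕ)).map ext) :=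
      valid_ext (e1 ▸ hV) (by rw [Multiset.coe_countP, ← hc.1]; simp)
    have h2 : NZ (l + 1) (((flag S 0 T : List _) : Multiset (Bool × List ℕ)).map ext) := by
      refine NZ_step (wtf_mono k) _ (fun p hp => ?_) (fun j hj => ?_) (e1 ▸ hN)
      · exact (hV.1 _ (e1 ▸ Multiset.mem_map_of_mem _ hp)).1
      · rw [Multiset.map_coe, costL_eq, costL_eq]; exact hc.2 j hj
    rw [Multiset.map_coe] at h1 h2
    have := ih h1 h2 h
    rwa [List.length_cons, ← add_assoc, add_right_comm]

def baseT (N : ℕ) (B : List ℕ) : List (List ℕ) :=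
  (List.range N).map fun k => (List.range B.length).filter fun j => (B.getD j 0).testBit k

def degOK (m d : ℕ) (T : List (List ℕ)) : Bool :=
  (List.range m).all fun j => T.countP (·.elem j) == d

lemma baseT_valid {N d : ℕ} {B : List ℕ} (h : degOK B.length d (baseT N B) = true) :
    Valid B.length d (baseT N B) := by
  refine ⟨fun c hc => ?_, fun j hj => ?_⟩
  · simp only [baseT, Multiset.mem_coe, List.mem_map] at hc
    obtain ⟨k, _, rfl⟩ := hc
    exact ⟨List.nodup_range.filter _, fun j hj => by simpa using (List.mem_filter.1 hj).1⟩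
  · simp only [degOK, List.all_eq_true, List.mem_range, beq_iff_eq] at h
    rw [Multiset.coe_countP, ← h j hj]; simp

def toL : List ℕ → ℕ → List ℕ
  | [], _ => []
  | x :: l, k => List.replicate x k ++ toL l (k + 1)

def deadB (T : List (List ℕ)) (t : ℕ) (α β : List ℕ) (j : ℕ) : Bool :=
  α.elem j || !β.elem j || T.any fun c =>
    (Nat.blt c.length t && c.elem j) || (Nat.blt (t + 1) c.length && !c.elem j)

/-- the statement proved for a shape: `o = 0` plain, `o = t + 1` strengthened -/
def Q (m d : ℕ) : ℕ → Multiset ℕ → Prop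
  | 0, ν => Good m d ν
  | t + 1, ν => Kp m d t ν

structure Cert where
  a : List ℕ
  B : List ℕ
  st : List (ℕ × ℕ)
  ia : ℕ
  ib : ℕ

def wsum : List ℕ → ℕ → ℕ
  | [], _ => 0
  | x :: l, k => x * k + wsum l (k + 1)

def Cert.ok (m o : ℕ) (c : Cert) : Bool :=
  force (wsum c.a 0 / m) fun d => forceLL (baseT c.a.sum c.B) fun T0 =>
  (c.B.length + c.st.length == m) && degOK c.B.length d T0 && (psiL Z0 c.B.length T0 != 0) &&
    match run d c.B.length T0 c.st with
    | none => false
    | some T => (T.map List.length == toL c.a 0) &&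
      match o with
      | 0 => true
      | t + 1 =>
        let α := T.getD c.ia []
        let β := T.getD c.ib []
        Nat.blt c.ia T.length && Nat.blt c.ib T.length && (α.length == t) && (β.length == t + 1) &&
          (List.range m).all (deadB T t α β)

lemma Cert.sound {m o : ℕ} {c : Cert} (h : c.ok m o = true) :
    Q m (wsum c.a 0 / m) o (toL c.a 0 : List ℕ) := by
  simp only [Cert.ok, force_eq, forceLL_eq, Bool.and_eq_true, beq_iff_eq, bne_iff_ne] at h
  obtain ⟨⟨⟨h1, h2⟩, h3⟩, h4⟩ := h
  have hV := baseT_valid h2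
  have hN : NZ c.B.length (baseT c.a.sum c.B) :=
    NZ_of Z0 (by rwa [psiL_eq _ _ _ fun x hx => (hV.1 x hx).2])
  split at h4
  · simp at h4
  rename_i T hT
  obtain ⟨hV', hN'⟩ := run_sound _ hV hN hT
  rw [h1] at hV' hN'
  simp only [Bool.and_eq_true, beq_iff_eq] at h4
  have hs : (T : Multiset (List ℕ)).map List.length = (toL c.a 0 : List ℕ) := by
    rw [Multiset.map_coe, h4.1]
  cases o with
  | zero => exact ⟨T, hV', hs, hN'⟩
  | succ t =>
    have h5 := h4.2
    simp only [Bool.and_eq_true, beq_iff_eq, Nat.blt_eq, List.all_eq_true, List.mem_range] at h5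
    obtain ⟨⟨⟨⟨a1, a2⟩, a3⟩, a4⟩, a5⟩ := h5
    refine ⟨T, hV', hs, hN', T.getD c.ia [], ?_, T.getD c.ib [], ?_, a3, a4, fun j hj => ?_⟩
    · rw [List.getD_eq_getElem _ _ a1]; exact List.getElem_mem a1
    · rw [List.getD_eq_getElem _ _ a2]; exact List.getElem_mem a2
    · have := a5 j hj
      simp only [deadB, Bool.or_eq_true, List.elem_eq_mem, decide_eq_true_eq, Bool.not_eq_true',
        decide_eq_false_iff_not, List.any_eq_true, Bool.and_eq_true, Nat.blt_eq] at this
      rcases this with (h | h) | ⟨x, hx, h | h⟩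
      · exact Or.inr (Or.inr (Or.inl h))
      · exact Or.inr (Or.inr (Or.inr h))
      · exact Or.inl ⟨x, hx, h⟩
      · exact Or.inr (Or.inl ⟨x, hx, h⟩)

end MP7ebc2a
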