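import Mathlib

/-! Products of flag minors, their symmetrisation over the symmetric group, and the basic
operations (addition of fillings, doubling, adding one or two new letters). -/

namespace MP7ebc2a
open Equiv Matrix Polynomial

section basic
variable {R S : Type*} [CommRing R] [CommRing S]

/-- minor on the first `n` rows and the columns `f 0, …, f (n-1)` -/
def Dn (Z : ℕ → ℕ → R) (n : ℕ) (f : ℕ → ℕ) : R :=
  (Matrix.of fun i j : Fin n => Z i (f j)).det

def D (Z : ℕ → ℕ → R) (c : List ℕ) : R := Dn Z c.length (fun j => c.getD j 0)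

def E (Z : ℕ → ℕ → R) (T : Multiset (List ℕ)) : R := (T.map (D Z)).prod

def wa {m : ℕ} (w : Perm (Fin m)) (j : ℕ) : ℕ := if h : j < m then (w ⟨j, h⟩ : ℕ) else j

def Psi (m : ℕ) (Z : ℕ → ℕ → R) (T : Multiset (List ℕ)) : R :=
  ∑ w : Perm (Fin m), E (fun r j => Z r (wa w j)) T

lemma Dn_congr {Z Z' : ℕ → ℕ → R} {n : ℕ} {f g : ℕ → ℕ}
    (h : ∀ i < n, ∀ j < n, Z i (f j) = Z' i (g j)) : Dn Z n f = Dn Z' n g := by
  unfold Dn
  congr 1
  ext i j
  exact h i i.2 j j.2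

lemma getD_mem {c : List ℕ} {j : ℕ} (h : j < c.length) : c.getD j 0 ∈ c := by
  rw [List.getD_eq_getElem _ _ h]; exact List.getElem_mem h

lemma D_congr {Z Z' : ℕ → ℕ → R} {c : List ℕ}
    (h : ∀ i < c.length, ∀ j ∈ c, Z i j = Z' i j) : D Z c = D Z' c :=
  Dn_congr fun i hi _ hj => h i hi _ (getD_mem hj)

lemma D_map (Z : ℕ → ℕ → R) (g : ℕ → ℕ) (c : List ℕ) :
    D Z (c.map g) = D (fun r j => Z r (g j)) c := by
  unfold D
  rw [List.length_map]
  refine Dn_congr fun i _ j hj => ?_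
  rw [List.getD_eq_getElem _ _ (by simpa using hj), List.getD_eq_getElem _ _ hj]
  simp

lemma map_Dn (φ : R →+* S) (Z : ℕ → ℕ → R) (n : ℕ) (f : ℕ → ℕ) :
    φ (Dn Z n f) = Dn (fun r j => φ (Z r j)) n f := by
  unfold Dn
  rw [RingHom.map_det]
  congr 1

lemma map_D (φ : R →+* S) (Z : ℕ → ℕ → R) (c : List ℕ) :
    φ (D Z c) = D (fun r j => φ (Z r j)) c := map_Dn φ Z _ _

lemma map_E (φ : R →+* S) (Z : ℕ → ℕ → R) (T : Multiset (List ℕ)) :
    φ (E Z T) = E (fun r j => φ (Z r j)) T := by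
  unfold E
  rw [map_multiset_prod, Multiset.map_map]
  congr 1
  exact Multiset.map_congr rfl fun c _ => map_D φ Z c

lemma map_Psi (φ : R →+* S) (m : ℕ) (Z : ℕ → ℕ → R) (T : Multiset (List ℕ)) :
    φ (Psi m Z T) = Psi m (fun r j => φ (Z r j)) T := by
  unfold Psi
  rw [map_sum]
  exact Finset.sum_congr rfl fun w _ => map_E φ _ T

lemma E_add (Z : ℕ → ℕ → R) (T U : Multiset (List ℕ)) : E Z (T + U) = E Z T * E Z U := by
  simp [E]

@[simp] lemma E_zero (Z : ℕ → ℕ → R) : E Z 0 = 1 := by simp [E]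

@[simp] lemma E_cons (Z : ℕ → ℕ → R) (c : List ℕ) (T : Multiset (List ℕ)) :
    E Z (c ::ₘ T) = D Z c * E Z T := by simp [E]

lemma E_map (Z : ℕ → ℕ → R) (g : ℕ → ℕ) (T : Multiset (List ℕ)) :
    E Z (T.map (List.map g)) = E (fun r j => Z r (g j)) T := by
  unfold E
  rw [Multiset.map_map]
  congr 1
  exact Multiset.map_congr rfl fun c _ => D_map Z g c

lemma wa_lt {m : ℕ} (w : Perm (Fin m)) {j : ℕ} (h : j < m) : wa w j < m := by
  simp [wa, h]

lemma wa_mul {m : ℕ} (w u : Perm (Fin m)) (j : ℕ) : wa (w * u) j = wa w (wa u j) := by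
  unfold wa
  by_cases h : j < m
  · simp [h]
  · simp [h]

@[simp] lemma wa_one {m : ℕ} (j : ℕ) : wa (1 : Perm (Fin m)) j = j := by
  unfold wa; split_ifs <;> simp

lemma wa_inj {m : ℕ} (w : Perm (Fin m)) : Function.Injective (wa w) := by
  intro a b h
  have := congrArg (wa w⁻¹) h
  simpa [← wa_mul] using this

lemma wa_coe {m : ℕ} (w : Perm (Fin m)) (j : Fin m) : wa w j = w j := by
  simp [wa]

lemma Psi_mul (m : ℕ) (Z : ℕ → ℕ → R) (T U : Multiset (List ℕ)) :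
    Psi m Z T * Psi m Z U = ∑ u : Perm (Fin m), Psi m Z (T + U.map (List.map (wa u))) := by
  unfold Psi
  rw [Finset.sum_mul_sum, Finset.sum_comm (s := Finset.univ) (t := Finset.univ)
    (f := fun u w : Perm (Fin m) => E (fun r j => Z r (wa w j)) (T + U.map (List.map (wa u))))]
  refine Finset.sum_congr rfl fun w _ => ?_
  rw [← Equiv.sum_comp (Equiv.mulLeft w)]
  refine Finset.sum_congr rfl fun u _ => ?_
  rw [E_add, E_map]
  simp [wa_mul]

end basic

/-- generic matrix -/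
noncomputable def Xg : ℕ → ℕ → MvPolynomial (ℕ × ℕ) ℤ := fun r j => MvPolynomial.X (r, j)

def NZ (m : ℕ) (T : Multiset (List ℕ)) : Prop := Psi m Xg T ≠ 0

lemma NZ_of {R : Type*} [CommRing R] {m : ℕ} {T : Multiset (List ℕ)} (Z : ℕ → ℕ → R)
    (h : Psi m Z T ≠ 0) : NZ m T := by
  intro h0
  apply h
  have := map_Psi (MvPolynomial.eval₂Hom (Int.castRingHom R) fun p : ℕ × ℕ => Z p.1 p.2) m Xg T
  rw [h0, map_zero] at this
  simpa [Xg] using this.symm

def Valid (m d : ℕ) (T : Multiset (List ℕ)) : Prop :=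
  (∀ c ∈ T, c.Nodup ∧ ∀ j ∈ c, j < m) ∧ ∀ j < m, T.countP (j ∈ ·) = d

lemma Valid.add {m d d' : ℕ} {T U : Multiset (List ℕ)} (h : Valid m d T) (h' : Valid m d' U) :
    Valid m (d + d') (T + U) := by
  refine ⟨fun c hc => ?_, fun j hj => ?_⟩
  · rcases Multiset.mem_add.1 hc with hc | hc
    exacts [h.1 c hc, h'.1 c hc]
  · rw [Multiset.countP_add, h.2 j hj, h'.2 j hj]

lemma mem_map_wa {m : ℕ} (u : Perm (Fin m)) (c : List ℕ) (j : ℕ) :
    j ∈ c.map (wa u) ↔ wa u⁻¹ j ∈ c := by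
  rw [List.mem_map]
  constructor
  · rintro ⟨a, ha, rfl⟩
    simpa [← wa_mul] using ha
  · intro h
    exact ⟨_, h, by simp [← wa_mul]⟩

lemma Valid.map {m d : ℕ} {T : Multiset (List ℕ)} (h : Valid m d T) (u : Perm (Fin m)) :
    Valid m d (T.map (List.map (wa u))) := by
  refine ⟨fun c hc => ?_, fun j hj => ?_⟩
  · obtain ⟨c', hc', rfl⟩ := Multiset.mem_map.1 hc
    refine ⟨(h.1 c' hc').1.map (wa_inj u), fun j hj => ?_⟩
    obtain ⟨a, ha, rfl⟩ := List.mem_map.1 hj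
    exact wa_lt u ((h.1 c' hc').2 a ha)
  · rw [Multiset.countP_map, ← h.2 _ (wa_lt u⁻¹ hj), Multiset.countP_eq_card_filter]
    congr 1
    exact Multiset.filter_congr fun c _ => mem_map_wa u c j

lemma NZ.add {m : ℕ} {T U : Multiset (List ℕ)} (h : NZ m T) (h' : NZ m U) :
    ∃ u : Perm (Fin m), NZ m (T + U.map (List.map (wa u))) := by
  have := mul_ne_zero h h'
  rw [Psi_mul] at this
  obtain ⟨u, _, hu⟩ := Finset.exists_ne_zero_of_sum_ne_zero this
  exact ⟨u, hu⟩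

lemma D_vandermonde_ne (c : List ℕ) (hc : c.Nodup) :
    D (fun r j => ((j : ℤ)) ^ r) c ≠ 0 := by
  unfold D Dn
  have : (Matrix.of fun i j : Fin c.length => ((c.getD j 0 : ℕ) : ℤ) ^ (i : ℕ)) =
      (Matrix.vandermonde fun j : Fin c.length => ((c.getD j 0 : ℕ) : ℤ))ᵀ := by
    ext i j; simp [Matrix.vandermonde]
  rw [this, det_transpose, Matrix.det_vandermonde_ne_zero_iff]
  intro a b hab
  have hab' : c.getD a 0 = c.getD b 0 := Nat.cast_injective (R := ℤ) hab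
  rw [List.getD_eq_getElem _ _ a.2, List.getD_eq_getElem _ _ b.2] at hab'
  exact Fin.ext ((List.Nodup.getElem_inj_iff hc).1 hab')

/-- doubling a filling always gives a nonzero symmetrisation (Weintraub's trick) -/
lemma NZ_double (m : ℕ) (T : Multiset (List ℕ)) (h : ∀ c ∈ T, c.Nodup) : NZ m (T + T) := by
  refine NZ_of (fun r j => ((j : ℤ)) ^ r) (ne_of_gt ?_)
  unfold Psi
  refine Finset.sum_pos' (fun w _ => ?_) ⟨1, Finset.mem_univ _, ?_⟩
  · rw [E_add]; exact mul_self_nonneg _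
  · rw [E_add]
    refine mul_self_pos.2 ?_
    simp only [wa_one]
    unfold E
    refine Multiset.prod_ne_zero fun h0 => ?_
    obtain ⟨c, hc, h0⟩ := Multiset.mem_map.1 h0
    exact D_vandermonde_ne c (h c hc) h0

lemma NZ_nil (m : ℕ) : NZ m {[]} := by
  refine NZ_of (fun _ _ => (0 : ℤ)) ?_
  have : ∀ Z : ℕ → ℕ → ℤ, E Z {[]} = 1 := fun Z => by simp [E, D, Dn]
  simp [Psi, this]

end MP7ebc2a
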