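import Mathlib

/-! Definitions used in the statement: polynomial representations of `GL_m(ℂ)`, highest weights,
and the diagonal torus of `SL_m(ℂ)`. -/

namespace MP7ebc2a

variable {m : ℕ} {V : Type*} [AddCommGroup V] [Module ℂ V]

/-- every matrix coefficient of `ρ` is a polynomial in the entries of `g` -/
def IsPolynomialRep (ρ : Representation ℂ (GL (Fin m) ℂ) V) : Prop :=
  ∀ (φ : Module.Dual ℂ V) (v : V), ∃ P : MvPolynomial (Fin m × Fin m) ℂ,
    ∀ g : GL (Fin m) ℂ, φ (ρ g v) = MvPolynomial.eval (fun p => g.val p.1 p.2) P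

/-- `ρ` has a highest weight vector of weight `lam`: a nonzero vector on which every invertible
upper triangular matrix `b` acts by the scalar `∏ b_ii ^ lam_i` -/
def HasHighestWeight (ρ : Representation ℂ (GL (Fin m) ℂ) V) (lam : Fin m → ℕ) : Prop :=
  ∃ v : V, v ≠ 0 ∧ ∀ b : GL (Fin m) ℂ, (∀ i j, j < i → b.val i j = 0) →
    ρ b v = (∏ i, b.val i i ^ lam i) • v

/-- the maximal torus `T` of diagonal matrices of determinant one -/
def torus (m : ℕ) : Set (Matrix.SpecialLinearGroup (Fin m) ℂ) := {t | t.val.IsDiag}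

end MP7ebc2a
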