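import Pool.Agent.Lib.MP_7ebc2a_al.Grp

/-! Assembling the seven eliminated letters and the blocks. -/

namespace MP7ebc2a
open Multiset

lemma attach_eq {α β γ : Type*} (f : α → γ) (g : β → γ) (P : Multiset β) (T : Multiset α)
    (h : T.map f = P.map g) :
    ∃ U : Multiset (α × β), U.map Prod.fst = T ∧ U.map Prod.snd = P ∧ ∀ u ∈ U, f u.1 = g u.2 := by
  classical
  induction P using Multiset.induction_on generalizing T with
  | empty => exact ⟨0, by simpa [eq_comm] using h, by simp, by simp⟩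
  | cons p P ih =>
    rw [map_cons] at h
    obtain ⟨a, ha, h1, h2⟩ := (map_eq_cons f T _ _).2 h
    obtain ⟨U, e1, e2, e3⟩ := ih _ h2
    exact ⟨(a, p) ::ₘ U, by simp [e1, cons_erase ha], by simp [e2], by
      simpa [h1] using fun a b => e3 (a, b)⟩

lemma attach_card {α β : Type*} (P : Multiset β) (T : Multiset α) (h : card T = card P) :
    ∃ U : Multiset (α × β), U.map Prod.fst = T ∧ U.map Prod.snd = P := by
  obtain ⟨U, h1, h2, -⟩ := attach_eq (fun _ => ()) (fun _ => ()) P T
    (by rw [map_const', map_const', h])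
  exact ⟨U, h1, h2⟩

lemma choose_le (f : ℕ → ℕ) (S : Multiset ℕ) (M : ℕ) (h : M ≤ (S.map f).sum) :
    ∃ Q : Multiset (ℕ × ℕ), Q.map Prod.fst = S ∧ (∀ q ∈ Q, q.2 ≤ f q.1) ∧
      (Q.map Prod.snd).sum = M := by
  induction S using Multiset.induction_on generalizing M with
  | empty => exact ⟨0, by simp, by simp, by simpa [eq_comm] using h⟩
  | cons x S ih =>
    rw [map_cons, sum_cons] at h
    obtain ⟨Q, e1, e2, e3⟩ := ih (M - f x) (by omega)
    refine ⟨(x, min M (f x)) ::ₘ Q, by simp [e1], fun q hq => ?_, by simp [e3]; omega⟩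
    rcases mem_cons.1 hq with rfl | hq
    exacts [min_le_right _ _, e2 q hq]

lemma cyc7 (Q : Multiset (ℕ × ℕ)) (h : ∀ q ∈ Q, q.2 ≤ 7) (S : ℕ) :
    ∃ P : Multiset (ℕ × Col), P.map (fun p => (p.1, len 7 p.2)) = Q ∧
      ∀ i < 7, P.countP (fun p => p.2 i = true) + cn 7 S i = cn 7 (S + (Q.map Prod.snd).sum) i := by
  induction Q using Multiset.induction_on generalizing S with
  | empty => exact ⟨0, by simp, by simp⟩
  | cons q Q ih =>
    obtain ⟨P, e1, e2⟩ := ih (fun x hx => h x (mem_cons_of_mem hx)) (S + q.2)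
    have h7 := h q (mem_cons_self _ _)
    have key : ∀ i < 7, (if decide (cn 7 S i < cn 7 (S + q.2) i) = true then 1 else 0) + cn 7 S i =
        cn 7 (S + q.2) i := fun i hi => by
      simp only [cn, decide_eq_true_eq]
      split_ifs <;> omega
    refine ⟨(q.1, fun i => decide (cn 7 S i < cn 7 (S + q.2) i)) ::ₘ P, ?_, fun i hi => ?_⟩
    · have := Finset.sum_congr rfl fun i hi => key i (Finset.mem_range.1 hi)
      rw [Finset.sum_add_distrib, cn_sum (by norm_num), cn_sum (by norm_num), ← len_eq_sum] at this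
      rw [map_cons, e1]
      dsimp only
      rw [show len 7 _ = q.2 by omega]
    · have := e2 i hi
      have := key i hi
      rw [countP_cons, map_cons, sum_cons, ← add_assoc S]
      dsimp only
      omega

lemma sum_sub {α : Type*} (f g : α → ℕ) (P : Multiset α) (h : ∀ p ∈ P, g p ≤ f p) :
    (P.map fun p => f p - g p).sum + (P.map g).sum = (P.map f).sum := by
  rw [← sum_map_add]
  exact congrArg _ (map_congr rfl fun p hp => Nat.sub_add_cancel (h p hp))

lemma reserve {m lo : ℕ} (hm : 2000 ≤ m) (l1 : 45 * m ≤ 100 * lo + 800) (Lf Rs : Multiset ℕ)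
    (h0 : ∀ c ∈ Lf, c ≤ m - 7)
    (h1 : ∀ x ∈ Rs, lo + 7 ≤ x ∧ 100 * x ≤ 100 * lo + m + 800 ∧ 100 * x ≤ 55 * m + 100)
    (h2 : 7 * card Lf ≤ card Rs) (h3 : 8 ∣ card Lf + card Rs) (h4 : 4 ∣ Lf.sum + Rs.sum) :
    ∃ Q : Multiset (ℕ × ℕ), Q.map Prod.fst = Rs ∧ (∀ q ∈ Q, q.2 ≤ 7) ∧
      (Q.map Prod.snd).sum = 4 * card Rs ∧ FE (m - 7) (Lf + Q.map fun q => q.1 - q.2) := by
  obtain ⟨u, hu⟩ : ∃ u, card Rs = 7 * card Lf + 8 * u := ⟨(card Rs - 7 * card Lf) / 8, by omega⟩
  obtain ⟨U, e1, e2⟩ := attach_card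
    ((Lf.bind fun c => replicate 7 (c % 4)) + replicate (8 * u) 0) Rs (by simp [hu]; omega)
  have b1 : ∀ p ∈ U, p.2 < 4 := fun p hp => by
    have := mem_map_of_mem Prod.snd hp
    rw [e2, mem_add, mem_bind] at this
    rcases this with ⟨c, _, h⟩ | h <;> have := eq_of_mem_replicate h <;> omega
  have b2 : ∀ p ∈ U, _ := fun p hp => h1 p.1 (e1 ▸ mem_map_of_mem Prod.fst hp)
  have b3 : ∀ U : Multiset (ℕ × ℕ), (∀ p ∈ U, p.2 < 4) →
      (U.map fun p => (p.1 + 4 - p.2) % 4).sum ≤ 3 * card U ∧
      ((U.map fun p => (p.1 + 4 - p.2) % 4).sum + (U.map Prod.snd).sum) % 4 =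
        (U.map Prod.fst).sum % 4 := by
    intro U hU
    induction U using Multiset.induction_on with
    | empty => simp
    | cons p U ih =>
      have := ih fun x hx => hU x (mem_cons_of_mem hx)
      have := hU p (mem_cons_self _ _)
      simp only [map_cons, sum_cons, card_cons]
      omega
  have b4 : (Lf.bind fun c => replicate 7 (c % 4)).sum % 4 = 3 * Lf.sum % 4 := by
    clear * -
    induction Lf using Multiset.induction_on with
    | empty => simp
    | cons c Lf ih =>
      simp only [cons_bind, sum_add, sum_replicate, smul_eq_mul, sum_cons]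
      omega
  obtain ⟨b5, b6⟩ := b3 U b1
  have hc : card U = card Rs := by rw [← e1, card_map]
  rw [e1, e2, sum_add, sum_replicate, smul_zero, add_zero] at b6
  obtain ⟨U1, U2, rfl, c1, -⟩ := split_card
    ((4 * card Rs - (U.map fun p => (p.1 + 4 - p.2) % 4).sum) / 4)
    (card U - (4 * card Rs - (U.map fun p => (p.1 + 4 - p.2) % 4).sum) / 4) U (by omega)
  refine ⟨U1.map (fun p => (p.1, (p.1 + 4 - p.2) % 4 + 4)) +
    U2.map fun p => (p.1, (p.1 + 4 - p.2) % 4), ?_, fun q hq => ?_, ?_, ?_⟩
  · rw [← e1]; simp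
  · rcases mem_add.1 hq with h | h <;> obtain ⟨p, _, rfl⟩ := mem_map.1 h <;> simp only <;> omega
  · simp only [Multiset.map_add, Multiset.map_map, Function.comp_def, sum_add, sum_map_add,
      map_const', sum_replicate, smul_eq_mul] at b5 b6 c1 ⊢
    omega
  · refine absorb hm l1 u _ _ h0 (fun x hx => ?_) ?_
    · obtain ⟨q, hq, rfl⟩ := mem_map.1 hx
      rcases mem_add.1 hq with h | h <;> obtain ⟨p, hp, rfl⟩ := mem_map.1 h
      · have := b2 p (mem_add.2 (Or.inl hp)); simp only; omega
      · have := b2 p (mem_add.2 (Or.inr hp)); simp only; omega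
    · rw [← e2]
      simp only [Multiset.map_add, Multiset.map_map, Function.comp_def]
      congr 1 <;> refine map_congr rfl fun p hp => ?_
      · have := b2 p (mem_add.2 (Or.inl hp)); have := b1 p (mem_add.2 (Or.inl hp)); omega
      · have := b2 p (mem_add.2 (Or.inr hp)); have := b1 p (mem_add.2 (Or.inr hp)); omega

lemma sum_len (k : ℕ) {α : Type*} (b : α → Col) (P : Multiset α) :
    (P.map fun p => len k (b p)).sum = ∑ i ∈ Finset.range k, P.countP fun p => b p i = true := by
  induction P using Multiset.induction_on with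
  | empty => simp
  | cons p P ih =>
    rw [map_cons, sum_cons, ih, len_eq_sum, add_comm]
    simp only [countP_cons, Finset.sum_add_distrib]

lemma len_add_le (a k : ℕ) (b : Col) : len a b ≤ len (a + k) b ∧ len (a + k) b ≤ len a b + k ∧
    ((∀ i < a + k, b i = true) → len (a + k) b = len a b + k) := by
  induction k with
  | zero => simp
  | succ k ih =>
    rw [← add_assoc, len]
    refine ⟨by omega, by split_ifs <;> omega, fun h => ?_⟩
    rw [ih.2.2 fun i hi => h i (by omega), if_pos (h _ (by omega)), add_assoc]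

def join (n : ℕ) (c b : Col) : Col := fun j => if j < n then c j else b (j - n)

lemma len_join (n i : ℕ) (c b : Col) : len (n + i) (join n c b) = len n c + len i b := by
  induction i with
  | zero => exact len_congr fun j hj => by simp [join, show j < n from hj]
  | succ i ih => rw [← add_assoc, len, len, ih, add_assoc]; simp [join]

theorem assemble {n q τ : ℕ} (hn : 0 < n) (P1 P2 : Multiset (ℕ × Col))
    (hle : ∀ p ∈ P1 + P2, len 7 p.2 ≤ p.1)
    (f1 : FE n (P1.map fun p => p.1 - len 7 p.2)) (f2 : FE n (P2.map fun p => p.1 - len 7 p.2))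
    (hs : ((P1 + P2).map Prod.fst).sum = (n + 7) * (4 * q))
    (hd : ∀ i < 7, (P1 + P2).countP (fun p => p.2 i = true) = 4 * q)
    (hc : ∀ p ∈ P1 + P2, τ ≤ p.1 ∨ (∀ i < 7, p.2 i = true) ∨ p.1 + 7 ≤ τ)
    (he : ∀ i < 7, (P1 + P2).countP (fun p => τ ≤ p.1 ∧ ¬ p.2 i = true) = 6 - i)
    (hk : ∀ p ∈ P1, τ ≤ p.1 ∧ 100 * (p.1 - len 7 p.2) ≤ 99 * n) (hk' : 1100 ≤ card P1) :
    ∃ T : Multiset Col, T.map (len (n + 7)) = (P1 + P2).map Prod.fst ∧ Des n 7 (4 * q) T := by
  obtain ⟨σ1, s1, -, f1⟩ := f1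
  obtain ⟨σ2, s2, -, f2⟩ := f2
  obtain ⟨T1, a1, a2, a3⟩ := f1 0
  obtain ⟨T2, b1, b2, b3⟩ := f2 σ1
  have hσ : σ1 + σ2 = n * q := by
    have e1 := sum_sub Prod.fst (fun p => len 7 p.2) _ hle
    rw [hs, sum_len, Finset.sum_congr rfl fun i hi => hd i (Finset.mem_range.1 hi),
      Multiset.map_add, sum_add, s1, s2] at e1
    simp only [Finset.sum_const, Finset.card_range, smul_eq_mul] at e1
    nlinarith
  have hσ1 : 4 * (σ1 / n + 1) + 7 ≤ card P1 := by
    have e1 : ((P1.map fun p => p.1 - len 7 p.2).map (100 * ·)).sum ≤ _ :=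
      sum_le_card_nsmul _ (99 * n) fun x hx => by
        rw [Multiset.map_map] at hx
        obtain ⟨p, hp, rfl⟩ := mem_map.1 hx
        exact (hk p hp).2
    rw [sum_map_mul_left, map_id', s1, card_map, card_map, smul_eq_mul] at e1
    have e2 := Nat.div_mul_le_self σ1 n
    have : 400 * (σ1 / n) ≤ 99 * card P1 := Nat.le_of_mul_le_mul_right (by nlinarith) hn
    omega
  obtain ⟨U1, rfl, rfl, u1⟩ := attach_eq _ _ _ _ a1
  obtain ⟨U2, rfl, rfl, u2⟩ := attach_eq _ _ _ _ b1
  have cm : ∀ {α β : Type} (f : α → β) (U : Multiset α) (p : β → Prop) [DecidablePred p],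
      (U.map f).countP p = U.countP fun u => p (f u) := fun f U p _ => by
    rw [countP_map, countP_eq_card_filter]
  rw [← Multiset.map_add] at hle hs hd hc he ⊢
  have hu : ∀ u ∈ U1 + U2, len n u.1 + len 7 u.2.2 = u.2.1 := fun u h => by
    have := hle _ (mem_map_of_mem _ h)
    rcases mem_add.1 h with h | h
    · have := u1 u h; omega
    · have := u2 u h; omega
  have j1 : ∀ j < n, ∀ c b, join n c b j = c j := fun j hj c b => if_pos hj
  have j2 : ∀ i c b, join n c b (n + i) = b i := fun i c b => by simp [join]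
  simp only [cm, card_map] at hd he a2 a3 b2 b3 hσ1
  refine ⟨(U1 + U2).map fun u => join n u.1 u.2.2, ?_, fun j hj => ?_, fun a ha b hb => ?_,
    fun k k1 k2 => ?_⟩
  · rw [Multiset.map_map, Multiset.map_map]
    exact map_congr rfl fun u h => (len_join _ _ _ _).trans (hu u h)
  · rw [cm]
    rcases lt_or_ge j n with h | h
    · have := a3 j h
      have := b3 j h
      rw [hσ, cn_mul hn] at this
      have e0 : cn n 0 j = 0 := by simp [cn]
      simp only [j1 j h, countP_add]
      simp only [zero_add] at *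
      omega
    · obtain ⟨i, rfl⟩ := Nat.exists_eq_add_of_le h
      simp only [j2]
      exact hd i (by omega)
  · simp only [cm, j1 a ha, j1 b (hb.trans ha), countP_add]
    exact (a2 a b).add (b2 a b)
  · obtain ⟨i, rfl⟩ := Nat.exists_eq_add_of_le k1
    refine ⟨τ - (6 - i), fun j hj => ?_⟩
    have key : ∀ j, (U1 + U2).countP (fun u => τ - (6 - i) ≤ len (n + i + 1) (join n u.1 u.2.2) ∧
        join n u.1 u.2.2 j = true) + (U1 + U2).countP (fun u => τ ≤ u.2.1 ∧
        ¬ join n u.1 u.2.2 j = true) = (U1 + U2).countP fun u => τ ≤ u.2.1 := by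
      intro j
      have := countP_lin (U1 + U2) (fun u => τ - (6 - i) ≤ len (n + i + 1) (join n u.1 u.2.2) ∧
        join n u.1 u.2.2 j = true) (fun u => τ ≤ u.2.1 ∧ ¬ join n u.1 u.2.2 j = true)
        (fun u => τ ≤ u.2.1) (fun _ => False) fun u h => by
          have e1 := hu u h
          have e2 := len_add_le (i + 1) (6 - i) u.2.2
          rw [show i + 1 + (6 - i) = 7 by omega] at e2
          have e3 : τ - (6 - i) ≤ len n u.1 + len (i + 1) u.2.2 ↔ τ ≤ u.2.1 := by
            rcases hc _ (mem_map_of_mem _ h) with h' | h' | h'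
            · omega
            · have := e2.2.2 h'; omega
            · omega
          rw [add_assoc, len_join]
          simp only [e3]
          by_cases τ ≤ u.2.1 <;> cases join n u.1 u.2.2 j <;> simp [*]
      simpa using this
    have k1 := key j
    have k2 := key (n + i)
    have k3 := he i (by omega)
    simp only [j2] at k2
    simp only [cm, j2]
    rcases lt_or_ge j n with h | h
    · have e1 := countP_lin U1 (fun u => τ ≤ u.2.1 ∧ ¬ u.1 j = true) (fun u => u.1 j = true)
        (fun _ => True) (fun _ => False) fun u hu => by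
          have := (hk _ (mem_map_of_mem _ hu)).1
          cases u.1 j <;> simp [this]
      have e2 := a3 j h
      simp only [j1 j h] at k1 ⊢
      rw [countP_add (fun u : Col × ℕ × Col => τ ≤ u.2.1 ∧ ¬ u.1 j = true)] at k1
      simp only [countP_True, countP_False, cn, zero_add] at e1 e2
      split_ifs at e2 <;> omega
    · obtain ⟨i', rfl⟩ := Nat.exists_eq_add_of_le h
      have := he i' (by omega)
      simp only [j2] at k1 ⊢
      omega

end MP7ebc2a
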