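import Pool.Agent.Lib.MP_7ebc2a_al.Step

/-! Fillings with even intersections, and letters eliminated by a threshold. -/

namespace MP7ebc2a
open Equiv Matrix Multiset

abbrev Col := ℕ → Bool

def len : ℕ → Col → ℕ
  | 0, _ => 0
  | n + 1, c => len n c + if c n = true then 1 else 0

def L : ℕ → Col → List ℕ
  | 0, _ => []
  | n + 1, c => ext (c n, L n c)

lemma length_L (n : ℕ) (c : Col) : (L n c).length = len n c := by
  induction n with
  | zero => rfl
  | succ n ih => rw [L, length_ext, ih, len]

lemma nodup_L (n : ℕ) (c : Col) : (L n c).Nodup := by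
  cases n with
  | zero => exact List.nodup_nil
  | succ n => exact ext_nodup (nodup_L n c)

lemma mem_L (n : ℕ) (c : Col) (j : ℕ) : j ∈ L n c ↔ j < n ∧ c (n - 1 - j) = true := by
  induction n generalizing j with
  | zero => simp [L]
  | succ n ih =>
    cases j with
    | zero => simp [L, zero_mem_ext]
    | succ j =>
      rw [L, succ_mem_ext, ih, show n + 1 - 1 - (j + 1) = n - 1 - j by omega]
      simp

lemma len_le (n : ℕ) (c : Col) : len n c ≤ n := by
  induction n with
  | zero => rfl
  | succ n ih => rw [len]; split_ifs <;> omega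

lemma len_not (n : ℕ) (c : Col) : len n (fun j => !c j) = n - len n c := by
  induction n with
  | zero => rfl
  | succ n ih =>
    have := len_le n c
    rw [len, len, ih]
    cases c n <;> simp
    omega

lemma len_eq_sum (n : ℕ) (c : Col) :
    len n c = ∑ j ∈ Finset.range n, if c j = true then 1 else 0 := by
  induction n with
  | zero => rfl
  | succ n ih => rw [len, ih, Finset.sum_range_succ]

lemma len_congr {n : ℕ} {c c' : Col} (h : ∀ j < n, c j = c' j) : len n c = len n c' := by
  rw [len_eq_sum, len_eq_sum]
  exact Finset.sum_congr rfl fun j hj => by rw [h j (Finset.mem_range.1 hj)]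

lemma vd_eq (y : ℕ → ℤ) (l : List ℕ) : D (fun r j => y j ^ r) l =
    ∏ i ∈ Finset.range l.length, ∏ k ∈ Finset.range i, (y (l.getD i 0) - y (l.getD k 0)) := by
  unfold D Dn
  have : (Matrix.of fun i j : Fin l.length => y (l.getD j 0) ^ (i : ℕ)) =
      (Matrix.vandermonde fun j : Fin l.length => y (l.getD j 0))ᵀ := by
    ext i j; simp [Matrix.vandermonde]
  rw [this, det_transpose, det_vandermonde, Finset.prod_comm' (t' := Finset.univ)
    (s' := fun j => Finset.Iio j) (by simp), ← Fin.prod_univ_eq_prod_range
      (fun i => ∏ k ∈ Finset.range i, (y (l.getD i 0) - y (l.getD k 0)))]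
  refine Finset.prod_congr rfl fun i _ => ?_
  refine Finset.prod_bij (fun k _ => (k : ℕ)) (fun k hk => by simpa using hk)
    (fun _ _ _ _ h => Fin.ext h) (fun k hk => ?_) fun _ _ => rfl
  have := Finset.mem_range.1 hk
  exact ⟨⟨k, this.trans i.2⟩, by simpa [Fin.lt_def] using this, rfl⟩

lemma vd_snoc (y : ℕ → ℤ) (l : List ℕ) (a : ℕ) : D (fun r j => y j ^ r) (l ++ [a]) =
    D (fun r j => y j ^ r) l * (l.map fun x => y a - y x).prod := by
  rw [vd_eq, vd_eq, List.length_append, List.length_singleton, Finset.prod_range_succ]
  congr 1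
  · refine Finset.prod_congr rfl fun i hi => Finset.prod_congr rfl fun k hk => ?_
    have := Finset.mem_range.1 hi
    have := Finset.mem_range.1 hk
    rw [List.getD_append _ _ _ _ (by omega), List.getD_append _ _ _ _ (by omega)]
  · rw [← Fin.prod_univ_eq_prod_range (fun k => y ((l ++ [a]).getD l.length 0) -
      y ((l ++ [a]).getD k 0)), ← Fin.prod_univ_fun_getElem l fun x => y a - y x]
    refine Finset.prod_congr rfl fun k _ => ?_
    simp

lemma prod_L (n : ℕ) (c : Col) (f : ℕ → ℤ) : ((L n c).map fun x => f (n - 1 - x)).prod =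
    ∏ t ∈ Finset.range n, if c t = true then f t else 1 := by
  induction n with
  | zero => simp [L]
  | succ n ih =>
    have : ((fun x => f (n + 1 - 1 - x)) ∘ fun x => x + 1) = fun x => f (n - 1 - x) :=
      funext fun x => congrArg f (show n + 1 - 1 - (x + 1) = _ by omega)
    rw [Finset.prod_range_succ, ← ih, L, ext]
    cases c n
    · simp only [Bool.false_eq_true, if_false, List.map_map, this, mul_one]
    · simp only [if_true, List.map_append, List.map_map, this, List.prod_append]
      simp

lemma vd_L (n : ℕ) (c : Col) (Y : ℕ → ℤ) : D (fun r j => Y (n - 1 - j) ^ r) (L n c) =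
    ∏ s ∈ Finset.range n, ∏ t ∈ Finset.range s,
      (Y s - Y t) ^ if c s = true ∧ c t = true then 1 else 0 := by
  induction n with
  | zero => simp [L, D, Dn]
  | succ n ih =>
    have e : (fun r j => Y (n + 1 - 1 - (j + 1)) ^ r) = fun (r : ℕ) j => Y (n - 1 - j) ^ r :=
      funext fun r => funext fun x => congrArg (Y · ^ r) (by omega)
    rw [Finset.prod_range_succ, ← ih, L, ext]
    cases c n
    · simp only [Bool.false_eq_true, if_false, D_map, e]
      simp
    · simp only [if_true]
      rw [vd_snoc (fun j => Y (n + 1 - 1 - j)), D_map, e, List.map_map]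
      congr 1
      have := prod_L n c fun t => Y n - Y t
      rw [show ((fun x => Y (n + 1 - 1 - 0) - Y (n + 1 - 1 - x)) ∘ fun x => x + 1) =
        fun x => Y n - Y (n - 1 - x) from funext fun x =>
          congrArg (Y n - Y ·) (show n + 1 - 1 - (x + 1) = _ by omega), this]
      exact Finset.prod_congr rfl fun t _ => by cases c t <;> simp

theorem NZ_even (n : ℕ) (T : Multiset Col)
    (h : ∀ a < n, ∀ b < a, Even (T.countP fun c => c a = true ∧ c b = true)) :
    NZ n (T.map (L n)) := by
  refine NZ_of (fun r j => ((j : ℤ)) ^ r) (ne_of_gt ?_)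
  refine Finset.sum_pos (fun w _ => ?_) Finset.univ_nonempty
  let Y : ℕ → ℤ := fun s => wa w (n - 1 - s)
  have : ∀ T : Multiset Col, E (fun r j => ((wa w j : ℕ) : ℤ) ^ r) (T.map (L n)) =
      ∏ s ∈ Finset.range n, ∏ t ∈ Finset.range s,
        (Y s - Y t) ^ T.countP fun c => c s = true ∧ c t = true := by
    intro T
    induction T using Multiset.induction_on with
    | empty => simp
    | cons c T ih =>
      rw [map_cons, E_cons, ih, D_congr (Z' := fun r j => Y (n - 1 - j) ^ r) fun i _ j hj => by
        have := ((mem_L n c j).1 hj).1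
        simp only [Y, show n - 1 - (n - 1 - j) = j by omega], vd_L]
      simp only [countP_cons, pow_add, Finset.prod_mul_distrib]
      exact mul_comm _ _
  rw [this]
  refine Finset.prod_pos fun s hs => Finset.prod_pos fun t ht => ?_
  have hs := Finset.mem_range.1 hs
  have ht := Finset.mem_range.1 ht
  refine (h s hs t ht).pow_pos (sub_ne_zero.2 fun e => ?_)
  have := wa_inj w (Nat.cast_injective (R := ℤ) e)
  omega

theorem step_thr {n θ : ℕ} (T : Multiset Col)
    (h : ∀ j < n, T.countP (fun c => θ ≤ len (n + 1) c ∧ c j = true) <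
      T.countP fun c => θ ≤ len (n + 1) c ∧ c n = true)
    (h0 : NZ n (T.map (L n))) : NZ (n + 1) (T.map (L (n + 1))) := by
  obtain ⟨K, hK⟩ : ∃ K, K = card T * n + 1 := ⟨_, rfl⟩
  let wt : ℕ → ℕ := fun r => (if θ ≤ r + 1 then K else 0) + r
  have hw : StrictMono wt := fun a b hab => by simp only [wt]; split_ifs <;> omega
  have key : ∀ j ≤ n, ∀ T : Multiset Col,
      K * T.countP (fun c => θ ≤ len (n + 1) c ∧ c (n - j) = true) ≤
        cost wt (T.map (L (n + 1))) j ∧ cost wt (T.map (L (n + 1))) j ≤
      K * T.countP (fun c => θ ≤ len (n + 1) c ∧ c (n - j) = true) + card T * n := by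
    intro j hj T
    induction T using Multiset.induction_on with
    | empty => simp [cost]
    | cons c T ih =>
      have e : cost wt ((c ::ₘ T).map (L (n + 1))) j =
          cst wt j (L (n + 1) c) + cost wt (T.map (L (n + 1))) j := by simp [cost]
      have := len_le (n + 1) c
      rw [e, countP_cons, card_cons, mul_add, add_mul, cst, length_L]
      by_cases hm : j ∈ L (n + 1) c
      · have h1 : 0 < len (n + 1) c := length_L (n + 1) c ▸ List.length_pos_of_mem hm
        have h2 : c (n - j) = true := ((mem_L _ _ _).1 hm).2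
        have h3 : wt (len (n + 1) c - 1) = (if θ ≤ len (n + 1) c then K else 0) +
          (len (n + 1) c - 1) := by simp only [wt, Nat.sub_add_cancel h1]
        simp only [hm, if_true, h2, and_true, h3]
        split_ifs <;> omega
      · have h2 : ¬ c (n - j) = true := fun e => hm ((mem_L _ _ _).2 ⟨by omega, e⟩)
        rw [if_neg hm, if_neg fun h' => h2 h'.2]
        omega
  have e : (T.map fun c => (c n, L n c)).map ext = T.map (L (n + 1)) := by rw [Multiset.map_map]; rfl
  rw [← e]
  refine NZ_step hw _ (fun p hp => ?_) (fun j hj => ?_) (by rw [Multiset.map_map]; exact h0)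
  · obtain ⟨c, _, rfl⟩ := mem_map.1 hp
    exact nodup_L _ _
  · rw [e]
    have h1 := (key (j + 1) hj T).2
    have h2 := (key 0 (Nat.zero_le _) T).1
    have h3 := Nat.mul_le_mul_left K (h (n - (j + 1)) (by omega))
    rw [Nat.mul_succ] at h3
    simp only [Nat.sub_zero] at h2
    omega

/-- regular families: the first `m` letters meet evenly, the next `k` are eliminated -/
def Des (m k d : ℕ) (T : Multiset Col) : Prop :=
  (∀ j < m + k, T.countP (fun c => c j = true) = d) ∧
  (∀ a < m, ∀ b < a, Even (T.countP fun c => c a = true ∧ c b = true)) ∧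
  ∀ n, m ≤ n → n < m + k → ∃ θ, ∀ j < n, T.countP (fun c => θ ≤ len (n + 1) c ∧ c j = true) <
    T.countP fun c => θ ≤ len (n + 1) c ∧ c n = true

theorem Des.good {m k d : ℕ} {T : Multiset Col} (h : Des m k d T) :
    Good (m + k) d (T.map (len (m + k))) := by
  refine ⟨T.map (L (m + k)), ⟨fun c hc => ?_, fun j hj => ?_⟩, ?_, ?_⟩
  · obtain ⟨c, _, rfl⟩ := mem_map.1 hc
    exact ⟨nodup_L _ _, fun j hj => ((mem_L _ _ _).1 hj).1⟩
  · rw [countP_map, ← h.1 (m + k - 1 - j) (by omega), countP_eq_card_filter]
    congr 1
    exact filter_congr fun c _ => by simp [mem_L, hj]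
  · rw [Multiset.map_map]
    exact map_congr rfl fun c _ => length_L _ _
  · have : ∀ i ≤ k, NZ (m + i) (T.map (L (m + i))) := by
      intro i hi
      induction i with
      | zero => exact NZ_even m T h.2.1
      | succ i ih =>
        obtain ⟨θ, hθ⟩ := h.2.2 (m + i) (by omega) (by omega)
        exact step_thr T hθ (ih (by omega))
    exact this k le_rfl

lemma countP_lin {α : Type*} (T : Multiset α) (p q r s : α → Prop) [DecidablePred p]
    [DecidablePred q] [DecidablePred r] [DecidablePred s]
    (h : ∀ c ∈ T, ((if p c then 1 else 0) + if q c then 1 else 0) =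
      (if r c then 1 else 0) + if s c then 1 else 0) :
    T.countP p + T.countP q = T.countP r + T.countP s := by
  induction T using Multiset.induction_on with
  | empty => simp
  | cons c T ih =>
    have := h c (mem_cons_self _ _)
    have := ih fun c' h' => h c' (mem_cons_of_mem h')
    simp only [countP_cons]
    omega

theorem Des.compl {m k d : ℕ} {T : Multiset Col} (h : Des m k d T) (he : Even (card T)) :
    Des m k (card T - d) (T.map fun c j => !c j) := by
  have cm : ∀ (p : Col → Prop) [DecidablePred p], (T.map fun c j => !c j).countP p =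
      T.countP fun c => p fun j => !c j := fun p _ => by rw [countP_map, countP_eq_card_filter]
  have h1 : ∀ j < m + k, T.countP (fun c => (!c j) = true) + d = card T := by
    intro j hj
    have := countP_lin T (fun c => (!c j) = true) (fun c => c j = true) (fun _ => True)
      (fun _ => False) fun c _ => by cases c j <;> simp
    simpa [h.1 j hj] using this
  refine ⟨fun j hj => ?_, fun a ha b hb => ?_, fun n h2 h3 => ?_⟩
  · have := h1 j hj
    rw [cm]; beta_reduce; omega
  · rw [cm]
    beta_reduce
    have e1 := countP_lin T (fun c => (!c a) = true ∧ (!c b) = true) (fun c => c b = true)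
      (fun c => (!c a) = true) (fun c => c a = true ∧ c b = true) fun c _ => by
        cases c a <;> cases c b <;> simp
    have e2 := h1 a (by omega)
    obtain ⟨u, hu⟩ := h.2.1 a ha b hb
    obtain ⟨v, hv⟩ := he
    rw [h.1 b (by omega)] at e1
    exact ⟨u + v - d, by omega⟩
  · obtain ⟨θ, hθ⟩ := h.2.2 n h2 h3
    refine ⟨n + 2 - θ, fun j hj => ?_⟩
    have key : ∀ j < m + k,
        T.countP (fun c => n + 2 - θ ≤ len (n + 1) (fun j => !c j) ∧ (!c j) = true) + d =
        T.countP (fun c => len (n + 1) c < θ) +
          T.countP fun c => θ ≤ len (n + 1) c ∧ c j = true := by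
      intro j hj
      rw [← h.1 j hj]
      refine countP_lin T _ _ _ _ fun c _ => ?_
      have := len_le (n + 1) c
      rw [len_not]
      cases c j <;> simp only [Bool.not_false, Bool.not_true, and_true, Bool.false_eq_true,
        and_false, if_false, if_true] <;> split_ifs <;> omega
    have := key j (by omega)
    have := key n h3
    have := hθ j hj
    rw [cm, cm]
    beta_reduce
    omega

end MP7ebc2a
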