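import Pool.Agent.Lib.MP_7ebc2a_al.Ind

/-! Reduction of the statements for a fixed number of letters to finitely many shapes. -/

namespace MP7ebc2a
open Multiset

lemma Valid.sum {m d : ℕ} {T : Multiset (List ℕ)} (h : Valid m d T) :
    (T.map List.length).sum = m * d := by
  have : (T.map List.length).sum = ∑ j ∈ Finset.range m, T.countP (j ∈ ·) := by
    have h1 := h.1
    clear h
    induction T using Multiset.induction_on with
    | empty => simp
    | cons c T ih =>
      have hc := h1 c (mem_cons_self _ _)
      rw [map_cons, sum_cons, ih fun c' h' => h1 c' (mem_cons_of_mem h')]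
      simp only [countP_cons, Finset.sum_add_distrib]
      rw [add_comm]
      congr 1
      rw [Finset.sum_boole, ← List.toFinset_card_of_nodup hc.1]
      congr 1
      ext j
      simp only [List.mem_toFinset, Finset.mem_filter, Finset.mem_range]
      exact ⟨fun hj => ⟨hc.2 j hj, hj⟩, fun hj => hj.2⟩
  rw [this, Finset.sum_congr rfl fun j hj => h.2 j (Finset.mem_range.1 hj)]
  simp

lemma Good.sum {m d : ℕ} {ν : Multiset ℕ} (h : Good m d ν) : ν.sum = m * d := by
  obtain ⟨T, h1, rfl, _⟩ := h
  exact h1.sum

lemma Q.add {m d d' o : ℕ} {ν γ : Multiset ℕ} (h : Q m d o ν) (h' : Good m d' γ) :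
    Q m (d + d') o (ν + γ) := by
  cases o with
  | zero => exact Good.add h h'
  | succ t => exact Kp.add h h'

lemma count_toL (a : List ℕ) (k i : ℕ) :
    count i (toL a k : List ℕ) = if k ≤ i then a.getD (i - k) 0 else 0 := by
  induction a generalizing k with
  | nil => simp [toL]
  | cons x a ih =>
    rw [toL, ← coe_add, count_add, ih, coe_replicate, count_replicate]
    rcases lt_trichotomy k i with h | rfl | h
    · obtain ⟨n, rfl⟩ := Nat.exists_eq_add_of_lt h
      rw [if_neg (by omega), if_pos (by omega), if_pos (by omega),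
        show k + n + 1 - (k + 1) = n by omega, show k + n + 1 - k = n + 1 by omega]
      simp
    · simp
    · rw [if_neg (by omega), if_neg (by omega), if_neg (by omega)]

lemma sum_toL (a : List ℕ) (k : ℕ) : Multiset.sum (toL a k : List ℕ) = wsum a k := by
  induction a generalizing k with
  | nil => simp [toL, wsum]
  | cons x a ih => rw [toL, ← coe_add, sum_add, ih, wsum]; simp

def dom : List ℕ → List ℕ → Bool
  | [], _ => true
  | x :: g, [] => x == 0 && dom g []
  | x :: g, y :: a => Nat.ble x y && dom g a

def leF (g a : List ℕ) : Prop := ∀ i, g.getD i 0 ≤ a.getD i 0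

lemma dom_sound {g a : List ℕ} (h : dom g a = true) : leF g a := by
  induction g generalizing a with
  | nil => intro i; simp
  | cons x g ih =>
    cases a with
    | nil =>
      simp only [dom, Bool.and_eq_true, beq_iff_eq] at h
      intro i
      cases i with
      | zero => simp [h.1]
      | succ i => simpa using ih h.2 i
    | cons y a =>
      simp only [dom, Bool.and_eq_true, Nat.ble_eq] at h
      intro i
      cases i with
      | zero => simpa using h.1
      | succ i => simpa using ih h.2 i

def go (G ZF : List (List ℕ)) (B : ℕ) : ℕ → List ℕ → Bool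
  | 0, acc => ZF.elem acc
  | k + 1, acc => G.any (dom · (acc ++ [B])) && (List.range B).all fun v =>
      G.any (dom · (acc ++ [v])) || go G ZF B k (acc ++ [v])

lemma leF_append (acc : List ℕ) {u v : ℕ} (h : u ≤ v) (rest : List ℕ) :
    leF (acc ++ [u]) (acc ++ v :: rest) := by
  induction acc with
  | nil =>
    intro i
    cases i with
    | zero => simpa using h
    | succ i => simp
  | cons x acc ih =>
    intro i
    cases i with
    | zero => simp
    | succ i => simpa using ih i

lemma go_sound {G ZF : List (List ℕ)} {B : ℕ} (rest acc : List ℕ)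
    (h : go G ZF B rest.length acc = true) :
    (∃ g ∈ G, leF g (acc ++ rest)) ∨ acc ++ rest ∈ ZF := by
  induction rest generalizing acc with
  | nil => right; simpa [go] using h
  | cons v rest ih =>
    simp only [List.length_cons, go, Bool.and_eq_true, List.any_eq_true, List.all_eq_true,
      List.mem_range, Bool.or_eq_true] at h
    by_cases hv : v < B
    · rcases h.2 v hv with ⟨g, hg, h'⟩ | h'
      · exact Or.inl ⟨g, hg, fun i => (dom_sound h' i).trans (leF_append acc le_rfl rest i)⟩
      · simpa using ih _ h'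
    · obtain ⟨g, hg, h'⟩ := h.1
      exact Or.inl ⟨g, hg, fun i => (dom_sound h' i).trans (leF_append acc (by omega) rest i)⟩

def bits : ℕ → List (List ℕ)
  | 0 => [[]]
  | n + 1 => (bits n).flatMap fun l => [0 :: l, 1 :: l]

lemma mem_bits (l : List ℕ) (h : ∀ x ∈ l, x < 2) : l ∈ bits l.length := by
  induction l with
  | nil => simp [bits]
  | cons x l ih =>
    have := h x (by simp)
    simp only [List.length_cons, bits, List.mem_flatMap]
    refine ⟨l, ih fun y hy => h y (by simp [hy]), ?_⟩
    interval_cases x <;> simp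

def bs (o i : ℕ) : ℕ := if o ≠ 0 ∧ (o = i + 1 ∨ o = i) then 2 else 1

def mk (m o : ℕ) (β ε : List ℕ) : List ℕ :=
  (List.range (m + 1)).map fun i =>
    bs o i + if i = 0 then 0 else ε.getD (i - 1) 0 + 2 * β.getD (i - 1) 0

def genOK (m : ℕ) (p : List ℕ × List ℕ) : Bool :=
  let T := baseT p.1.sum p.2
  (p.2.length == m) && Nat.blt 0 p.1.sum && degOK m (wsum p.1 1 / m) T &&
    (T.map List.length == toL p.1 1)

def keys (m o : ℕ) (ZF : List (List ℕ)) (need : ℕ → Multiset ℕ → Bool) : List (List ℕ) :=
  forceLL (bits m) fun Bt => force (wsum (mk m o [] []) 0) fun w0 =>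
  ZF.flatMap fun β => force (w0 + 2 * wsum β 1) fun w1 =>
    ((Bt.filter fun ε => (w1 + wsum ε 1) % (2 * m) == 0).map (mk m o β)).filter fun a =>
      forceL a fun a => force (wsum a 0 / m) fun d => forceL (toL a 0) fun ν => need d ν

lemma wsum_eq (a : List ℕ) (k n : ℕ) (h : a.length ≤ n) :
    wsum a k = ∑ i ∈ Finset.range n, a.getD i 0 * (k + i) := by
  induction a generalizing k n with
  | nil => simp [wsum]
  | cons x a ih =>
    obtain ⟨n, rfl⟩ : ∃ n', n = n' + 1 := ⟨n - 1, by simp at h; omega⟩
    rw [wsum, ih (k + 1) n (by simpa using h), Finset.sum_range_succ', add_comm]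
    simp [add_assoc, add_comm 1]

lemma wsum_mk (m o : ℕ) (β ε : List ℕ) (h1 : β.length ≤ m) (h2 : ε.length ≤ m) :
    wsum (mk m o β ε) 0 = wsum (mk m o [] []) 0 + 2 * wsum β 1 + wsum ε 1 := by
  have g : ∀ β ε, wsum (mk m o β ε) 0 = ∑ i ∈ Finset.range m,
      (bs o (i + 1) + (ε.getD i 0 + 2 * β.getD i 0)) * (1 + i) := by
    intro β ε
    rw [wsum_eq _ 0 (m + 1) (by simp [mk]), Finset.sum_range_succ']
    simp only [add_zero, mul_zero]
    refine Finset.sum_congr rfl fun i hi => ?_
    have := Finset.mem_range.1 hi
    rw [List.getD_eq_getElem _ _ (by simp [mk]; omega)]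
    simp [mk, add_comm 1]
  rw [g, g, wsum_eq β 1 m h1, wsum_eq ε 1 m h2, Finset.mul_sum, ← Finset.sum_add_distrib,
    ← Finset.sum_add_distrib]
  refine Finset.sum_congr rfl fun i _ => ?_
  simp only [List.getD_nil]
  ring

theorem fin_reduce {m o : ℕ} (hm : 1 ≤ m) (GB : List (List ℕ × List ℕ)) (ZF : List (List ℕ))
    (B : ℕ) (need : ℕ → Multiset ℕ → Bool) (seeds : List Cert)
    (hG : GB.all (genOK m) = true) (hZ : go (GB.map Prod.fst) ZF B (m - 1) [] = true)
    (hk : seeds.map Cert.a = keys m o ZF need) (hs : seeds.all (Cert.ok m o) = true)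
    (hT : ∀ d ν, Even d → Reg m ν → ν.sum = m * d → (∀ i ≤ m, bs o i ≤ ν.count i) →
      need d ν = false → Q m d o ν) :
    ∀ d ν, Even d → Reg m ν → ν.sum = m * d → (∀ i ≤ m, bs o i ≤ ν.count i) → Q m d o ν := by
  intro d ν
  induction hn : card ν using Nat.strong_induction_on generalizing d ν with
  | _ n ih =>
  intro hev hR hsum hb
  have b1 : ∀ i, 1 ≤ bs o i := fun i => by unfold bs; split_ifs <;> omega
  have red : ∀ d' γ, Even d' → Good m d' γ → γ ≠ 0 → (∀ i ∈ γ, i ≤ m) →
      (∀ i ≤ m, γ.count i + bs o i ≤ ν.count i ∨ γ.count i = 0) → Q m d o ν := by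
    intro d' γ hev' hg h0 hγ hc
    have hc' : ∀ i ≤ m, γ.count i + bs o i ≤ ν.count i := fun i hi => by
      have := hc i hi; have := hb i hi; omega
    have hle : γ ≤ ν := le_iff_count.2 fun i => by
      by_cases hi : i ≤ m
      · have := hc' i hi; omega
      · rw [count_eq_zero.2 fun h => hi (hγ i h)]; omega
    obtain ⟨ν1, rfl⟩ := Multiset.le_iff_exists_add.1 hle
    have hs' := hg.sum
    rw [sum_add, hs'] at hsum
    have hdd : d' ≤ d := Nat.le_of_mul_le_mul_left (by omega) hm
    obtain ⟨d1, rfl⟩ := Nat.exists_eq_add_of_le hdd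
    have hb1 : ∀ i ≤ m, bs o i ≤ ν1.count i := fun i hi => by
      have := hc' i hi; rw [count_add] at this; omega
    have := ih (card ν1) (by
        have := card_pos.2 h0
        rw [← hn, card_add]; omega) d1 ν1 rfl ((Nat.even_add.1 hev).1 hev')
      (fun i => ⟨fun h => (hR i).1 (mem_add.2 (Or.inr h)), fun h =>
        one_le_count_iff_mem.1 ((b1 i).trans (hb1 i h))⟩)
      (by rw [mul_add] at hsum; omega) hb1
    rw [add_comm γ, add_comm d']
    exact this.add hg
  by_cases r0 : bs o 0 < ν.count 0
  · refine red 0 {0} (by simp) (Good.nil m) (by simp) (by simp) fun i _ => ?_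
    rw [count_singleton]
    split_ifs with h
    · subst h; omega
    · simp
  by_cases rm : bs o m + 2 ≤ ν.count m
  · have hv : Valid m 1 {List.range m} :=
      ⟨by simp [List.nodup_range], fun j hj => by simp [countP_single, hj]⟩
    have := Good.double hv
    simp only [map_singleton, List.length_range] at this
    refine red _ _ (by simp) this (by simp) (by simp) fun i _ => ?_
    rw [count_add, count_singleton]
    split_ifs with h
    · subst h; omega
    · simp
  set β := (List.range (m - 1)).map fun i => (ν.count (i + 1) - bs o (i + 1)) / 2 with hβ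
  have hβl : β.length = m - 1 := by simp [hβ]
  have hβg : ∀ i, β.getD i 0 = if i < m - 1 then (ν.count (i + 1) - bs o (i + 1)) / 2 else 0 := by
    intro i
    split_ifs with h
    · rw [List.getD_eq_getElem _ _ (by omega)]; simp [hβ]
    · rw [List.getD_eq_default _ _ (by omega)]
  rcases go_sound β [] (hβl ▸ hZ) with ⟨g, hg, hle⟩ | hmem
  · obtain ⟨⟨g, M⟩, hp, rfl⟩ := List.mem_map.1 hg
    have ok := List.all_eq_true.1 hG _ hp
    simp only [genOK, Bool.and_eq_true, beq_iff_eq, Nat.blt_eq] at ok
    obtain ⟨⟨⟨o1, o2⟩, o3⟩, o4⟩ := ok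
    have hv := baseT_valid (o1 ▸ o3)
    rw [o1] at hv
    have hgood := Good.double hv
    rw [map_coe, o4] at hgood
    simp only [List.nil_append] at hle
    have hcnt : ∀ i, count i (toL g 1 : List ℕ) ≤
        if 1 ≤ i ∧ i < m then (ν.count i - bs o i) / 2 else 0 := by
      intro i
      rw [count_toL]
      have := hle (i - 1)
      rw [hβg] at this
      cases i with
      | zero => simp
      | succ i =>
        simp only [Nat.add_sub_cancel] at this ⊢
        split_ifs at this ⊢ <;> omega
    refine red _ _ ⟨_, rfl⟩ hgood ?_ (fun i hi => ?_) fun i _ => ?_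
    · intro h0
      have := congrArg card h0
      rw [card_add, ← o4] at this
      simp [baseT] at this
      omega
    · have h1 := hcnt i
      have h2 : 1 ≤ count i (toL g 1 : List ℕ) := one_le_count_iff_mem.2 (by simpa using hi)
      split_ifs at h1 <;> omega
    · have h1 := hcnt i
      rw [count_add]
      split_ifs at h1 <;> omega
  simp only [List.nil_append] at hmem
  set ε := (List.range m).map fun i => (ν.count (i + 1) - bs o (i + 1)) % 2 with hε
  have hεm : ε ∈ bits m := by
    have := mem_bits ε fun x hx => by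
      obtain ⟨i, _, rfl⟩ := List.mem_map.1 hx
      omega
    simpa [hε] using this
  have hν : ν = (toL (mk m o β ε) 0 : List ℕ) := by
    ext i
    rw [count_toL, if_pos (Nat.zero_le _), Nat.sub_zero]
    by_cases hi : i ≤ m
    · rw [List.getD_eq_getElem _ _ (by simp [mk]; omega)]
      simp only [mk, List.getElem_map, List.getElem_range]
      have := hb i hi
      cases i with
      | zero => simp; omega
      | succ i =>
        rw [if_neg (by omega), Nat.add_sub_cancel, hβg,
          List.getD_eq_getElem _ _ (by simp [hε]; omega)]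
        simp only [hε, List.getElem_map, List.getElem_range]
        split_ifs with h
        · omega
        · obtain rfl : m = i + 1 := by omega
          omega
    · rw [List.getD_eq_default _ _ (by simp [mk]; omega)]
      exact count_eq_zero.2 fun h => hi ((hR i).1 h)
  cases hneed : need d ν with
  | false => exact hT d ν hev hR hsum hb hneed
  | true =>
    have hw : wsum (mk m o β ε) 0 = m * d := by rw [← sum_toL, ← hν, hsum]
    have hd : wsum (mk m o β ε) 0 / m = d := by rw [hw, Nat.mul_div_cancel_left _ hm]
    have : mk m o β ε ∈ keys m o ZF need := by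
      simp only [keys, forceLL_eq, forceL_eq, force_eq, List.mem_flatMap, List.mem_filter,
        List.mem_map, beq_iff_eq]
      refine ⟨β, hmem, ⟨ε, ⟨hεm, ?_⟩, rfl⟩, ?_⟩
      · obtain ⟨k, rfl⟩ := hev
        rw [← wsum_mk m o β ε (by omega) (by simp [hε]), hw, ← two_mul, ← mul_assoc, mul_comm m]
        exact Nat.mul_mod_right _ _
      · rw [hd, ← hν, hneed]
    rw [← hk] at this
    obtain ⟨c, hc, e⟩ := List.mem_map.1 this
    have := Cert.sound (List.all_eq_true.1 hs c hc)
    rwa [e, hd, ← hν] at this

def need6 : ℕ → ℕ → Multiset ℕ → Bool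
  | 0, _, _ => true
  | t + 1, d, ν => Nat.blt (up (t + 2) ν) d && Nat.blt d (up t ν)

def need7 : ℕ → ℕ → Multiset ℕ → Bool
  | 0, d, ν => (List.range 5).any fun t => up (t + 2) ν == d
  | t + 1, d, ν => up (t + 1) ν == d

end MP7ebc2a
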