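import Pool.Agent.Lib.MP_7ebc2a_al.Fin

namespace MP7ebc2a

def GB6 : List (List ℕ × List ℕ) := [
  ([0,0,0,0,6],[31,47,55,59,61,62]),
  ([0,0,0,1,4],[15,23,27,29,30,30]),
  ([0,0,0,2,2],[7,11,13,13,14,14]),
  ([0,0,0,3,0],[3,3,5,5,6,6]),
  ([0,0,1,0,3],[7,11,13,14,14,14]),
  ([0,0,1,1,1],[3,5,5,6,6,6]),
  ([0,0,2,0,0],[1,1,1,2,2,2]),
  ([0,1,0,0,2],[3,5,6,6,6,6]),
  ([0,1,0,1,0],[1,1,2,2,2,2]),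
  ([0,2,1,0,1],[5,9,10,10,12,12]),
  ([0,3,0,0,0],[1,1,2,2,4,4]),
  ([1,0,0,0,1],[1,2,2,2,2,2]),
  ([1,0,1,2,0],[5,6,10,10,12,12]),
  ([1,1,1,0,0],[1,2,2,4,4,4]),
  ([2,0,0,1,0],[1,2,4,4,4,4]),
  ([2,2,0,0,0],[1,2,4,4,8,8]),
  ([3,0,1,0,0],[1,2,4,8,8,8]),
  ([4,1,0,0,0],[1,2,4,8,16,16]),
  ([6,0,0,0,0],[1,2,4,8,16,32])]

def ZF6 : List (List ℕ) := [
  [0,0,0,0,0],
  [0,0,0,0,1],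
  [0,0,0,0,2],
  [0,0,0,0,3],
  [0,0,0,0,4],
  [0,0,0,0,5],
  [0,0,0,1,0],
  [0,0,0,1,1],
  [0,0,0,1,2],
  [0,0,0,1,3],
  [0,0,0,2,0],
  [0,0,0,2,1],
  [0,0,1,0,0],
  [0,0,1,0,1],
  [0,0,1,0,2],
  [0,0,1,1,0],
  [0,0,1,2,0],
  [0,1,0,0,0],
  [0,1,0,0,1],
  [0,1,1,0,0],
  [0,1,1,0,1],
  [0,2,0,0,0],
  [0,2,0,0,1],
  [0,2,1,0,0],
  [1,0,0,0,0],
  [1,0,0,1,0],
  [1,0,0,2,0],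
  [1,0,1,0,0],
  [1,0,1,1,0],
  [1,1,0,0,0],
  [1,2,0,0,0],
  [2,0,0,0,0],
  [2,0,1,0,0],
  [2,1,0,0,0],
  [3,0,0,0,0],
  [3,1,0,0,0],
  [4,0,0,0,0],
  [5,0,0,0,0]]

lemma GB6_ok : GB6.all (genOK 6) = true := by decide +kernel

lemma ZF6_ok : go (GB6.map Prod.fst) ZF6 6 (6 - 1) [] = true := by decide +kernel

end MP7ebc2a
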