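import Pool.Agent.Lib.MP_7ebc2a_al.Fin

namespace MP7ebc2a

def GB7 : List (List ℕ × List ℕ) := [
  ([0,0,0,0,0,7],[63,95,111,119,123,125,126]),
  ([0,0,0,0,1,5],[31,47,55,59,61,62,62]),
  ([0,0,0,0,2,3],[15,23,27,29,29,30,30]),
  ([0,0,0,0,3,1],[7,11,11,13,13,14,14]),
  ([0,0,0,0,7,0],[55,59,91,93,109,110,118]),
  ([0,0,0,1,0,4],[15,23,27,29,30,30,30]),
  ([0,0,0,1,1,2],[7,11,13,13,14,14,14]),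
  ([0,0,0,1,2,0],[3,3,5,5,6,6,6]),
  ([0,0,0,2,0,1],[3,5,5,5,6,6,6]),
  ([0,0,0,4,1,0],[11,13,21,21,22,26,26]),
  ([0,0,0,7,0,0],[43,45,53,85,86,90,106]),
  ([0,0,1,0,0,3],[7,11,13,14,14,14,14]),
  ([0,0,1,0,1,1],[3,5,5,6,6,6,6]),
  ([0,0,1,0,5,0],[27,29,45,46,54,54,58]),
  ([0,0,1,1,0,0],[1,1,1,2,2,2,2]),
  ([0,0,2,0,3,0],[13,13,21,22,26,26,28]),
  ([0,0,3,0,0,2],[13,21,25,26,26,26,28]),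
  ([0,0,3,0,1,0],[5,5,9,10,10,10,12]),
  ([0,0,5,0,0,1],[21,37,41,42,42,50,52]),
  ([0,0,7,0,0,0],[21,37,41,42,74,82,84]),
  ([0,1,0,0,0,2],[3,5,6,6,6,6,6]),
  ([0,1,0,0,1,0],[1,1,2,2,2,2,2]),
  ([0,1,0,3,0,0],[5,5,6,10,10,10,12]),
  ([0,1,2,0,0,1],[5,9,10,10,10,12,12]),
  ([0,1,4,0,0,0],[5,9,10,10,18,20,20]),
  ([0,2,0,1,0,1],[5,9,10,10,12,12,12]),
  ([0,2,1,0,0,0],[1,1,2,2,4,4,4]),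
  ([0,3,0,2,0,0],[9,9,10,18,20,20,24]),
  ([0,4,0,0,0,1],[9,17,18,18,20,20,24]),
  ([0,5,0,1,0,0],[9,17,18,34,36,36,40]),
  ([0,7,0,0,0,0],[9,17,18,34,36,68,72]),
  ([1,0,0,0,0,1],[1,2,2,2,2,2,2]),
  ([1,0,0,0,4,0],[13,14,22,22,26,26,28]),
  ([1,0,0,2,1,0],[5,6,10,10,10,12,12]),
  ([1,0,0,5,0,0],[21,22,26,42,42,44,52]),
  ([1,0,1,0,2,0],[5,6,10,10,12,12,12]),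
  ([1,0,2,0,0,0],[1,2,2,2,4,4,4]),
  ([1,1,0,1,0,0],[1,2,2,4,4,4,4]),
  ([1,3,0,0,0,0],[1,2,2,4,4,8,8]),
  ([2,0,0,0,1,0],[1,2,4,4,4,4,4]),
  ([2,0,0,3,0,0],[9,10,12,20,20,20,24]),
  ([2,1,1,0,0,0],[1,2,4,4,8,8,8]),
  ([3,0,0,1,0,0],[1,2,4,8,8,8,8]),
  ([3,2,0,0,0,0],[1,2,4,8,8,16,16]),
  ([4,0,1,0,0,0],[1,2,4,8,16,16,16]),
  ([5,1,0,0,0,0],[1,2,4,8,16,32,32]),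
  ([7,0,0,0,0,0],[1,2,4,8,16,32,64])]

def ZF7 : List (List ℕ) := [
  [0,0,0,0,0,0],
  [0,0,0,0,0,1],
  [0,0,0,0,0,2],
  [0,0,0,0,0,3],
  [0,0,0,0,0,4],
  [0,0,0,0,0,5],
  [0,0,0,0,0,6],
  [0,0,0,0,1,0],
  [0,0,0,0,1,1],
  [0,0,0,0,1,2],
  [0,0,0,0,1,3],
  [0,0,0,0,1,4],
  [0,0,0,0,2,0],
  [0,0,0,0,2,1],
  [0,0,0,0,2,2],
  [0,0,0,0,3,0],
  [0,0,0,0,4,0],
  [0,0,0,0,5,0],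
  [0,0,0,0,6,0],
  [0,0,0,1,0,0],
  [0,0,0,1,0,1],
  [0,0,0,1,0,2],
  [0,0,0,1,0,3],
  [0,0,0,1,1,0],
  [0,0,0,1,1,1],
  [0,0,0,2,0,0],
  [0,0,0,2,1,0],
  [0,0,0,3,0,0],
  [0,0,0,3,1,0],
  [0,0,0,4,0,0],
  [0,0,0,5,0,0],
  [0,0,0,6,0,0],
  [0,0,1,0,0,0],
  [0,0,1,0,0,1],
  [0,0,1,0,0,2],
  [0,0,1,0,1,0],
  [0,0,1,0,2,0],
  [0,0,1,0,3,0],
  [0,0,1,0,4,0],
  [0,0,2,0,0,0],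
  [0,0,2,0,0,1],
  [0,0,2,0,0,2],
  [0,0,2,0,1,0],
  [0,0,2,0,2,0],
  [0,0,3,0,0,0],
  [0,0,3,0,0,1],
  [0,0,4,0,0,0],
  [0,0,4,0,0,1],
  [0,0,5,0,0,0],
  [0,0,6,0,0,0],
  [0,1,0,0,0,0],
  [0,1,0,0,0,1],
  [0,1,0,1,0,0],
  [0,1,0,1,0,1],
  [0,1,0,2,0,0],
  [0,1,1,0,0,0],
  [0,1,1,0,0,1],
  [0,1,2,0,0,0],
  [0,1,3,0,0,0],
  [0,2,0,0,0,0],
  [0,2,0,0,0,1],
  [0,2,0,1,0,0],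
  [0,2,0,2,0,0],
  [0,3,0,0,0,0],
  [0,3,0,0,0,1],
  [0,3,0,1,0,0],
  [0,4,0,0,0,0],
  [0,4,0,1,0,0],
  [0,5,0,0,0,0],
  [0,6,0,0,0,0],
  [1,0,0,0,0,0],
  [1,0,0,0,1,0],
  [1,0,0,0,2,0],
  [1,0,0,0,3,0],
  [1,0,0,1,0,0],
  [1,0,0,1,1,0],
  [1,0,0,2,0,0],
  [1,0,0,3,0,0],
  [1,0,0,4,0,0],
  [1,0,1,0,0,0],
  [1,0,1,0,1,0],
  [1,1,0,0,0,0],
  [1,1,1,0,0,0],
  [1,2,0,0,0,0],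
  [2,0,0,0,0,0],
  [2,0,0,1,0,0],
  [2,0,0,2,0,0],
  [2,0,1,0,0,0],
  [2,1,0,0,0,0],
  [2,2,0,0,0,0],
  [3,0,0,0,0,0],
  [3,0,1,0,0,0],
  [3,1,0,0,0,0],
  [4,0,0,0,0,0],
  [4,1,0,0,0,0],
  [5,0,0,0,0,0],
  [6,0,0,0,0,0]]

lemma GB7_ok : GB7.all (genOK 7) = true := by decide +kernel

lemma ZF7_ok : go (GB7.map Prod.fst) ZF7 7 (7 - 1) [] = true := by decide +kernel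

end MP7ebc2a
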