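import Pool.Agent.Lib.MP_7ebc2a_al.Blk

/-! Grouping column lengths into feasible blocks. -/

namespace MP7ebc2a
open Multiset

def F8 (n : ℕ) (s : Multiset ℕ) : Prop := ∃ v : Fin 8 → ℕ, s = Finset.univ.val.map v ∧ Feas n v

def FE (n : ℕ) (V : Multiset ℕ) : Prop := ∃ σ, Fil n σ V

lemma F8.fe {n : ℕ} (hn : 0 < n) {s : Multiset ℕ} (h : F8 n s) : FE n s := by
  obtain ⟨v, rfl, h⟩ := h
  exact h.fil hn

lemma FE.add {n : ℕ} {V V' : Multiset ℕ} (h : FE n V) (h' : FE n V') : FE n (V + V') := by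
  obtain ⟨σ, h⟩ := h
  obtain ⟨σ', h'⟩ := h'
  exact ⟨_, h.add h'⟩

lemma F8.of_compl {n : ℕ} {s : Multiset ℕ} (h : F8 n (s.map (n - ·))) (hs : ∀ x ∈ s, x ≤ n) :
    F8 n s := by
  obtain ⟨v, e, h⟩ := h
  refine ⟨_, ?_, h.compl⟩
  have := congrArg (Multiset.map (n - ·)) e
  rw [Multiset.map_map, Multiset.map_map, map_congr rfl (g := id) fun x hx => by
    have := hs x hx
    simp only [Function.comp_apply, id]
    omega, map_id] at this
  exact this

lemma f8_blk {n c a κ : ℕ} {t : Multiset ℕ} (ht : card t = 7)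
    (h1 : ∀ x ∈ t, c + 4 * a ≤ x ∧ x ≤ c + 4 * a + 4 * κ + 3 ∧ x % 4 = c % 4)
    (h : (7 * κ ≤ a ∧ 7 * a + 7 * κ + c ≤ n) ∨ (21 * κ ≤ c ∧ 7 * a + 28 * κ + c ≤ n)) :
    F8 n (c ::ₘ t) := by
  obtain ⟨f, rfl, -⟩ := index_cols (fun _ => ()) (fun _ : Fin 7 => ()) Finset.univ t
    (by rw [map_const', map_const', ht]; rfl)
  have h2 : ∀ i, _ := fun i => h1 (f i) (mem_map_of_mem _ (Finset.mem_univ_val i))
  have h3 : ∑ i, (f i - c - 4 * a) / 4 ≤ 7 * κ := by
    have := Finset.sum_le_card_nsmul Finset.univ (fun i => (f i - c - 4 * a) / 4) κ fun i _ => by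
      have := h2 i; omega
    simpa using this
  refine ⟨_, ?_, feas_blk (c := c) (a := a) (fun i => (f i - c - 4 * a) / 4) (by omega)⟩
  have : (fun i => c + 4 * a + 4 * ((f i - c - 4 * a) / 4)) = f := funext fun i => by
    have := h2 i; omega
  rw [this, Fin.univ_val_map, Fin.univ_val_map, List.ofFn_succ]
  rfl

lemma f8_close {n : ℕ} {s : Multiset ℕ} (hs : card s = 8) (h1 : ∀ x ∈ s, ∀ y ∈ s, x % 4 = y % 4)
    (h : ∀ c ∈ s, ∃ κ, (∀ x ∈ s, x ≤ c + 4 * κ + 3) ∧ 21 * κ ≤ c ∧ c + 28 * κ ≤ n) : F8 n s := by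
  obtain ⟨c, hc, hm⟩ := Multiset.exists_min_image id (s := s) (by rintro rfl; simp at hs)
  obtain ⟨κ, a1, a2, a3⟩ := h c hc
  obtain ⟨t, rfl⟩ := exists_cons_of_mem hc
  refine f8_blk (a := 0) (κ := κ) (by simpa using hs) (fun x hx => ?_) (by omega)
  have hx' := mem_cons_of_mem (b := c) hx
  exact ⟨hm x hx', by simpa using a1 x hx', h1 x hx' c hc⟩

/-- any length together with seven companions from a narrow window near the middle -/
lemma f8_far {m lo c : ℕ} {t : Multiset ℕ} (hm : 2000 ≤ m) (ht : card t = 7) (hc : c ≤ m - 7)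
    (l1 : 45 * m ≤ 100 * lo + 800)
    (h1 : ∀ x ∈ t, lo ≤ x ∧ 100 * x ≤ 100 * lo + m + 800 ∧ 100 * x ≤ 55 * m + 100 ∧
      x % 4 = c % 4) : F8 (m - 7) (c ::ₘ t) := by
  have low : ∀ (lo c : ℕ) (t : Multiset ℕ), card t = 7 → c ≤ lo → 45 * m ≤ 100 * lo + 800 →
      (∀ x ∈ t, lo ≤ x ∧ 100 * x ≤ 100 * lo + m + 800 ∧ 100 * x ≤ 55 * m + 100 ∧
        x % 4 = c % 4) → F8 (m - 7) (c ::ₘ t) := by
    intro lo c t ht hc l1 h1
    obtain ⟨y, hy⟩ := card_pos_iff_exists_mem.1 (by omega : 0 < card t)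
    have := h1 y hy
    refine f8_blk (a := (lo - c) / 4) (κ := m / 400 + 3) ht (fun x hx => ?_) (by omega)
    have := h1 x hx
    omega
  by_cases h2 : c ≤ lo
  · exact low lo c t ht h2 l1 h1
  obtain ⟨y, hy, hy'⟩ := Multiset.exists_max_image id (s := t) (by rintro rfl; simp at ht)
  simp only [id] at hy'
  have := h1 y hy
  by_cases h3 : y ≤ c
  · refine F8.of_compl ?_ fun x hx => ?_
    · rw [map_cons]
      refine low (m - 7 - y) _ _ (by simpa using ht) (by omega) (by omega) fun x hx => ?_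
      obtain ⟨x, hx', rfl⟩ := mem_map.1 hx
      have := h1 x hx'
      have := hy' x hx'
      omega
    · rcases mem_cons.1 hx with rfl | hx
      · exact hc
      · have := h1 x hx; omega
  · have h4 : ∀ x ∈ c ::ₘ t, lo ≤ x ∧ x ≤ y ∧ x % 4 = c % 4 := fun x hx => by
      rcases mem_cons.1 hx with rfl | hx
      · omega
      · have := h1 x hx
        have := hy' x hx
        omega
    refine f8_close (by simp [ht]) (fun x hx z hz => ?_) fun z hz => ⟨m / 400 + 3, fun x hx => ?_, ?_⟩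
    · rw [(h4 x hx).2.2, (h4 z hz).2.2]
    · have := h4 x hx
      have := h4 z hz
      omega
    · have := h4 z hz
      omega

lemma group {β : Type*} [DecidableEq β] {n : ℕ} (hn : 0 < n) (key : ℕ → β) (K : Finset β)
    (V : Multiset ℕ) (h1 : ∀ x ∈ V, key x ∈ K)
    (h2 : ∀ s ≤ V, card s = 8 → (∀ x ∈ s, ∀ y ∈ s, key x = key y) → F8 n s) :
    ∃ V1 V2, V = V1 + V2 ∧ FE n V1 ∧ card V2 ≤ 7 * K.card := by
  induction hV : card V using Nat.strong_induction_on generalizing V with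
  | _ N ih =>
  by_cases h : ∀ y ∈ K, card (V.filter fun x => key x = y) ≤ 7
  · refine ⟨0, V, by simp, ⟨0, Fil.zero n⟩, ?_⟩
    have : card V = ∑ y ∈ K, card (V.filter fun x => key x = y) := by
      clear h h2 hV
      induction V using Multiset.induction_on with
      | empty => simp
      | cons a V ih =>
        simp only [filter_cons, card_add, Finset.sum_add_distrib, card_cons,
          ← ih fun x hx => h1 x (mem_cons_of_mem hx), apply_ite card, card_singleton, card_zero]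
        rw [Finset.sum_ite_eq, if_pos (h1 a (mem_cons_self _ _)), add_comm]
    rw [this, mul_comm]
    exact Finset.sum_le_card_nsmul _ _ _ h
  · push Not at h
    obtain ⟨y, _, hy⟩ := h
    obtain ⟨s, r, e, hs, -⟩ := split_card 8 (card (V.filter fun x => key x = y) - 8) _
      (by omega : card (V.filter fun x => key x = y) = _)
    have hle : s ≤ V := (e ▸ le_add_right s r).trans (filter_le _ V)
    have hk : ∀ x ∈ s, key x = y := fun x hx =>
      (mem_filter.1 (e ▸ mem_add.2 (Or.inl hx) : x ∈ V.filter fun x => key x = y)).2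
    have h8 := h2 s hle hs fun x hx z hz => (hk x hx).trans (hk z hz).symm
    obtain ⟨W, rfl⟩ := Multiset.le_iff_exists_add.1 hle
    obtain ⟨V1, V2, rfl, a1, a2⟩ := ih (card W) (by rw [← hV, card_add]; omega) W
      (fun x hx => h1 x (mem_add.2 (Or.inr hx)))
      (fun t ht => h2 t (ht.trans (le_add_left _ _))) rfl
    exact ⟨s + V1, V2, by rw [add_assoc], (h8.fe hn).add a1, a2⟩

def key0 (x : ℕ) : ℕ × ℕ := (Nat.log 2 x, 8 * x / 2 ^ Nat.log 2 x)

lemma key0_close {x y : ℕ} (h : key0 x = key0 y) : 8 * y ≤ 9 * x := by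
  simp only [key0, Prod.mk.injEq] at h
  obtain ⟨h1, h2⟩ := h
  rw [h1] at h2
  have hp : 0 < 2 ^ Nat.log 2 y := by positivity
  have a1 := Nat.div_mul_le_self (8 * x) (2 ^ Nat.log 2 y)
  have a2 := Nat.lt_div_mul_add (a := 8 * y) hp
  rw [h2] at a1
  rcases Nat.eq_zero_or_pos x with rfl | hx
  · rw [← h1] at h2
    simp at h2
    omega
  · have := Nat.pow_log_le_self 2 hx.ne'
    rw [h1] at this
    omega

theorem group_all {n l : ℕ} (hn : 0 < n) (hl : Nat.log 2 n < l) (V : Multiset ℕ)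
    (h : ∀ x ∈ V, x ≤ n) : ∃ V1 V2, V = V1 + V2 ∧ FE n V1 ∧ card V2 ≤ 896 * l := by
  have low : ∀ s : Multiset ℕ, card s = 8 → (∀ x ∈ s, 2 * x ≤ n) →
      (∀ x ∈ s, ∀ y ∈ s, x % 4 = y % 4 ∧ key0 x = key0 y) → F8 n s := fun s h1 h2 h3 =>
    f8_close h1 (fun x hx y hy => (h3 x hx y hy).1) fun c hc => ⟨c / 32, fun x hx => by
      have := key0_close (h3 c hc x hx).2; omega, by omega, by have := h2 c hc; omega⟩
  have := group hn (fun x => (decide (2 * x ≤ n), x % 4, key0 (if 2 * x ≤ n then x else n - x)))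
    (Finset.univ ×ˢ Finset.range 4 ×ˢ Finset.range l ×ˢ Finset.range 16) V (fun x hx => ?_)
    fun s hs h1 h2 => ?_
  · simpa [show 896 * l = 7 * (2 * (4 * (l * 16))) by ring] using this
  · have := h x hx
    simp only [key0, Finset.mem_product, Finset.mem_univ, Finset.mem_range, true_and]
    generalize hy : (if 2 * x ≤ n then x else n - x) = y
    have : y ≤ n := by split_ifs at hy <;> omega
    refine ⟨by omega, (Nat.log_mono_right this).trans_lt hl, ?_⟩
    rw [Nat.div_lt_iff_lt_mul (by positivity)]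
    have := Nat.lt_pow_succ_log_self one_lt_two y
    rw [Nat.pow_succ] at this
    omega
  · simp only [Prod.mk.injEq, decide_eq_decide] at h2
    by_cases h3 : ∀ x ∈ s, 2 * x ≤ n
    · refine low s h1 h3 fun x hx y hy => ⟨(h2 x hx y hy).2.1, ?_⟩
      simpa [h3 x hx, h3 y hy] using (h2 x hx y hy).2.2
    · push Not at h3
      obtain ⟨z, hz, h3⟩ := h3
      have h4 : ∀ x ∈ s, ¬ 2 * x ≤ n := fun x hx e => absurd ((h2 x hx z hz).1.1 e) (by omega)
      have h5 : ∀ x ∈ s, x ≤ n := fun x hx => h x (mem_of_le hs hx)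
      refine F8.of_compl (low _ (by simpa using h1) (fun x hx => ?_) fun x hx y hy => ?_) h5
      · obtain ⟨x, hx', rfl⟩ := mem_map.1 hx
        have := h4 x hx'
        omega
      · obtain ⟨x, hx', rfl⟩ := mem_map.1 hx
        obtain ⟨y, hy', rfl⟩ := mem_map.1 hy
        have := (h2 x hx' y hy').2.1
        have := h5 x hx'
        have := h5 y hy'
        exact ⟨by omega, by simpa [h4 x hx', h4 y hy'] using (h2 x hx' y hy').2.2⟩

/-- leftovers absorbed by companions with matching residues -/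
lemma absorb {m lo : ℕ} (hm : 2000 ≤ m) (l1 : 45 * m ≤ 100 * lo + 800) (u : ℕ)
    (Lf W : Multiset ℕ) (h0 : ∀ c ∈ Lf, c ≤ m - 7)
    (h1 : ∀ x ∈ W, lo ≤ x ∧ 100 * x ≤ 100 * lo + m + 800 ∧ 100 * x ≤ 55 * m + 100)
    (h2 : W.map (· % 4) = (Lf.bind fun c => replicate 7 (c % 4)) + replicate (8 * u) 0) :
    FE (m - 7) (Lf + W) := by
  induction Lf using Multiset.induction_on generalizing W with
  | empty =>
    simp only [zero_bind, zero_add] at h2 ⊢
    induction u generalizing W with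
    | zero =>
      obtain rfl : W = 0 := by simpa using h2
      exact ⟨0, Fil.zero _⟩
    | succ u ih =>
      rw [mul_add, add_comm, replicate_add] at h2
      obtain ⟨s, W, rfl, a1, a2⟩ := map_eq_add _ _ _ _ h2
      have hs : card s = 8 := by simpa using congrArg card a1
      have hr : ∀ x ∈ s, x % 4 = 0 := fun x hx => eq_of_mem_replicate (a1 ▸ mem_map_of_mem _ hx)
      refine (F8.fe (by omega) ?_).add (ih W (fun x hx => h1 x (mem_add.2 (Or.inr hx))) a2)
      have h3 := fun x hx => h1 x (mem_add.2 (Or.inl hx))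
      refine f8_close hs (fun x hx y hy => by rw [hr x hx, hr y hy]) fun c hc =>
        ⟨m / 400 + 3, fun x hx => ?_, ?_⟩
      · have := h3 x hx
        have := h3 c hc
        omega
      · have := h3 c hc
        omega
  | cons c Lf ih =>
    rw [cons_bind, add_assoc] at h2
    obtain ⟨t, W, rfl, a1, a2⟩ := map_eq_add _ _ _ _ h2
    have : c ::ₘ Lf + (t + W) = (c ::ₘ t) + (Lf + W) := by
      simp only [cons_add]; congr 1; abel
    rw [this]
    refine (F8.fe (by omega) (f8_far hm (by simpa using congrArg card a1)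
      (h0 c (mem_cons_self _ _)) l1 fun x hx => ?_)).add (ih W
      (fun x hx => h0 x (mem_cons_of_mem hx)) (fun x hx => h1 x (mem_add.2 (Or.inr hx))) a2)
    have := h1 x (mem_add.2 (Or.inl hx))
    exact ⟨this.1, this.2.1, this.2.2, eq_of_mem_replicate (a1 ▸ mem_map_of_mem _ hx)⟩

end MP7ebc2a
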