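import Pool.Agent.Lib.MP_7ebc2a_al.Cert

/-! The induction on the number of letters. -/

namespace MP7ebc2a
open Multiset

def Reg (m : ℕ) (ν : Multiset ℕ) : Prop := ∀ i, i ∈ ν ↔ i ≤ m

def up (i : ℕ) (ν : Multiset ℕ) : ℕ := ν.countP (i ≤ ·)

def GAll (m : ℕ) : Prop := ∀ d ν, Even d → Reg m ν → ν.sum = m * d → Good m d ν

def KAll (m : ℕ) : Prop := ∀ d ν t, Even d → Reg m ν → ν.sum = m * d → t < m →
  2 ≤ ν.count t → 2 ≤ ν.count (t + 1) → Kp m d t ν

lemma up_succ (i : ℕ) (ν : Multiset ℕ) : up i ν = ν.count i + up (i + 1) ν := by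
  induction ν using Multiset.induction_on with
  | empty => simp [up]
  | cons a ν ih =>
    simp only [up, countP_cons, count_cons] at ih ⊢
    split_ifs <;> omega

lemma decomp (ν : Multiset ℕ) (t k : ℕ) : ∃ Sm Lg : Multiset ℕ, (∀ i ∈ Sm, i < t) ∧
    (∀ i ∈ Lg, t + 1 < i) ∧ card Lg = up (t + k + 2) ν ∧
    ν = Sm + ν.filter (fun i => t ≤ i ∧ i < t + k + 2) + Lg.map (· + k) := by
  refine ⟨ν.filter (· < t), (ν.filter (t + k + 2 ≤ ·)).map (· - k), fun i hi => (mem_filter.1 hi).2,
    fun i hi => ?_, by simp [up, countP_eq_card_filter], ?_⟩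
  · obtain ⟨j, hj, rfl⟩ := mem_map.1 hi
    have := of_mem_filter hj
    omega
  · have : ((ν.filter (t + k + 2 ≤ ·)).map (· - k)).map (· + k) = ν.filter (t + k + 2 ≤ ·) := by
      rw [Multiset.map_map]
      conv_rhs => rw [← map_id (filter _ _)]
      refine map_congr rfl fun j hj => ?_
      have := of_mem_filter hj
      simp only [Function.comp_apply, id]; omega
    rw [this]
    ext i
    simp only [count_add, count_filter]
    split_ifs <;> omega

lemma mid3 (ν : Multiset ℕ) (t : ℕ) : ν.filter (fun i => t ≤ i ∧ i < t + 1 + 2) =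
    replicate (ν.count t) t + replicate (ν.count (t + 1)) (t + 1) +
      replicate (ν.count (t + 2)) (t + 2) := by
  ext i
  simp only [count_add, count_filter, count_replicate]
  split_ifs <;> first | omega | (subst_vars; simp)

lemma mid4 (ν : Multiset ℕ) (t : ℕ) : ν.filter (fun i => t ≤ i ∧ i < t + 2 + 2) =
    replicate (ν.count t) t + replicate (ν.count (t + 1)) (t + 1) +
      replicate (ν.count (t + 2)) (t + 2) + replicate (ν.count (t + 3)) (t + 3) := by
  ext i
  simp only [count_add, count_filter, count_replicate]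
  split_ifs <;> first | omega | (subst_vars; simp)

lemma sum_map_addc (Lg : Multiset ℕ) (k : ℕ) : (Lg.map (· + k)).sum = Lg.sum + card Lg * k := by
  simp [Multiset.sum_map_add]

lemma Reg.one_le {m : ℕ} {ν : Multiset ℕ} (h : Reg m ν) {i : ℕ} (hi : i ≤ m) : 1 ≤ ν.count i :=
  one_le_count_iff_mem.2 ((h i).2 hi)

/-- merging the two innermost values: the shape one level down -/
lemma merge_shape {m d t : ℕ} {ν : Multiset ℕ} (hR : Reg (m + 1) ν) (hs : ν.sum = (m + 1) * d)
    (ht : t + 1 ≤ m) (h1 : up (t + 2) ν ≤ d) (h2 : d ≤ up (t + 1) ν) :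
    ∃ ν', Reg m ν' ∧ ν'.sum = m * d ∧ ν'.count t = ν.count t + (d - up (t + 2) ν) ∧
      ν'.count (t + 1) = ν.count (t + 2) + (up (t + 1) ν - d) ∧
      up (t + 2) ν' = up (t + 3) ν ∧
      (Kp m d t ν' → (d < up (t + 1) ν → Kp (m + 1) d t ν) ∧
        (up (t + 2) ν < d → Kp (m + 1) d (t + 1) ν)) := by
  obtain ⟨Sm, Lg, hS, hL, cL, e⟩ := decomp ν t 1
  rw [mid3] at e
  obtain ⟨a, ha⟩ : ∃ a, ν.count t = a + 1 := ⟨_, (Nat.sub_add_cancel (hR.one_le (by omega))).symm⟩
  obtain ⟨b, hb⟩ : ∃ b, ν.count (t + 2) = b + 1 :=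
    ⟨_, (Nat.sub_add_cancel (hR.one_le (by omega))).symm⟩
  obtain ⟨q, hq⟩ := Nat.exists_eq_add_of_le h1
  obtain ⟨p, hp⟩ := Nat.exists_eq_add_of_le h2
  have u1 := up_succ (t + 1) ν
  have u2 := up_succ (t + 2) ν
  have hc : ν.count (t + 1) = q + p := by
    simp only [add_assoc, Nat.reduceAdd] at u1 u2 ⊢; omega
  have hc1 := hR.one_le (show t + 1 ≤ m + 1 by omega)
  have cL' : card Lg = up (t + 3) ν := cL
  have hd : d = card Lg + (b + 1) + q := by
    simp only [add_assoc, Nat.reduceAdd] at u1 u2 ⊢; omega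
  rw [ha, hb, hc, ← add_assoc, ← add_assoc] at e
  have nS : ∀ i, t ≤ i → Sm.count i = 0 := fun i hi =>
    count_eq_zero.2 fun h => by have := hS i h; omega
  have nL : ∀ i, i ≤ t + 1 → Lg.count i = 0 := fun i hi =>
    count_eq_zero.2 fun h => by have := hL i h; omega
  refine ⟨Sm + replicate (q + a + 1) t + replicate (p + b + 1) (t + 1) + Lg, fun i => ?_, ?_, ?_,
    ?_, ?_, fun hK => ?_⟩
  · have r1 := hR i
    have r2 := hR (i + 1)
    rw [e] at r1 r2
    simp only [mem_add, mem_replicate, mem_map] at r1 r2 ⊢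
    constructor
    · rintro (((h | h) | h) | h)
      · have := hS i h; omega
      · omega
      · omega
      · have := r2.1 (Or.inr ⟨i, h, rfl⟩); omega
    · intro hi
      by_cases c1 : i < t
      · rcases r1.2 (by omega) with (((h | h) | h) | h) | ⟨j, h, h'⟩
        · tauto
        · omega
        · omega
        · omega
        · have := hL j h; omega
      by_cases c2 : i ≤ t + 1
      · omega
      · rcases r2.2 (by omega) with (((h | h) | h) | h) | ⟨j, h, h'⟩
        · have := hS _ h; omega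
        · omega
        · omega
        · omega
        · obtain rfl : j = i := by omega
          exact Or.inr h
  · rw [e] at hs
    simp only [sum_add, sum_replicate, sum_map_addc, smul_eq_mul] at hs ⊢
    subst hd
    nlinarith
  · simp only [count_add, count_replicate, nS t le_rfl, nL t (by omega)]
    simp; omega
  · simp only [count_add, count_replicate, nS (t + 1) (by omega), nL (t + 1) le_rfl]
    simp; omega
  · rw [← cL']
    simp only [up, countP_add]
    rw [countP_eq_zero.2 (fun i hi => by have := hS i hi; omega),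
      countP_eq_zero.2 (fun i hi => by have := eq_of_mem_replicate hi; omega),
      countP_eq_zero.2 (fun i hi => by have := eq_of_mem_replicate hi; omega),
      countP_eq_card.2 (fun i hi => by have := hL i hi; omega)]
    simp
  · have := Kp.step hS hL hd hK
    simp only at this
    rw [← e] at this
    exact ⟨fun h => this.1 (by omega), fun h => this.2 (by omega)⟩

lemma merge1 {m d t : ℕ} {ν : Multiset ℕ} (hK : KAll m) (hev : Even d) (hR : Reg (m + 1) ν)
    (hs : ν.sum = (m + 1) * d) (ht : t + 1 ≤ m) (h1 : up (t + 2) ν < d) (h2 : d < up (t + 1) ν) :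
    Kp (m + 1) d t ν ∧ Kp (m + 1) d (t + 1) ν := by
  obtain ⟨ν', r, s, c1, c2, _, h⟩ := merge_shape hR hs ht h1.le h2.le
  have a1 := hR.one_le (show t ≤ m + 1 by omega)
  have a2 := hR.one_le (show t + 2 ≤ m + 1 by omega)
  have := h (hK d ν' t hev r s (by omega) (by omega) (by omega))
  exact ⟨this.1 h2, this.2 h1⟩

lemma merge0 {m d t : ℕ} {ν : Multiset ℕ} (hK : KAll m) (hev : Even d) (hR : Reg (m + 2) ν)
    (hs : ν.sum = (m + 2) * d) (ht : t + 1 ≤ m) (h1 : up (t + 2) ν = d) (h2 : d < up (t + 1) ν) :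
    Good (m + 2) d ν := by
  obtain ⟨ν', r, s, c1, c2, c3, h⟩ := merge_shape (m := m + 1) hR hs (by omega) h1.le h2.le
  have a2 := hR.one_le (show t + 2 ≤ m + 2 by omega)
  have u2 := up_succ (t + 2) ν
  have u1 := up_succ (t + 1) ν'
  simp only [add_assoc, Nat.reduceAdd] at u1 u2
  exact ((h (merge1 hK hev r s ht (by omega) (by omega)).1).1 h2).good

lemma merge2 {m d t : ℕ} {ν : Multiset ℕ} (hK : KAll m) (hev : Even d) (hR : Reg (m + 2) ν)
    (hs : ν.sum = (m + 2) * d) (ht : t + 1 ≤ m) (h1 : up (t + 2) ν = d)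
    (c1 : 2 ≤ ν.count (t + 1)) (c2 : 2 ≤ ν.count (t + 2)) : Kp (m + 2) d (t + 1) ν := by
  obtain ⟨Sm, Lg, hS, hL, cL, e⟩ := decomp ν t 2
  rw [mid4] at e
  obtain ⟨a, ha⟩ : ∃ a, ν.count t = a + 1 := ⟨_, (Nat.sub_add_cancel (hR.one_le (by omega))).symm⟩
  obtain ⟨b, hb⟩ : ∃ b, ν.count (t + 3) = b + 1 :=
    ⟨_, (Nat.sub_add_cancel (hR.one_le (by omega))).symm⟩
  obtain ⟨a', ha'⟩ := Nat.exists_eq_add_of_le c1
  obtain ⟨b', hb'⟩ := Nat.exists_eq_add_of_le' c2
  have u1 := up_succ (t + 2) ν
  have u2 := up_succ (t + 3) ν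
  have hd : d = card Lg + (b + 1) + b' + 2 := by
    simp only [add_assoc, Nat.reduceAdd] at u1 u2 cL ⊢; omega
  rw [ha, hb, ha', hb', ← add_assoc, ← add_assoc, ← add_assoc] at e
  have nS : ∀ i, t ≤ i → Sm.count i = 0 := fun i hi =>
    count_eq_zero.2 fun h => by have := hS i h; omega
  have nL : ∀ i, i ≤ t + 1 → Lg.count i = 0 := fun i hi =>
    count_eq_zero.2 fun h => by have := hL i h; omega
  rw [e]
  refine Kp.step2 hS hL hd hev (hK d _ t hev (fun i => ?_) ?_ (by omega) ?_ ?_)
  · have r1 := hR i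
    have r2 := hR (i + 2)
    rw [e] at r1 r2
    simp only [mem_add, mem_replicate, mem_map] at r1 r2 ⊢
    constructor
    · rintro (((h | h) | h) | h)
      · have := hS i h; omega
      · omega
      · omega
      · have := r2.1 (Or.inr ⟨i, h, rfl⟩); omega
    · intro hi
      by_cases c1 : i < t
      · rcases r1.2 (by omega) with ((((h | h) | h) | h) | h) | ⟨j, h, h'⟩
        · tauto
        · omega
        · omega
        · omega
        · omega
        · have := hL j h; omega
      by_cases c2 : i ≤ t + 1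
      · omega
      · rcases r2.2 (by omega) with ((((h | h) | h) | h) | h) | ⟨j, h, h'⟩
        · have := hS _ h; omega
        · omega
        · omega
        · omega
        · omega
        · obtain rfl : j = i := by omega
          exact Or.inr h
  · rw [e] at hs
    simp only [sum_add, sum_replicate, sum_map_addc, smul_eq_mul] at hs ⊢
    subst hd
    nlinarith
  · simp only [count_add, count_replicate]
    simp; omega
  · simp only [count_add, count_replicate]
    simp; omega

lemma up_bounds {m d : ℕ} {ν : Multiset ℕ} (hm : 2 ≤ m) (hR : Reg m ν) (hs : ν.sum = m * d) :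
    up m ν < d ∧ d < up 1 ν := by
  obtain ⟨ν', rfl⟩ := exists_cons_of_mem ((hR 1).2 (by omega))
  have hb : ∀ i ∈ ν', i ≤ m := fun i hi => (hR i).1 (mem_cons_of_mem hi)
  have key : m * up m ν' ≤ ν'.sum ∧ ν'.sum ≤ m * up 1 ν' := by
    clear hR hs
    induction ν' using Multiset.induction_on with
    | empty => simp [up]
    | cons a ν ih =>
      have := ih fun i hi => hb i (mem_cons_of_mem hi)
      have ha := hb a (mem_cons_self _ _)
      simp only [up, countP_cons, sum_cons] at this ⊢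
      split_ifs <;> simp only [mul_add, mul_one, add_zero] <;> omega
  simp only [up, countP_cons, sum_cons] at hs key ⊢
  rw [if_neg (by omega), if_pos le_rfl, add_zero]
  constructor
  · exact lt_of_mul_lt_mul_left (a := m) (by omega) (Nat.zero_le _)
  · refine lt_of_mul_lt_mul_left (a := m) ?_ (Nat.zero_le _)
    rw [mul_add]; omega

lemma up_anti {i j : ℕ} (h : i ≤ j) (ν : Multiset ℕ) : up j ν ≤ up i ν := by
  induction j, h using Nat.le_induction with
  | base => exact le_rfl
  | succ j _ ih => have := up_succ j ν; omega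

lemma exists_centre {m d : ℕ} {ν : Multiset ℕ} (hm : 2 ≤ m) (hR : Reg m ν) (hs : ν.sum = m * d) :
    ∃ t, t + 2 ≤ m ∧ d < up (t + 1) ν ∧ up (t + 2) ν ≤ d := by
  obtain ⟨h1, h2⟩ := up_bounds hm hR hs
  have ex : ∃ t, up (t + 2) ν ≤ d := ⟨m - 2, by rw [Nat.sub_add_cancel hm]; exact h1.le⟩
  refine ⟨Nat.find ex, ?_, ?_, Nat.find_spec ex⟩
  · have := Nat.find_min' ex (show up (m - 2 + 2) ν ≤ d by rw [Nat.sub_add_cancel hm]; exact h1.le)
    omega
  · rcases h : Nat.find ex with _ | k
    · exact h2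
    · have := Nat.find_min ex (show k < Nat.find ex by omega)
      exact not_le.1 this

/-- `Good` one level up, except when `λ - d` has a zero entry -/
lemma good_succ {m d : ℕ} {ν : Multiset ℕ} (hm : 1 ≤ m) (hK : KAll m) (hev : Even d)
    (hR : Reg (m + 1) ν) (hs : ν.sum = (m + 1) * d) :
    Good (m + 1) d ν ∨ ∃ t, t + 2 ≤ m ∧ d < up (t + 1) ν ∧ up (t + 2) ν = d := by
  obtain ⟨t, h1, h2, h3⟩ := exists_centre (by omega) hR hs
  rcases h3.lt_or_eq with h3 | h3
  · exact Or.inl (merge1 hK hev hR hs (by omega) h3 h2).1.good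
  · refine Or.inr ⟨t, ?_, h2, h3⟩
    have := (up_bounds (by omega) hR hs).1
    by_contra h
    obtain rfl : m = t + 1 := by omega
    simp only [add_assoc, Nat.reduceAdd] at this; omega

lemma Good.kp' {m d t : ℕ} {ν : Multiset ℕ} (h : Good m d ν) (hR : Reg m ν) (ht : t < m)
    (hd : ¬ (up (t + 2) ν < d ∧ d < up t ν)) : Kp m d t ν :=
  h.kp ((hR _).2 (by omega)) ((hR _).2 (by omega)) (by
    change d ≤ up (t + 2) ν ∨ up t ν ≤ d
    omega)

/-- `Kp` one level up, except when the target entry is zero -/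
lemma kp_succ {m d t : ℕ} {ν : Multiset ℕ} (hm : 1 ≤ m) (hK : KAll m) (hG : GAll (m + 1))
    (hev : Even d) (hR : Reg (m + 1) ν) (hs : ν.sum = (m + 1) * d) (ht : t < m + 1)
    (hz : up (t + 1) ν ≠ d) : Kp (m + 1) d t ν := by
  by_cases hd : up (t + 2) ν < d ∧ d < up t ν
  swap
  · exact (hG d ν hev hR hs).kp' hR ht hd
  obtain ⟨b1, b2⟩ := up_bounds (by omega) hR hs
  rcases lt_or_gt_of_ne hz with h | h
  · cases t with
    | zero => simp only [zero_add] at h; omega
    | succ t => exact (merge1 hK hev hR hs (by omega) h hd.2).2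
  · refine (merge1 hK hev hR hs ?_ hd.1 h).1
    by_contra h'
    obtain rfl : t = m := by omega
    omega

theorem ind_step {m : ℕ} (hm : 1 ≤ m) (h0 : KAll m) (h1 : KAll (m + 1)) :
    GAll (m + 2) ∧ KAll (m + 2) := by
  have hG : GAll (m + 2) := by
    intro d ν hev hR hs
    rcases good_succ (by omega) h1 hev hR hs with h | ⟨t, a, b, c⟩
    · exact h
    · exact merge0 h0 hev hR hs (by omega) c b
  refine ⟨hG, fun d ν t hev hR hs ht c1 c2 => ?_⟩
  by_cases hz : up (t + 1) ν = d
  · obtain ⟨b1, b2⟩ := up_bounds (by omega) hR hs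
    cases t with
    | zero => simp only [zero_add] at hz; omega
    | succ t =>
      refine merge2 h0 hev hR hs ?_ hz c1 c2
      by_contra h'
      obtain rfl : t = m := by omega
      simp only [add_assoc, Nat.reduceAdd] at hz; omega
  · exact kp_succ (by omega) h1 hG hev hR hs ht hz

theorem all_of_base (g6 : GAll 6) (k6 : KAll 6) (g7 : GAll 7) (k7 : KAll 7) {m : ℕ} (hm : 6 ≤ m) :
    GAll m := by
  have : ∀ n, (GAll (6 + n) ∧ KAll (6 + n)) ∧ (GAll (6 + n + 1) ∧ KAll (6 + n + 1)) := by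
    intro n
    induction n with
    | zero => exact ⟨⟨g6, k6⟩, g7, k7⟩
    | succ n ih => exact ⟨ih.2, ind_step (m := 6 + n) (by omega) ih.1.2 ih.2.2⟩
  obtain ⟨n, hn⟩ := Nat.exists_eq_add_of_le hm
  exact hn ▸ (this n).1.1

end MP7ebc2a
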