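import Pool.Agent.Lib.MP_7ebc2a_al.Rep5

/-! Functions on the symmetric group given by products of minors of a Vandermonde matrix. -/

namespace MP7ebc2a.Ray
open Equiv Matrix

variable {R : Type} [CommRing R] {m : ℕ}

def VC (m : ℕ) (T : Multiset (List ℕ)) : Prop := ∀ c ∈ T, c.Nodup ∧ ∀ j ∈ c, j < m

def vd (y : ℕ → R) (l : List ℕ) : R := D (fun r j => y j ^ r) l

def ev (m : ℕ) (y : ℕ → R) (T : Multiset (List ℕ)) (w : Perm (Fin m)) : R :=
  E (fun r j => y (wa w j) ^ r) T

def Sp (m : ℕ) (y : ℕ → R) (α : ℕ → ℕ) (ν : Multiset ℕ) : Submodule R (Perm (Fin m) → R) :=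
  Submodule.span R {g | ∃ T, VC m T ∧ (∀ j < m, T.countP (j ∈ ·) = α j) ∧
    T.map List.length = ν ∧ g = ev m y T}

variable {y : ℕ → R} {α β : ℕ → ℕ} {ν μ : Multiset ℕ} {f g : Perm (Fin m) → R}

lemma sp_mul (hf : f ∈ Sp m y α ν) (hg : g ∈ Sp m y β μ) : f * g ∈ Sp m y (α + β) (ν + μ) := by
  have := Submodule.mul_mem_mul hf hg
  rw [Sp, Sp, Submodule.span_mul_span] at this
  refine Submodule.span_mono ?_ this
  rintro _ ⟨_, ⟨T, a1, a2, a3, rfl⟩, _, ⟨U, b1, b2, b3, rfl⟩, rfl⟩
  refine ⟨T + U, fun c hc => ?_, fun j hj => ?_, by rw [Multiset.map_add, a3, b3], ?_⟩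
  · rcases Multiset.mem_add.1 hc with h | h
    exacts [a1 c h, b1 c h]
  · rw [Multiset.countP_add, a2 j hj, b2 j hj]; rfl
  · ext w; simp [ev, E_add]

lemma sp_congr (hf : f ∈ Sp m y α ν) (h : ∀ j < m, α j = β j) : f ∈ Sp m y β ν := by
  refine Submodule.span_mono ?_ hf
  rintro _ ⟨T, a1, a2, a3, rfl⟩
  exact ⟨T, a1, fun j hj => (a2 j hj).trans (h j hj), a3, rfl⟩

lemma sp_prod {ι : Type} (s : Finset ι) (F : ι → Perm (Fin m) → R) (A : ι → ℕ → ℕ)
    (N : ι → Multiset ℕ) (h : ∀ t ∈ s, F t ∈ Sp m y (A t) (N t)) :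
    ∏ t ∈ s, F t ∈ Sp m y (∑ t ∈ s, A t) (∑ t ∈ s, N t) := by
  classical
  induction s using Finset.induction_on with
  | empty => exact Submodule.subset_span ⟨0, by simp [VC], by simp, by simp, by ext w; simp [ev]⟩
  | insert t s ht ih =>
    rw [Finset.prod_insert ht, Finset.sum_insert ht, Finset.sum_insert ht]
    exact sp_mul (h t (Finset.mem_insert_self _ _)) (ih fun u hu => h u (Finset.mem_insert_of_mem hu))

lemma sp_shift (hf : f ∈ Sp m y α ν) (c : Perm (Fin m)) :
    (fun w => f (w * c)) ∈ Sp m y (fun j => α (wa c⁻¹ j)) ν := by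
  induction hf using Submodule.span_induction with
  | mem g hg =>
    obtain ⟨T, a1, a2, a3, rfl⟩ := hg
    refine Submodule.subset_span ⟨T.map (List.map (wa c)), fun l hl => ?_, fun j hj => ?_, ?_, ?_⟩
    · obtain ⟨c', hc', rfl⟩ := Multiset.mem_map.1 hl
      refine ⟨(a1 c' hc').1.map (wa_inj c), fun j hj => ?_⟩
      obtain ⟨a, ha, rfl⟩ := List.mem_map.1 hj
      exact wa_lt c ((a1 c' hc').2 a ha)
    · beta_reduce
      rw [Multiset.countP_map, ← a2 _ (wa_lt c⁻¹ hj), Multiset.countP_eq_card_filter]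
      congr 1
      exact Multiset.filter_congr fun l _ => mem_map_wa c l j
    · rw [← a3, Multiset.map_map]
      exact Multiset.map_congr rfl fun l _ => List.length_map _
    · ext w; simp [ev, E_map, wa_mul]
  | zero => exact Submodule.zero_mem _
  | add a b _ _ ha hb => exact Submodule.add_mem _ ha hb
  | smul r a _ ha => exact Submodule.smul_mem _ r ha

lemma good_of {d : ℕ} (hf : f ∈ Sp m y (fun _ => d) ν) (h : ∑ w, f w ≠ 0) : Good m d ν := by
  by_contra hG
  apply h
  clear h
  induction hf using Submodule.span_induction with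
  | mem g hg =>
    obtain ⟨T, a1, a2, a3, rfl⟩ := hg
    by_contra h
    exact hG ⟨T, ⟨a1, a2⟩, a3, NZ_of (fun r j => y j ^ r) h⟩
  | zero => simp
  | add a b _ _ ha hb => simp [Finset.sum_add_distrib, ha, hb]
  | smul r a _ ha => simp [← Finset.mul_sum, ha]

lemma vd_eq' (y : ℕ → R) (l : List ℕ) : vd y l =
    ∏ i ∈ Finset.range l.length, ∏ k ∈ Finset.range i, (y (l.getD i 0) - y (l.getD k 0)) := by
  unfold vd D Dn
  have : (Matrix.of fun i j : Fin l.length => y (l.getD j 0) ^ (i : ℕ)) =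
      (Matrix.vandermonde fun j : Fin l.length => y (l.getD j 0))ᵀ := by
    ext i j; simp [Matrix.vandermonde]
  rw [this, det_transpose, det_vandermonde, Finset.prod_comm' (t' := Finset.univ)
    (s' := fun j => Finset.Iio j) (by simp), ← Fin.prod_univ_eq_prod_range
      (fun i => ∏ k ∈ Finset.range i, (y (l.getD i 0) - y (l.getD k 0)))]
  refine Finset.prod_congr rfl fun i _ => ?_
  refine Finset.prod_bij (fun k _ => (k : ℕ)) (fun k hk => by simpa using hk)
    (fun _ _ _ _ h => Fin.ext h) (fun k hk => ?_) fun _ _ => rfl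
  have := Finset.mem_range.1 hk
  exact ⟨⟨k, this.trans i.2⟩, by simpa [Fin.lt_def] using this, rfl⟩

/-- the product of the differences between one point and the points of a list -/
def pd (y : ℕ → R) (l : List ℕ) (a : ℕ) : R := (l.map fun x => y a - y x).prod

lemma vd_snoc' (y : ℕ → R) (l : List ℕ) (a : ℕ) : vd y (l ++ [a]) = vd y l * pd y l a := by
  rw [vd_eq', vd_eq', List.length_append, List.length_singleton, Finset.prod_range_succ]
  congr 1
  · refine Finset.prod_congr rfl fun i hi => Finset.prod_congr rfl fun k hk => ?_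
    have := Finset.mem_range.1 hi
    have := Finset.mem_range.1 hk
    rw [List.getD_append _ _ _ _ (by omega), List.getD_append _ _ _ _ (by omega)]
  · rw [pd, ← Fin.prod_univ_eq_prod_range (fun k => y ((l ++ [a]).getD l.length 0) -
      y ((l ++ [a]).getD k 0)), ← Fin.prod_univ_fun_getElem l fun x => y a - y x]
    refine Finset.prod_congr rfl fun k _ => ?_
    simp

lemma vd_two (y : ℕ → R) (l : List ℕ) (a b : ℕ) :
    vd y (l ++ [a] ++ [b]) = vd y l * pd y l a * pd y l b * (y b - y a) := by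
  rw [vd_snoc', vd_snoc']
  simp [pd, mul_assoc]

/-- the points are pairwise different -/
def Dis (m : ℕ) (y : ℕ → R) : Prop := ∀ i < m, ∀ j < m, y i = y j → i = j

lemma Dis.wa (h : Dis m y) (w : Perm (Fin m)) : Dis m fun j => y (wa w j) :=
  fun _ hi _ hj e => wa_inj w (h _ (wa_lt w hi) _ (wa_lt w hj) e)

lemma Dis.ne (h : Dis m y) {i j : ℕ} (hi : i < m) (hj : j < m) (e : i ≠ j) : y i - y j ≠ 0 :=
  fun e' => e (h i hi j hj (sub_eq_zero.1 e'))

variable [IsDomain R]

lemma pd_ne (h : Dis m y) {l : List ℕ} {a : ℕ} (hl : ∀ j ∈ l, j < m) (ha : a < m) (e : a ∉ l) :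
    pd y l a ≠ 0 := by
  refine List.prod_ne_zero fun h0 => ?_
  obtain ⟨x, hx, h0⟩ := List.mem_map.1 h0
  exact h.ne ha (hl x hx) (fun e' => e (e' ▸ hx)) h0

lemma vd_ne (h : Dis m y) (l : List ℕ) (h1 : l.Nodup) (hl : ∀ j ∈ l, j < m) : vd y l ≠ 0 := by
  induction l using List.reverseRecOn with
  | nil => simp [vd, D, Dn]
  | append_singleton l a ih =>
    rw [vd_snoc']
    rw [List.nodup_append] at h1
    exact mul_ne_zero (ih h1.1 fun j hj => hl j (by simp [hj]))
      (pd_ne h (fun j hj => hl j (by simp [hj])) (hl a (by simp))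
        fun e => h1.2.2 a e a (by simp) rfl)

lemma ev_ne (h : Dis m y) {T : Multiset (List ℕ)} (hT : VC m T) (w : Perm (Fin m)) :
    ev m y T w ≠ 0 := by
  refine Multiset.prod_ne_zero fun h0 => ?_
  obtain ⟨c, hc, h0⟩ := Multiset.mem_map.1 h0
  exact vd_ne (h.wa w) c (hT c hc).1 (hT c hc).2 h0

lemma len_filter (p : ℕ → Prop) [DecidablePred p] :
    ((List.range m).filter p).length = ∑ i ∈ Finset.range m, if p i then 1 else 0 := by
  induction m with
  | zero => simp
  | succ m ih =>
    rw [List.range_succ, List.filter_append, List.length_append, ih, Finset.sum_range_succ]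
    by_cases h : p m <;> simp [h]

lemma cyc (hm : 0 < m) (ν : Multiset ℕ) (h : ∀ x ∈ ν, x ≤ m) (S : ℕ) :
    ∃ T, VC m T ∧ T.map List.length = ν ∧
      ∀ i < m, T.countP (i ∈ ·) + cn m S i = cn m (S + ν.sum) i := by
  induction ν using Multiset.induction_on generalizing S with
  | empty => exact ⟨0, by simp [VC], by simp, by simp⟩
  | cons q Q ih =>
    obtain ⟨P, e0, e1, e2⟩ := ih (fun x hx => h x (Multiset.mem_cons_of_mem hx)) (S + q)
    have h7 := h q (Multiset.mem_cons_self _ _)
    have key : ∀ i < m, (if cn m S i < cn m (S + q) i then 1 else 0) + cn m S i =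
        cn m (S + q) i := fun i hi => by
      rcases h7.eq_or_lt with rfl | h7
      · have : cn q (S + q) i = cn q S i + 1 := by
          simp only [cn, Nat.add_div_right _ hm, Nat.add_mod_right]; omega
        rw [this, if_pos (by omega), add_comm]
      · have := cn_add S q hi
        rw [Nat.div_eq_of_lt h7] at this
        split_ifs <;> omega
    refine ⟨(List.range m).filter (fun i => cn m S i < cn m (S + q) i) ::ₘ P, fun c hc => ?_, ?_,
      fun i hi => ?_⟩
    · rcases Multiset.mem_cons.1 hc with rfl | hc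
      · exact ⟨List.nodup_range.filter _, fun j hj => List.mem_range.1 (List.mem_filter.1 hj).1⟩
      · exact e0 c hc
    · have := Finset.sum_congr rfl fun i hi => key i (Finset.mem_range.1 hi)
      rw [Finset.sum_add_distrib, cn_sum hm, cn_sum hm, ← len_filter] at this
      rw [Multiset.map_cons, e1]
      congr 1
      omega
    · have := e2 i hi
      have := key i hi
      rw [Multiset.countP_cons, Multiset.sum_cons, ← add_assoc S]
      simp only [List.mem_filter, List.mem_range, hi, true_and, decide_eq_true_eq]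
      omega

lemma sum_count {T : Multiset (List ℕ)} (hT : VC m T) :
    ∑ j ∈ Finset.range m, T.countP (j ∈ ·) = (T.map List.length).sum := by
  induction T using Multiset.induction_on with
  | empty => simp
  | cons c T ih =>
    have hc := hT c (Multiset.mem_cons_self _ _)
    simp only [Multiset.countP_cons, Finset.sum_add_distrib, Multiset.map_cons, Multiset.sum_cons,
      ih fun l hl => hT l (Multiset.mem_cons_of_mem hl)]
    rw [add_comm, ← Finset.card_filter, ← List.toFinset_card_of_nodup hc.1]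
    congr 2
    ext j
    simpa using hc.2 j

/-- there is a function of the given type that vanishes on `X` but not at the identity -/
def Kill (m : ℕ) (y : ℕ → R) (d : ℕ) (ν : Multiset ℕ) (X : Set (Perm (Fin m))) : Prop :=
  ∃ f ∈ Sp m y (fun _ => d) ν, f 1 ≠ 0 ∧ ∀ w ∈ X, f w = 0

lemma Kill.mul {d d' : ℕ} {X X' : Set (Perm (Fin m))} (h : Kill m y d ν X) (h' : Kill m y d' μ X') :
    Kill m y (d + d') (ν + μ) (X ∪ X') := by
  obtain ⟨f, a1, a2, a3⟩ := h
  obtain ⟨g, b1, b2, b3⟩ := h'
  refine ⟨f * g, sp_mul a1 b1, mul_ne_zero a2 b2, fun w hw => ?_⟩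
  rcases hw with hw | hw
  · simp [a3 w hw]
  · simp [b3 w hw]

lemma kill_empty (hm : 0 < m) (h : Dis m y) {d : ℕ} (h1 : ∀ x ∈ ν, x ≤ m) (h2 : ν.sum = m * d) :
    Kill m y d ν ∅ := by
  obtain ⟨T, a1, a2, a3⟩ := cyc hm ν h1 0
  refine ⟨ev m y T, Submodule.subset_span ⟨T, a1, fun j hj => ?_, a2, rfl⟩, ev_ne h a1 1, by simp⟩
  have := a3 j hj
  rw [zero_add, h2, cn_mul hm] at this
  simpa [cn] using this

lemma Kill.good {d : ℕ} {X : Set (Perm (Fin m))} (h : Kill m y d ν X) (hX : ∀ w ≠ 1, w ∈ X) :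
    Good m d ν := by
  obtain ⟨f, a1, a2, a3⟩ := h
  refine good_of a1 ?_
  rwa [Finset.sum_eq_single 1 (fun w _ hw => a3 w (hX w hw)) (by simp)]

end MP7ebc2a.Ray
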