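import Pool.Agent.Lib.MP_7ebc2a_al.Ray2

/-! The choice of the points and of the pencils; invariants away from two rays. -/

namespace MP7ebc2a.Ray
open Equiv Matrix

section
variable {R : Type} [CommRing R] [IsDomain R] {m : ℕ} {y : ℕ → R}

/-- the point can be moved to any other point -/
def Free (y : ℕ → R) (l : ℕ) : Prop :=
  ∀ k ≠ l, ∃ φ : R →+* R, φ (y l) = y k ∧ ∀ j ≠ l, φ (y j) = y j

lemma Free.key {l k : ℕ} (hf : Free y l) (h : Dis m y) (hk : k < m) (e : k ≠ l) :
    ∃ φ : R →+* R, φ (y k - y l) = 0 ∧ ∀ u < m, ∀ v < m, u ≠ v → ¬(u = l ∧ v = k) →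
      ¬(u = k ∧ v = l) → φ (y u - y v) ≠ 0 := by
  obtain ⟨φ, a1, a2⟩ := hf k e
  refine ⟨φ, by rw [map_sub, a1, a2 k e, sub_self], fun u hu v hv h1 h2 h3 => ?_⟩
  rw [map_sub]
  by_cases b1 : u = l
  · rw [b1, a1, a2 v (by omega)]
    exact h.ne hk hv (by omega)
  by_cases b2 : v = l
  · rw [b2, a1, a2 u b1]
    exact h.ne hu hk (by omega)
  rw [a2 u b1, a2 v b2]
  exact h.ne hu hv h1

lemma pi_key (hm : 4 ≤ m) (h : Dis m y) {l a b : ℕ} (hf : Free y l) (ha : a < m) (hb : b < m)
    (e1 : a ≠ l) (e2 : b ≠ l) (z : R) : pi m y l * z ≠ pi m y a * pi m y b := by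
  obtain ⟨k, k1, k2⟩ := Finset.exists_mem_notMem_of_card_lt_card (s := {l, a, b})
    (t := Finset.range m) (by have := Finset.card_le_three (a := l) (b := a) (c := b); simp; omega)
  simp only [Finset.mem_insert, Finset.mem_singleton, not_or, Finset.mem_range] at k1 k2
  obtain ⟨φ, a1, a2⟩ := hf.key h k1 k2.1
  have h1 : φ (pi m y l) = 0 := by
    rw [pi, map_prod]
    refine Finset.prod_eq_zero (i := k) (by simp [k1, k2.1]) ?_
    rw [← neg_sub, map_neg, a1, neg_zero]
  have h2 : ∀ u < m, u ≠ l → u ≠ k → φ (pi m y u) ≠ 0 := fun u hu b1 b2 => by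
    rw [pi, map_prod]
    refine Finset.prod_ne_zero_iff.2 fun j hj => ?_
    simp only [Finset.mem_erase, Finset.mem_range] at hj
    exact a2 u hu j hj.2 (by omega) (by omega) (by omega)
  intro e
  have := congrArg φ e
  rw [map_mul, map_mul, h1, zero_mul] at this
  exact mul_ne_zero (h2 a ha e1 (by omega)) (h2 b hb e2 (by omega)) this.symm

lemma good_free (hm : 4 ≤ m) (h : Dis m y) (hf : ∀ l < m, Free y l) {ν : Multiset ℕ} {d : ℕ}
    (h0 : 2 * m ^ 2 ≤ ν.count 1 ∧ 2 * m ^ 2 ≤ ν.count (m - 1)) (h1 : ∀ x ∈ ν, x ≤ m)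
    (h2 : ν.sum = m * d) : Good m d ν := by
  let o : Fin m := ⟨0, by omega⟩
  let i : Fin m := ⟨1, by omega⟩
  refine good_pairs (ι := (Fin m × Fin m) ⊕ (Fin m × Fin m)) (by omega) h (fun _ => o)
    (Sum.elim (fun _ => i) Prod.fst) (Sum.elim Prod.fst fun _ => o) (Sum.elim Prod.snd Prod.snd)
    Finset.univ (fun w hw => ?_) (by simpa [two_mul, sq] using h0) h1 h2
  by_cases e : w o = o
  · obtain ⟨j, hj⟩ : ∃ j, w j ≠ j := by
      by_contra! hc
      exact hw (Equiv.ext hc)
    have e1 : j ≠ o := fun e' => hj (e' ▸ e)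
    refine ⟨.inr (j, w j), Finset.mem_univ _, fun e2 => ?_, e, rfl⟩
    exact pi_key hm h (hf j j.2) (w j).2 o.2 (Fin.val_ne_of_ne hj) (Fin.val_ne_of_ne e1.symm) _
      ((mul_comm _ _).trans e2)
  · exact ⟨.inl (w o, w i), Finset.mem_univ _, pi_key hm h (hf _ (w o).2) (w i).2 o.2
      (Fin.val_ne_of_ne (w.injective.ne (by simp [o, i]))) (Fin.val_ne_of_ne (Ne.symm e)) _,
      rfl, rfl⟩

lemma surv1 (h : Dis m y) {q : Fin 4 → ℕ} (hq : Function.Injective q) (hm : ∀ i, q i < m)
    (hf : Free y (q 0)) (z : R) : 1 * cA y q + z * cB y q ≠ 0 := by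
  obtain ⟨φ, a1, a2⟩ := hf.key h (hm 2) (hq.ne (by decide))
  intro e
  have := congrArg φ e
  rw [one_mul, cA, cB, map_add, map_mul, map_mul, map_mul, a1, zero_mul, mul_zero, add_zero,
    map_zero] at this
  exact mul_ne_zero (a2 _ (hm _) _ (hm _) (hq.ne (by decide)) (by simp [hq.eq_iff])
    (by simp [hq.eq_iff])) (a2 _ (hm _) _ (hm _) (hq.ne (by decide)) (by simp [hq.eq_iff])
    (by simp [hq.eq_iff])) this

lemma surv2 (h4 : 4 ≤ m) (h : Dis m y) {q : Fin 4 → ℕ} (hq : Function.Injective q)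
    (hm : ∀ i, q i < m) (hf : Free y 0) (e0 : q 0 = 0 ∨ 3 ≤ q 3)
    (e1 : ¬(q 0 = 0 ∧ q 1 = 1 ∧ q 2 = 2)) :
    cB y q * cA y Fin.val + -cA y q * cB y Fin.val ≠ 0 := by
  have n01 : q 0 ≠ q 1 := hq.ne (by decide)
  have n02 : q 0 ≠ q 2 := hq.ne (by decide)
  have n03 : q 0 ≠ q 3 := hq.ne (by decide)
  have n12 : q 1 ≠ q 2 := hq.ne (by decide)
  have n13 : q 1 ≠ q 3 := hq.ne (by decide)
  have n23 : q 2 ≠ q 3 := hq.ne (by decide)
  intro e
  change cB y q * ((y 1 - y 0) * (y 3 - y 2)) + -cA y q * ((y 2 - y 0) * (y 3 - y 1)) = 0 at e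
  by_cases c : (q 0 = 0 ∧ q 1 = 1) ∨ (q 0 = 1 ∧ q 1 = 0)
  · obtain ⟨φ, a1, a2⟩ := hf.key h (k := 2) (by omega) (by omega)
    have := congrArg φ e
    simp only [cB, map_add, map_mul, a1, zero_mul, mul_zero, add_zero, map_zero] at this
    exact mul_ne_zero (mul_ne_zero (a2 _ (hm _) _ (hm _) (by omega) (by omega) (by omega))
      (a2 _ (hm _) _ (hm _) (by omega) (by omega) (by omega)))
      (mul_ne_zero (a2 _ (by omega) _ (by omega) (by omega) (by omega) (by omega))
        (a2 _ (by omega) _ (by omega) (by omega) (by omega) (by omega))) this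
  · obtain ⟨φ, a1, a2⟩ := hf.key h (k := 1) (by omega) (by omega)
    have := congrArg φ e
    simp only [cA, map_add, map_mul, map_neg, a1, zero_mul, mul_zero, zero_add, map_zero, neg_mul,
      neg_eq_zero] at this
    exact mul_ne_zero (mul_ne_zero (a2 _ (hm _) _ (hm _) (by omega) (by omega) (by omega))
      (a2 _ (hm _) _ (hm _) (by omega) (by omega) (by omega)))
      (mul_ne_zero (a2 _ (by omega) _ (by omega) (by omega) (by omega) (by omega))
        (a2 _ (by omega) _ (by omega) (by omega) (by omega) (by omega))) this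

/-- three consecutive letters and one more -/
def fr (t e : ℕ) (i : Fin 4) : ℕ := if i = 3 then e else i + t

lemma surv3 (h : Dis m y) {t e : ℕ} (ht : 3 + t < m) (he : e < m) (h1 : e ≠ 3 + t) :
    cB y (fr t e) * cA y (fun i => i + t) + -cA y (fr t e) * cB y (fun i => i + t) ≠ 0 := by
  change (y (2 + t) - y (0 + t)) * (y e - y (1 + t)) * ((y (1 + t) - y (0 + t)) *
    (y (3 + t) - y (2 + t))) + -((y (1 + t) - y (0 + t)) * (y e - y (2 + t))) *
      ((y (2 + t) - y (0 + t)) * (y (3 + t) - y (1 + t))) ≠ 0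
  intro e0
  refine mul_ne_zero (mul_ne_zero (h.ne (i := 2 + t) (j := 0 + t) (by omega) (by omega) (by omega))
    (h.ne (i := 1 + t) (j := 0 + t) (by omega) (by omega) (by omega)))
    (mul_ne_zero (h.ne (i := 2 + t) (j := 1 + t) (by omega) (by omega) (by omega))
      (h.ne ht he h1.symm)) ?_
  linear_combination e0

lemma good_mid {n p : ℕ} [Fact p.Prime] (hn : n = 1 ∧ m ≤ 6 ∨ n = 3) (hm : n + 4 ≤ m)
    (hp : p ≤ 2 * m) (h : Dis m y) (hf : ∀ l < n, Free y l) (ι : ZMod p →+* R)
    (hy : ∀ j, n ≤ j → y j = ι j) {ν : Multiset ℕ} {d : ℕ}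
    (h0 : 216 * m ^ 2 ≤ ν.countP fun x => 2 ≤ x ∧ x + 2 ≤ m) (h1 : ∀ x ∈ ν, x ≤ m)
    (h2 : ν.sum = m * d) : Good m d ν := by
  have : NeZero m := ⟨by omega⟩
  let A := Finset.powersetCard 4 (Finset.range (n + 4))
  let B := Fintype.piFinset fun i : Fin 4 =>
    if (i : ℕ) < n then Finset.univ.filter fun j : Fin m => (j : ℕ) < n else Finset.univ
  let o : A → Fin 4 ↪o ℕ := fun S => S.1.orderEmbOfFin (Finset.mem_powersetCard.1 S.2).2
  have ho : ∀ S i, o S i < m := fun S i => by
    have := Finset.mem_range.1 ((Finset.mem_powersetCard.1 S.2).1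
      (S.1.orderEmbOfFin_mem (Finset.mem_powersetCard.1 S.2).2 i))
    exact this.trans_le hm
  have z : (Equiv.addRight (0 : Fin m) : Perm (Fin m)) = 1 := by ext; simp
  have z' : ∀ q : Fin 4 → ℕ, wa (1 : Perm (Fin m)) ∘ q = q := fun q => funext fun i => wa_one _
  refine good_blocks (ι := (A × ZMod p) ⊕ B ⊕ Fin m) h
    (Sum.elim (fun S => o S.1) fun _ => Fin.val) ?_ ?_
    (Sum.elim (fun S _ => (1, -ι S.2)) (Sum.elim
      (fun q _ => (cB y fun i => q.1 i, -cA y fun i => q.1 i))
      fun e t => (cB y (fr t e), -cA y (fr t e)))) Finset.univ (fun w hw => ?_)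
    (le_trans ?_ h0) h1 h2
  · rintro (S | _)
    exacts [(o S.1).injective, Fin.val_injective]
  · rintro (S | _) i
    exacts [ho S.1 i, by have := i.2; dsimp; omega]
  · by_cases c1 : ∃ l < n, n ≤ wa w l
    · obtain ⟨l, l1, l2⟩ := c1
      have b1 := Finset.card_filter_add_card_filter_not (s := Finset.range (n + 4))
        fun j => n ≤ wa w j
      have b2 := Finset.card_le_card_of_injOn (s := (Finset.range (n + 4)).filter
        fun j => ¬n ≤ wa w j) (t := Finset.range n) (wa w)
        (fun j hj => by simpa using (Finset.mem_filter.1 hj).2) (wa_inj w).injOn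
      rw [Finset.card_range] at b1 b2
      obtain ⟨S, s1, s2, s3⟩ := Finset.exists_subsuperset_card_eq (s := {l})
        (t := (Finset.range (n + 4)).filter fun j => n ≤ wa w j) (n := 4)
        (by simp [l2]; omega) (by simp) (by omega)
      let S' : A := ⟨S, Finset.mem_powersetCard.2 ⟨s2.trans (Finset.filter_subset _ _), s3⟩⟩
      have b3 : ∀ i, y (wa w (o S' i)) = ι (wa w (o S' i) : ℕ) := fun i =>
        hy _ (Finset.mem_filter.1 (s2 (S.orderEmbOfFin_mem s3 i))).2
      have b4 : o S' 0 < n := by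
        obtain ⟨i, hi⟩ : l ∈ Set.range (o S') := by
          rw [Finset.range_orderEmbOfFin]; exact s1 (Finset.mem_singleton_self l)
        exact ((o S').monotone (Fin.zero_le i)).trans_lt (hi ▸ l1)
      have b5 : cA y (wa w ∘ o S') = ι (cA (fun j => (j : ZMod p)) (wa w ∘ o S')) := by
        simp [cA, b3]
      have b6 : cB y (wa w ∘ o S') = ι (cB (fun j => (j : ZMod p)) (wa w ∘ o S')) := by
        simp [cB, b3]
      have b7 : cB (fun j => (j : ZMod p)) (wa w ∘ o S') ≠ 0 := fun e =>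
        cB_ne h ((wa_inj w).comp (o S').injective) (fun i => wa_lt w (ho S' i))
          (by rw [b6, e, map_zero])
      refine ⟨.inl (S', cA (fun j => (j : ZMod p)) (wa w ∘ o S') /
        cB (fun j => (j : ZMod p)) (wa w ∘ o S')), Finset.mem_univ _, 0, ?_, ?_⟩
      · rw [z, pen, z']
        exact surv1 h (o S').injective (ho S') (hf _ b4) _
      · rw [z, mul_one, pen]
        simp only [Sum.elim_inl]
        rw [b5, b6, neg_mul, ← map_mul, div_mul_cancel₀ _ b7]
        simp
    push Not at c1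
    by_cases c2 : wa w 0 = 0 ∧ wa w 1 = 1 ∧ wa w 2 = 2
    · have ex : ∃ j, wa w j ≠ j := by
        by_contra! hc
        exact hw (Equiv.ext fun j => Fin.ext ((wa_coe w j).symm.trans (hc j)))
      have j1 := Nat.find_spec ex
      have j2 : ∀ i < Nat.find ex, wa w i = i := fun i hi => not_not.1 (Nat.find_min ex hi)
      generalize Nat.find ex = j at j1 j2
      have j3 : j < m := by
        by_contra hc
        exact j1 (dif_neg hc)
      obtain ⟨t, rfl⟩ : ∃ t, j = 3 + t := Nat.exists_eq_add_of_le (by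
        by_contra hc
        obtain rfl | rfl | rfl : j = 0 ∨ j = 1 ∨ j = 2 := by omega
        all_goals omega)
      let t' : Fin m := ⟨t, by omega⟩
      have b1 : wa (Equiv.addRight t') ∘ (Fin.val : Fin 4 → ℕ) = fun i : Fin 4 => (i : ℕ) + t := by
        funext i
        have := i.2
        rw [Function.comp_apply, wa, dif_pos (by omega)]
        simp only [Equiv.coe_addRight, Fin.val_add, t']
        exact Nat.mod_eq_of_lt (by omega)
      have b2 : wa (w * Equiv.addRight t') ∘ (Fin.val : Fin 4 → ℕ) = fr t (wa w (3 + t)) := by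
        funext i
        rw [Function.comp_apply, wa_mul, show wa (Equiv.addRight t') i = i + t from congrFun b1 i,
          fr]
        split_ifs with e
        · rw [e]; rfl
        · exact j2 _ (by have := i.2; have := Fin.val_ne_of_ne e; dsimp at this; omega)
      refine ⟨.inr (.inr ⟨wa w (3 + t), wa_lt w j3⟩), Finset.mem_univ _, t', ?_, ?_⟩
      · simp only [pen, Sum.elim_inr, b1]
        exact surv3 h j3 (wa_lt w j3) j1
      · simp only [pen, Sum.elim_inr, b2, t']
        ring
    · refine ⟨.inr (.inl ⟨fun i => ⟨wa w i, wa_lt w (by have := i.2; omega)⟩,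
        Fintype.mem_piFinset.2 fun i => ?_⟩), Finset.mem_univ _, 0, ?_, ?_⟩
      · split_ifs with e
        · simpa using c1 _ e
        · exact Finset.mem_univ _
      · simp only [pen, Sum.elim_inr, Sum.elim_inl, z, z']
        refine surv2 (by omega) h ((wa_inj w).comp Fin.val_injective)
          (fun i => wa_lt w (by have := i.2; omega)) (hf 0 (by omega)) ?_ c2
        change wa w 0 = 0 ∨ 3 ≤ wa w 3
        have n : ∀ a b, a ≠ b → wa w a ≠ wa w b := fun a b e => (wa_inj w).ne e
        have := n 0 1; have := n 0 2; have := n 0 3; have := n 1 2; have := n 1 3; have := n 2 3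
        have := c1 0; have := c1 1; have := c1 2
        omega
      · simp only [pen, Sum.elim_inr, Sum.elim_inl, z, mul_one, Function.comp_def]
        ring
  · have b1 : A.card ≤ 35 := by
      rw [Finset.card_powersetCard, Finset.card_range]
      rcases hn with ⟨rfl, _⟩ | rfl <;> decide
    have b2 : B.card ≤ 36 * m := by
      rw [Fintype.card_piFinset, Fin.prod_univ_four]
      have := card_lt_fin (N := m) (a := n) (by omega)
      rcases hn with ⟨rfl, h6⟩ | rfl
      · simp only [Fin.isValue, Fin.coe_ofNat_eq_mod]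
        norm_num at this
        norm_num [this]
        nlinarith [Nat.mul_le_mul h6 h6]
      · simp only [Fin.isValue, Fin.coe_ofNat_eq_mod]
        norm_num [this]
        omega
    simp only [Finset.card_univ, Fintype.card_sum, Fintype.card_prod, Fintype.card_coe, ZMod.card,
      Fintype.card_fin]
    have : A.card * p ≤ 35 * (2 * m) := Nat.mul_le_mul b1 hp
    nlinarith

end

open MvPolynomial in
/-- `n` independent points and points of the prime field -/
noncomputable def pts (p n : ℕ) (j : ℕ) : MvPolynomial ℕ (ZMod p) := if j < n then X j else C j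

open MvPolynomial in
lemma pts_free (p : ℕ) {n l : ℕ} (hl : l < n) : Free (pts p n) l := by
  intro k _
  refine ⟨(aeval (Function.update X l (pts p n k))).toRingHom, by simp [pts, hl], fun j hj => ?_⟩
  by_cases h : j < n
  · simp [pts, h, hj]
  · rw [show pts p n j = C (j : ZMod p) from if_neg h]
    exact algHom_C _ _

open MvPolynomial in
lemma pts_dis {p : ℕ} [Fact p.Prime] (n : ℕ) {m : ℕ} (h : m ≤ p) : Dis m (pts p n) := by
  intro i hi j hj e
  have key : ∀ (a : ℕ) (c : ZMod p), (X a : MvPolynomial ℕ (ZMod p)) ≠ C c := fun a c e => by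
    have := congrArg totalDegree e
    simp at this
  unfold pts at e
  split_ifs at e
  · exact X_injective e
  · exact absurd e (key _ _)
  · exact absurd e.symm (key _ _)
  · exact Nat.ModEq.eq_of_lt_of_lt ((ZMod.natCast_eq_natCast_iff _ _ _).1 (C_injective _ _ e))
      (by omega) (by omega)

theorem good_far {m d : ℕ} (hm : 5 ≤ m) {ν : Multiset ℕ}
    (h0 : 216 * m ^ 2 ≤ ν.countP (fun x => 2 ≤ x ∧ x + 2 ≤ m) ∨
      2 * m ^ 2 ≤ ν.count 1 ∧ 2 * m ^ 2 ≤ ν.count (m - 1)) (h1 : ∀ x ∈ ν, x ≤ m)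
    (h2 : ν.sum = m * d) : Good m d ν := by
  obtain ⟨p, hp, p1, p2⟩ := Nat.exists_prime_lt_and_le_two_mul m (by omega)
  have := Fact.mk hp
  rcases h0 with h0 | h0
  · obtain ⟨n, n1, n2⟩ : ∃ n, (n = 1 ∧ m ≤ 6 ∨ n = 3) ∧ n + 4 ≤ m := by
      by_cases h : m ≤ 6
      exacts [⟨1, by omega⟩, ⟨3, by omega⟩]
    exact good_mid n1 n2 p2 (pts_dis n p1.le) (fun l hl => pts_free p hl) MvPolynomial.C
      (fun j hj => if_neg (by omega)) h0 h1 h2
  · exact good_free (by omega) (pts_dis m p1.le) (fun l hl => pts_free p hl) h0 h1 h2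

theorem invariant_far {m : ℕ} (hm : 5 ≤ m) (lam : Fin m → ℕ) (hl : Antitone lam)
    (hd : m ∣ ∑ i, lam i) (a b c e : Fin m) (ha : (a : ℕ) = 0) (hb : (b : ℕ) = 1)
    (hc : (c : ℕ) = m - 2) (he : (e : ℕ) = m - 1)
    (h1 : lam c + 218 * m ^ 2 ≤ lam a) (h2 : lam e + 218 * m ^ 2 ≤ lam b)
    {V : Type*} [AddCommGroup V] [Module ℂ V]
    (ρ : Representation ℂ (GL (Fin m) ℂ) V) (hp : IsPolynomialRep ρ) [ρ.IsIrreducible]
    (hw : HasHighestWeight ρ lam) :
    ∃ v ≠ 0, ∀ n ∈ Subgroup.normalizer (torus m), ρ (SpecialLinearGroup.toGL n) v = v := by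
  obtain ⟨d, hd⟩ := hd
  have hN' : ∀ i, lam i ≤ ∑ i, lam i := fun i =>
    Finset.single_le_sum (fun _ _ => Nat.zero_le _) (Finset.mem_univ i)
  generalize hN : ∑ i, lam i = N at hN'
  obtain ⟨Z, z1, τ, z2, z3⟩ := fill_of_good (lam := lam) (d := d) (N := N) (e := d + 1)
    ⟨d + 1, by ring⟩ (by
      refine good_far hm ?_ (fun x hx => ?_) ?_
      · have b1 := count_window hl hN' b c (fun x => 2 ≤ x ∧ x + 2 ≤ m) (fun x _ _ => by omega)
          (Multiset.replicate (d + 1 + 1) m)
        have b2 := count_window hl hN' a b (1 = ·) (fun x _ _ => by omega)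
          (Multiset.replicate (d + 1 + 1) m)
        have b3 := count_window hl hN' c e (m - 1 = ·) (fun x _ _ => by omega)
          (Multiset.replicate (d + 1 + 1) m)
        unfold Multiset.count
        omega
      · rcases Multiset.mem_add.1 hx with h | h
        · obtain ⟨k, _, rfl⟩ := Multiset.mem_map.1 h
          exact colLen_le _ _
        · exact (Multiset.eq_of_mem_replicate h).le
      · rw [Multiset.sum_add, Multiset.sum_replicate, mul_add, ← hd, smul_eq_mul, mul_comm]
        congr 1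
        change ∑ k : Fin N, colLen lam k = _
        simp only [colLen, Finset.card_filter]
        rw [Finset.sum_comm]
        refine Finset.sum_congr rfl fun i _ => ?_
        rw [← Finset.card_filter, card_lt_fin (hN' i)])
  refine invariant_of_Phi ρ hp hw _ (fun i => ?_) Z z1 τ z2 z3
  simp only [lt_colLen hl]
  exact card_lt_fin (hN' i)

end MP7ebc2a.Ray
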