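import Pool.Agent.Lib.MP_7ebc2a_al.Ray3

/-! From an invariant vector to a filling with nonzero symmetrisation. -/

namespace MP7ebc2a.Ray
open Equiv Matrix

variable {m : ℕ} {V : Type*} [AddCommGroup V] [Module ℂ V]

lemma exists_mon (w : Perm (Fin m)) (u : Fin m → ℂ) (h : ((Perm.sign w : ℤ) : ℂ) * ∏ j, u j = 1) :
    ∃ n ∈ Subgroup.normalizer (torus m),
      ∀ A : Matrix (Fin m) (Fin m) ℂ, A * n.val = A.submatrix id w * diagonal u := by
  let P : Matrix (Fin m) (Fin m) ℂ := (1 : Matrix (Fin m) (Fin m) ℂ).submatrix id w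
  have hP : ∀ A : Matrix (Fin m) (Fin m) ℂ, A * P = A.submatrix id w := fun A =>
    mul_submatrix_one (Equiv.refl _) w A
  let n : SpecialLinearGroup (Fin m) ℂ := ⟨P * diagonal u, by
    rw [det_mul, det_permute', det_diagonal]; simpa using h⟩
  have e : ∀ a : Fin m → ℂ, diagonal a * n.val = n.val * diagonal (a ∘ w) := fun a => by
    ext i j
    simp only [n, P, diagonal_mul, mul_diagonal, submatrix_apply, id, one_apply,
      Function.comp_apply]
    split_ifs with c
    · rw [c]; ring
    · simp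
  have mv : ∀ a b : SpecialLinearGroup (Fin m) ℂ, (a * b).val = a.val * b.val := fun _ _ => rfl
  have ov : (1 : SpecialLinearGroup (Fin m) ℂ).val = 1 := rfl
  refine ⟨n, Subgroup.mem_set_normalizer_iff.2 fun t => ⟨fun ht => ?_, fun ht => ?_⟩,
    fun A => by rw [← hP, mul_assoc]⟩
  · have e1 := e (t.val.diag ∘ w.symm)
    rw [show (t.val.diag ∘ w.symm) ∘ w = t.val.diag by ext; simp, IsDiag.diagonal_diag ht] at e1
    have : (n * t * n⁻¹).val = diagonal (t.val.diag ∘ w.symm) := by
      rw [mv, mv, ← e1, mul_assoc, ← mv, mul_inv_cancel, ov, mul_one]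
    exact show IsDiag _ from this ▸ isDiag_diagonal _
  · have e1 := e (n * t * n⁻¹).val.diag
    rw [IsDiag.diagonal_diag ht, ← mv, inv_mul_cancel_right] at e1
    have : t.val = diagonal ((n * t * n⁻¹).val.diag ∘ w) := by
      have : n⁻¹.val * _ = n⁻¹.val * _ := congrArg (n⁻¹.val * ·) e1
      rwa [← mv, inv_mul_cancel_left, ← mul_assoc, ← mv, inv_mul_cancel, ov, one_mul] at this
    exact show IsDiag _ from this ▸ isDiag_diagonal _

lemma sum_content {N : ℕ} {ν : Fin N → ℕ} (τ : Fill m ν) : ∑ j, content τ j = ∑ k, ν k := by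
  unfold content
  rw [Finset.sum_comm]
  exact Finset.sum_congr rfl fun k _ => by
    rw [← Finset.card_eq_sum_card_fiberwise (fun _ _ => Finset.mem_univ _)]; simp

theorem phi_of_invariant (hm : 0 < m) (ρ : Representation ℂ (GL (Fin m) ℂ) V)
    (hp : IsPolynomialRep ρ)
    [ρ.IsIrreducible] {lam : Fin m → ℕ} (hw : HasHighestWeight ρ lam) {N : ℕ} {ν : Fin N → ℕ}
    (hν : ∀ k, ν k ≤ m)
    (hl : ∀ i : Fin m, (Finset.univ.filter fun k => (i : ℕ) < ν k).card = lam i) {d : ℕ}
    (hd : ∑ k, ν k = m * d) {v : V} (h1 : v ≠ 0)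
    (h2 : ∀ n ∈ Subgroup.normalizer (torus m), ρ (SpecialLinearGroup.toGL n) v = v) :
    ∃ (A : Matrix (Fin m) (Fin m) ℂ) (τ : Fill m ν), A.det ≠ 0 ∧ (∀ j, content τ j = d) ∧
      Phi hν d A τ ≠ 0 := by
  classical
  obtain ⟨v0, h0, hv⟩ := hw
  obtain ⟨ξ, hξ⟩ := xi_eq ρ hp h0 hv hν hl
  let Ψ : V →ₗ[ℂ] (GL (Fin m) ℂ → ℂ) := LinearMap.pi fun g => ξ ∘ₗ ρ g
  have hΨ : ∀ x g, Ψ x g = ξ (ρ g x) := fun _ _ => rfl
  have tr : ∀ x g h, Ψ (ρ h x) g = Ψ x (g * h) := fun x g h => by simp [hΨ]
  have inj : Function.Injective Ψ := by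
    let K : Subrepresentation ρ := ⟨LinearMap.ker Ψ, fun h x hx => by
      ext g
      rw [tr, LinearMap.mem_ker.1 hx]; rfl⟩
    rcases eq_bot_or_eq_top K with h | h
    · exact LinearMap.ker_eq_bot.1 (congrArg Subrepresentation.toSubmodule h)
    · have : v0 ∈ LinearMap.ker Ψ := by
        rw [show LinearMap.ker Ψ = ⊤ from congrArg Subrepresentation.toSubmodule h]; trivial
      have := congrFun (LinearMap.mem_ker.1 this) 1
      rw [hΨ, hξ] at this
      have e := EE_LU hν (1 : Matrix (Fin m) (Fin m) ℂ) 1 (fun i j h => one_apply_ne h.ne)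
        (by simp) (fun i j h => one_apply_ne h.ne')
      simp at this
      simp [this] at e
  have sp : ∀ x, ∃ a : Fill m ν → ℂ, ∀ g, Ψ x g = ∑ τ, a τ * EE hν g.val τ := by
    let K : Subrepresentation ρ := ⟨Submodule.span ℂ (Set.range fun h => ρ h v0), fun h x hx => by
      refine (Submodule.span_le (s := Set.range fun h => ρ h v0)
        (p := (Submodule.span ℂ (Set.range fun h => ρ h v0)).comap (ρ h))).2 ?_ hx
      rintro _ ⟨g, rfl⟩
      exact Submodule.subset_span ⟨h * g, by simp⟩⟩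
    have hK : Submodule.span ℂ (Set.range fun h => ρ h v0) = ⊤ := by
      rcases eq_bot_or_eq_top K with h | h
      · have : v0 ∈ Submodule.span ℂ (Set.range fun h => ρ h v0) :=
          Submodule.subset_span ⟨1, by simp⟩
        rw [show Submodule.span ℂ (Set.range fun h => ρ h v0) = ⊥ from
          congrArg Subrepresentation.toSubmodule h] at this
        exact absurd this h0
      · exact congrArg Subrepresentation.toSubmodule h
    intro x
    have hx : x ∈ Submodule.span ℂ (Set.range fun h => ρ h v0) := hK ▸ trivial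
    induction hx using Submodule.span_induction with
    | mem _ hx =>
      obtain ⟨h, rfl⟩ := hx
      have f0 : (∏ k, ((ν k).factorial : ℂ)) ≠ 0 :=
        Finset.prod_ne_zero_iff.2 fun k _ => Nat.cast_ne_zero.2 (Nat.factorial_ne_zero _)
      refine ⟨fun τ => EE hν h.valᵀ τ / ∏ k, ((ν k).factorial : ℂ), fun g => ?_⟩
      rw [tr, hΨ, hξ, Units.val_mul]
      refine mul_left_cancel₀ f0 ?_
      rw [EE_mul, Finset.mul_sum]
      exact Finset.sum_congr rfl fun τ _ => by field_simp
    | zero => exact ⟨0, by simp⟩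
    | add x y _ _ hx hy =>
      obtain ⟨a, ha⟩ := hx
      obtain ⟨b, hb⟩ := hy
      exact ⟨a + b, fun g => by simp [ha, hb, add_mul, Finset.sum_add_distrib]⟩
    | smul c x _ hx =>
      obtain ⟨a, ha⟩ := hx
      exact ⟨c • a, fun g => by simp [ha, Finset.mul_sum, mul_assoc]⟩
  obtain ⟨a, ha⟩ := sp v
  have mon : ∀ (w : Perm (Fin m)) (u : Fin m → ℂ), ((Perm.sign w : ℤ) : ℂ) * ∏ j, u j = 1 →
      ∀ g : GL (Fin m) ℂ, ∃ g' : GL (Fin m) ℂ, Ψ v g = Ψ v g' ∧
        g'.val = g.val.submatrix id w * diagonal u := fun w u h g => by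
    obtain ⟨n, n1, n2⟩ := exists_mon w u h
    exact ⟨g * SpecialLinearGroup.toGL n, by rw [← tr, h2 n n1], n2 _⟩
  let χ : (Fin m → ℕ) → ((Fin m → ℂˣ) →* ℂ) := fun c =>
    ⟨⟨fun t => ∏ j, (t j : ℂ) ^ (m * c j), by simp⟩, fun s t => by
      simp [mul_pow, Finset.prod_mul_distrib]⟩
  have hχ : ∀ c, χ c = χ (fun _ => d) ↔ ∀ j, c j = d := by
    refine fun c => ⟨fun h j => ?_, fun h => by rw [funext h]⟩
    have := DFunLike.congr_fun h (Pi.mulSingle j (Units.mk0 2 two_ne_zero))
    simp only [χ, MonoidHom.coe_mk, OneHom.coe_mk] at this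
    rw [Finset.prod_eq_single j (fun i _ hi => by simp [hi]) (by simp),
      Finset.prod_eq_single j (fun i _ hi => by simp [hi]) (by simp)] at this
    simp only [Pi.mulSingle_eq_same, Units.val_mk0] at this
    exact Nat.eq_of_mul_eq_mul_left hm (Nat.pow_right_injective le_rfl (by exact_mod_cast this))
  have zw : ∀ g, Ψ v g = ∑ τ with (∀ j, content τ j = d), a τ * EE hν g.val τ := by
    intro g
    have := mem_of_chars (⊥ : Submodule ℂ ℂ)
      (fun o : Option (Fill m ν) => o.elim (-Ψ v g) fun τ => a τ * EE hν g.val τ)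
      (fun o => χ (o.elim (fun _ => d) content)) (fun t => by
        have p0 : ∏ j, (t j : ℂ) ≠ 0 := Finset.prod_ne_zero_iff.2 fun j _ => (t j).ne_zero
        obtain ⟨g', e1, e2⟩ := mon 1 (fun j => (t j : ℂ) ^ m / ∏ j, (t j : ℂ)) (by
          simp [Finset.prod_div_distrib, Finset.prod_pow, p0]) g
        rw [Submodule.mem_bot, Fintype.sum_option]
        simp only [Option.elim, χ, MonoidHom.coe_mk, OneHom.coe_mk, smul_eq_mul]
        rw [e1, ha, e2, mul_neg, neg_add_eq_zero, Finset.mul_sum]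
        refine Finset.sum_congr rfl fun τ _ => ?_
        rw [EE_diag]
        simp only [div_pow, Finset.prod_div_distrib, Finset.prod_pow_eq_pow_sum, sum_content, hd,
          ← pow_mul, Finset.prod_pow]
        change _ * (_ * (_ * EE hν g.val τ)) = _
        field_simp) (χ fun _ => d)
    rw [Submodule.mem_bot, Finset.sum_filter, Fintype.sum_option] at this
    simp only [Option.elim, if_true, hχ] at this
    rw [Finset.sum_filter, ← neg_add_eq_zero]
    exact this
  by_contra! hc
  refine h1 (inj (funext fun g => ?_))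
  have e : ∀ w : Perm (Fin m), Ψ v g = ∑ τ with (∀ j, content τ j = d),
      a τ * (((Perm.sign w : ℤ) : ℂ) ^ d * EE hν g.val (act w τ)) := fun w => by
    have e0 : ∏ j, Function.update (1 : Fin m → ℂ) ⟨0, hm⟩ ((Perm.sign w : ℤ) : ℂ) j =
        ((Perm.sign w : ℤ) : ℂ) := by
      rw [Finset.prod_update_of_mem (Finset.mem_univ _)]; simp
    obtain ⟨g', e1, e2⟩ := mon w _ (by rw [e0]; simpa using sign_sq (R := ℂ) w 1) g
    rw [e1, zw, e2]
    refine Finset.sum_congr rfl fun τ hτ => ?_
    rw [EE_diag, EE_submatrix]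
    simp only [(Finset.mem_filter.1 hτ).2, Finset.prod_pow, e0]
  have e' := Finset.sum_congr (s₁ := Finset.univ) rfl fun w _ => e w
  rw [Finset.sum_comm, Finset.sum_eq_zero (s := Finset.filter _ _) fun τ hτ => by
    rw [← Finset.mul_sum]
    exact mul_eq_zero_of_right _ (hc g.val τ (GeneralLinearGroup.det_ne_zero g)
      (Finset.mem_filter.1 hτ).2)] at e'
  simpa [Fintype.card_perm, Nat.factorial_ne_zero] using e'

theorem good_of_phi {N d e : ℕ} {ν : Fin N → ℕ} (hν : ∀ k, ν k ≤ m) (he : Even (d + e))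
    (A : Matrix (Fin m) (Fin m) ℂ) (τ : Fill m ν) (h0 : A.det ≠ 0) (h1 : ∀ j, content τ j = d)
    (h2 : Phi hν d A τ ≠ 0) :
    Good m (d + e) ((Finset.univ : Finset (Fin N)).val.map ν + Multiset.replicate e m) := by
  have inj : ∀ k, Function.Injective (τ k) := fun k i j hij => by
    by_contra hc
    refine h2 (Finset.sum_eq_zero fun w _ => mul_eq_zero_of_right _
      (Finset.prod_eq_zero (Finset.mem_univ k) (det_zero_of_column_eq hc fun r => ?_)))
    simp [act, hij]
  let c : Fin N → List ℕ := fun k => List.ofFn fun i => (τ k i : ℕ)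
  let Z : ℕ → ℕ → ℂ := fun r j => if h : r < m ∧ j < m then A ⟨r, h.1⟩ ⟨j, h.2⟩ else 0
  have hZ : mat m Z = A := by ext i j; simp [mat, Z]
  have h5 : ∀ l ∈ Multiset.replicate e (List.range m), (l.Nodup ∧ ∀ j ∈ l, j < m) ∧ l.length = m :=
    fun l hl => by
      rw [Multiset.eq_of_mem_replicate hl]
      exact ⟨⟨List.nodup_range, fun j hj => List.mem_range.1 hj⟩, List.length_range⟩
  refine ⟨Finset.univ.val.map c + Multiset.replicate e (List.range m), ⟨fun l hl => ?_,
    fun j hj => ?_⟩, by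
      rw [Multiset.map_add, Multiset.map_map, Multiset.map_replicate, List.length_range]
      simp only [c, Function.comp_def, List.length_ofFn], NZ_of Z ?_⟩
  · rcases Multiset.mem_add.1 hl with hl | hl
    · obtain ⟨k, _, rfl⟩ := Multiset.mem_map.1 hl
      exact ⟨List.nodup_ofFn.2 (Fin.val_injective.comp (inj k)), by simp [c, List.mem_ofFn]⟩
    · exact (h5 l hl).1
  · rw [Multiset.countP_add, (Multiset.countP_eq_card (s := Multiset.replicate e (List.range m))).2
      fun l hl => by rw [Multiset.eq_of_mem_replicate hl]; exact List.mem_range.2 hj,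
      Multiset.card_replicate,
      countP_univ, ← h1 ⟨j, hj⟩, content, Finset.card_filter]
    congr 1
    refine Finset.sum_congr rfl fun k _ => ?_
    split_ifs with h
    · obtain ⟨i, hi⟩ := List.mem_ofFn.1 h
      refine (Finset.card_eq_one.2 ⟨i, ?_⟩).symm
      ext i'
      simp only [Finset.mem_filter, Finset.mem_univ, true_and, Finset.mem_singleton]
      exact ⟨fun e => inj k (e.trans (Fin.ext hi).symm), fun e => e ▸ Fin.ext hi⟩
    · rw [eq_comm, Finset.card_eq_zero, Finset.filter_eq_empty_iff]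
      exact fun i _ e => h (List.mem_ofFn.2 ⟨i, congrArg Fin.val e⟩)
  · have key : Psi m Z (Finset.univ.val.map c + Multiset.replicate e (List.range m)) =
        Phi hν d A τ * E Z (Multiset.replicate e (List.range m)) := by
      unfold Psi Phi
      rw [Finset.sum_mul]
      refine Finset.sum_congr rfl fun w _ => ?_
      have e1 : ((Perm.sign w : ℤ) : ℂ) ^ e = ((Perm.sign w : ℤ) : ℂ) ^ d := by
        rcases Int.units_eq_one_or (Perm.sign w) with h | h
        · simp [h]
        · simp only [h, Units.val_neg, Units.val_one, Int.cast_neg, Int.cast_one]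
          exact neg_one_pow_congr (Nat.even_add.1 he).symm
      have e2 : E (fun r j => Z r (wa w j)) ((Finset.univ : Finset (Fin N)).val.map c) =
          EE hν A (act w τ) := by
        unfold E EE
        rw [Multiset.map_map]
        refine Finset.prod_congr rfl fun k _ => ?_
        rw [Function.comp_apply, D, List.length_ofFn, Dn, ← hZ]
        congr 1
        ext i j
        simp [mat, act, c, ← wa_coe]
      rw [E_add, E_full _ _ h5, Multiset.card_replicate, e2, e1]
      ring
    rw [key]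
    refine mul_ne_zero h2 (Multiset.prod_ne_zero fun h => ?_)
    obtain ⟨l, hl, h⟩ := Multiset.mem_map.1 h
    obtain ⟨σ, hσ⟩ := D_full (R := ℂ) (h5 l hl).1.1 (h5 l hl).1.2 (h5 l hl).2
    rw [hσ, hZ] at h
    exact mul_ne_zero (by simp) h0 h

end MP7ebc2a.Ray
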