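import Pool.Agent.Lib.MP_7ebc2a_al.Ray4

/-! Adding and removing invariant families of columns. -/

namespace MP7ebc2a.Ray
open Equiv Matrix

variable {m : ℕ}

lemma D_perm {c c' : List ℕ} (h1 : c.Nodup) (h2 : c'.Nodup) (h : ∀ x, x ∈ c ↔ x ∈ c') :
    ∃ ε : ℤ, ε * ε = 1 ∧ ∀ Z : ℕ → ℕ → MvPolynomial (ℕ × ℕ) ℤ, D Z c = ε * D Z c' := by
  have hl : c.length = c'.length := ((List.perm_ext_iff_of_nodup h1 h2).2 h).length_eq
  let f : Fin c'.length → Fin c'.length := fun i =>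
    ⟨c'.idxOf (c.getD i 0), List.idxOf_lt_length_iff.2 ((h _).1 (getD_mem (i.2.trans_eq hl.symm)))⟩
  have e : ∀ i, c'.getD (f i) 0 = c.getD i 0 := fun i => by
    rw [List.getD_eq_getElem _ _ (f i).2]
    exact List.getElem_idxOf _
  have hf : Function.Injective f := by
    intro a b hab
    have hab' : c.getD a 0 = c.getD b 0 := by rw [← e, ← e, hab]
    rw [List.getD_eq_getElem _ _ (a.2.trans_eq hl.symm), List.getD_eq_getElem _ _ (b.2.trans_eq hl.symm)] at hab'
    exact Fin.ext ((List.Nodup.getElem_inj_iff h1).1 hab')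
  refine ⟨Perm.sign (Equiv.ofBijective f (Finite.injective_iff_bijective.1 hf)),
    by rw [← Units.val_mul, Int.units_mul_self]; rfl, fun Z => ?_⟩
  rw [D, D, hl, Dn, Dn, ← det_permute']
  congr 1
  ext i j
  simp only [submatrix_apply, of_apply, id, Equiv.ofBijective_apply, e]

lemma same_of {c L : List ℕ} (h1 : c.Nodup) (h : ∀ x ∈ c, x ∈ L) (hl : L.length ≤ c.length) :
    ∀ x, x ∈ c ↔ x ∈ L := fun _ =>
  ((List.subperm_of_subset h1 h).perm_of_length_le hl).mem_iff

lemma countP_or {α : Type} (p q r : α → Prop) [DecidablePred p] [DecidablePred q] [DecidablePred r]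
    (T : Multiset α) (h : ∀ a ∈ T, p a → q a ∨ r a) : T.countP p ≤ T.countP q + T.countP r := by
  induction T using Multiset.induction_on with
  | empty => simp
  | cons a T ih =>
    have := ih fun b hb => h b (Multiset.mem_cons_of_mem hb)
    have := h a (Multiset.mem_cons_self _ _)
    simp only [Multiset.countP_cons]
    by_cases p a <;> by_cases q a <;> by_cases r a <;> simp_all <;> omega

/-- there is a regular filling with row lengths `lam` and nonzero symmetrisation -/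
def G (lam : Fin m → ℕ) (d : ℕ) : Prop :=
  ∃ T, Valid m d T ∧ (∀ i : Fin m, T.countP ((i : ℕ) < ·.length) = lam i) ∧ NZ m T

section stab
variable {J : Type} [Fintype J] (L : J → List ℕ) (π : Perm (Fin m) → Perm J) {r κ : ℕ}
  (l1 : ∀ j, (L j).Nodup ∧ ∀ x ∈ L j, x < m) (l2 : ∀ j, (L j).length = r)
  (l3 : ∀ x < m, ∑ j, (if x ∈ L j then 1 else 0) = κ)
  (l4 : ∀ w j x, x ∈ L j ↔ wa w x ∈ L (π w j))
include l1 l2 l3 l4

lemma fam (c c' : J → List ℕ) (h : ∀ j, (c j).Nodup ∧ ∀ x, x ∈ c j ↔ x ∈ L j)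
    (h' : ∀ j, (c' j).Nodup ∧ ∀ x, x ∈ c' j ↔ x ∈ L j) {lam : Fin m → ℕ} {d : ℕ}
    {T : Multiset (List ℕ)} (hT : VC m T) :
    (Valid m (d + 2 * κ) (T + ∑ j, {c j, c' j}) ∧
      (∀ i : Fin m, (T + ∑ j, {c j, c' j}).countP ((i : ℕ) < ·.length) =
        lam i + if (i : ℕ) < r then 2 * Fintype.card J else 0) ∧ NZ m (T + ∑ j, {c j, c' j})) ↔
    (Valid m d T ∧ (∀ i : Fin m, T.countP ((i : ℕ) < ·.length) = lam i) ∧ NZ m T) := by
  have hs : ∀ (p : List ℕ → Prop) [DecidablePred p], (∑ j, ({c j, c' j} : Multiset _)).countP p =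
      ∑ j, ((if p (c j) then 1 else 0) + if p (c' j) then 1 else 0) := fun p _ => by
    rw [← Multiset.coe_countPAddMonoidHom, map_sum]
    exact Finset.sum_congr rfl fun j _ => by
      simp [Multiset.countP_cons, ← Multiset.cons_zero, add_comm]
  have hE : ∀ Z : ℕ → ℕ → MvPolynomial (ℕ × ℕ) ℤ, E Z (∑ j, ({c j, c' j} : Multiset _)) =
      ∏ j, D Z (c j) * D Z (c' j) := fun Z => by
    rw [E, ← Multiset.coe_mapAddMonoidHom, map_sum, Multiset.prod_sum]
    simp
  have ln : ∀ c : List ℕ, ∀ j, (c.Nodup ∧ ∀ x, x ∈ c ↔ x ∈ L j) → c.length = r := fun c j h =>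
    ((List.perm_ext_iff_of_nodup h.1 (l1 j).1).2 h.2).length_eq.trans (l2 j)
  choose ε e1 e2 using fun j => D_perm (h j).1 (l1 j).1 (h j).2
  choose ε' e1' e2' using fun j => D_perm (h' j).1 (l1 j).1 (h' j).2
  have hI : ∀ w : Perm (Fin m), E (fun r j => Xg r (wa w j)) (∑ j, ({c j, c' j} : Multiset _)) =
      E Xg (∑ j, ({c j, c' j} : Multiset _)) := fun w => by
    have : ∀ (Z : ℕ → ℕ → MvPolynomial (ℕ × ℕ) ℤ), ∏ j, D Z (c j) * D Z (c' j) =
        (∏ j, ((ε j * ε' j : ℤ) : MvPolynomial (ℕ × ℕ) ℤ)) * ∏ j, D Z (L j) ^ 2 := fun Z => by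
      rw [← Finset.prod_mul_distrib]
      exact Finset.prod_congr rfl fun j _ => by rw [e2, e2']; push_cast; ring
    rw [hE, hE, this, this, ← Equiv.prod_comp (π w) fun j => D Xg (L j) ^ 2]
    congr 1
    refine Finset.prod_congr rfl fun j _ => ?_
    obtain ⟨δ, d1, d2⟩ := D_perm ((l1 j).1.map (wa_inj w)) (l1 (π w j)).1 fun x => by
      rw [mem_map_wa, l4 w, ← wa_mul]; simp
    rw [← D_map, d2, mul_pow, sq, ← Int.cast_mul, d1]
    simp
  have hD : ∀ c : List ℕ, c.Nodup → D Xg c ≠ 0 := fun c hc h0 => by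
    have := map_D (MvPolynomial.eval fun p : ℕ × ℕ => (p.2 : ℤ) ^ p.1) Xg c
    rw [h0, map_zero] at this
    exact D_vandermonde_ne c hc (by simpa [Xg] using this.symm)
  refine and_congr (and_congr ⟨fun _ => hT, fun _ l hl => ?_⟩
    (forall₂_congr fun x hx => ?_)) (and_congr (forall_congr' fun i => ?_) ?_)
  · rcases Multiset.mem_add.1 hl with hl | hl
    · exact hT l hl
    · obtain ⟨j, _, hj⟩ := Multiset.mem_sum.1 hl
      simp only [Multiset.insert_eq_cons, Multiset.mem_cons, Multiset.mem_singleton] at hj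
      rcases hj with rfl | rfl
      exacts [⟨(h j).1, fun x hx => (l1 j).2 x (((h j).2 x).1 hx)⟩,
        ⟨(h' j).1, fun x hx => (l1 j).2 x (((h' j).2 x).1 hx)⟩]
  · rw [Multiset.countP_add, hs]
    simp only [(h _).2, (h' _).2, Finset.sum_add_distrib, l3 x hx]
    omega
  · rw [Multiset.countP_add, hs]
    simp only [ln _ _ (h _), ln _ _ (h' _), Finset.sum_const, Finset.card_univ, smul_eq_mul]
    split_ifs <;> omega
  · unfold NZ Psi
    simp only [E_add, hI, ← Finset.sum_mul]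
    rw [mul_ne_zero_iff, hE]
    exact and_iff_left (Finset.prod_ne_zero_iff.2 fun j _ =>
      mul_ne_zero (hD _ (h j).1) (hD _ (h' j).1))

open Classical in
lemma stab (l5 : ∀ j j', (∀ x, x ∈ L j ↔ x ∈ L j') → j = j') {lam lam' : Fin m → ℕ} {d : ℕ}
    (hl : ∀ i, lam' i = lam i + if (i : ℕ) < r then 2 * Fintype.card J else 0)
    (h : ∀ T, Valid m (d + 2 * κ) T → (∀ i : Fin m, T.countP ((i : ℕ) < ·.length) = lam' i) →
      ∀ j, 2 ≤ T.countP fun c => ∀ x, x ∈ c ↔ x ∈ L j) : G lam' (d + 2 * κ) ↔ G lam d := by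
  constructor
  · rintro ⟨T, a1, a2, a3⟩
    have : ∀ j, ∃ c c', {c, c'} ≤ T.filter fun c => ∀ x, x ∈ c ↔ x ∈ L j := fun j => by
      have := h T a1 a2 j
      rw [Multiset.countP_eq_card_filter] at this
      obtain ⟨u, v, e, e1, _⟩ := split_card 2 _ _ (Nat.add_sub_cancel' this).symm
      obtain ⟨c, c', rfl⟩ := Multiset.card_eq_two.1 e1
      exact ⟨c, c', e ▸ Multiset.le_add_right _ _⟩
    choose c c' hc using this
    have b1 : ∑ j, ({c j, c' j} : Multiset _) ≤ T := by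
      refine (Finset.sum_le_sum fun j _ => hc j).trans (Multiset.le_iff_count.2 fun a => ?_)
      rw [Multiset.count_sum']
      simp only [Multiset.count_filter]
      rw [← Finset.sum_filter, Finset.sum_const, smul_eq_mul]
      refine (Nat.mul_le_mul_right _ (Finset.card_le_one.2 fun j hj j' hj' => l5 j j' fun x =>
        ((Finset.mem_filter.1 hj).2 x).symm.trans ((Finset.mem_filter.1 hj').2 x))).trans (by simp)
    obtain ⟨T, rfl⟩ := Multiset.le_iff_exists_add.1 b1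
    have b2 : ∀ j, ∀ a ∈ ({c j, c' j} : Multiset _), a.Nodup ∧ ∀ x, x ∈ a ↔ x ∈ L j :=
      fun j a ha => by
        have := Multiset.mem_filter.1 (Multiset.mem_of_le (hc j) ha)
        exact ⟨(a1.1 a this.1).1, this.2⟩
    rw [add_comm _ T] at a1 a2 a3
    exact ⟨T, (fam L π l1 l2 l3 l4 c c' (fun j => b2 j _ (by simp)) (fun j => b2 j _ (by simp))
      fun l hl => a1.1 l (Multiset.mem_add.2 (Or.inl hl))).1
        ⟨a1, by simpa only [hl] using a2, a3⟩⟩
  · rintro ⟨T, a⟩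
    refine ⟨T + ∑ j, {L j, L j}, ?_⟩
    simpa only [hl] using (fam L π l1 l2 l3 l4 L L (fun j => ⟨(l1 j).1, fun _ => Iff.rfl⟩)
      (fun j => ⟨(l1 j).1, fun _ => Iff.rfl⟩) a.1.1).2 a

end stab

lemma wa_lt_iff (w : Perm (Fin m)) {x : ℕ} : wa w x < m ↔ x < m :=
  ⟨fun h => by_contra fun hx => hx (by rwa [wa, dif_neg hx] at h), wa_lt w⟩

lemma G0 (hm : 0 < m) {lam lam' : Fin m → ℕ} {d : ℕ} (hl : ∀ i, lam' i = lam i + 2) :
    G lam' (d + 2) ↔ G lam d := by
  classical
  refine stab (κ := 1) (r := m) (fun _ : Unit => List.range m) (fun _ => 1)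
    (fun _ => ⟨List.nodup_range, fun _ => List.mem_range.1⟩) (fun _ => List.length_range)
    (fun x hx => by simp [hx]) (fun w _ x => by simp [wa_lt_iff]) (fun _ _ _ => rfl)
    (fun i => by simp [hl]) fun T a1 a2 _ => ?_
  have := countP_or ((m - 1 : ℕ) < ·.length) (fun c => ∀ x, x ∈ c ↔ x ∈ List.range m)
    (fun _ => False) T fun c hc h => Or.inl (same_of (a1.1 c hc).1
      (fun x hx => List.mem_range.2 ((a1.1 c hc).2 x hx)) (by simp; omega))
  rw [a2 ⟨m - 1, by omega⟩, hl, Multiset.countP_False] at this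
  convert (by omega : 2 ≤ Multiset.countP (fun c => ∀ x, x ∈ c ↔ x ∈ List.range m) T)

lemma G1 (hm : 1 < m) {lam lam' : Fin m → ℕ} {d : ℕ}
    (hl : ∀ i, lam' i = lam i + if (i : ℕ) < 1 then 2 * m else 0) (h : lam ⟨1, hm⟩ ≤ d) :
    G lam' (d + 2) ↔ G lam d := by
  classical
  refine stab (κ := 1) (r := 1) (fun j : Fin m => [j]) id
    (fun j => by simp) (fun _ => rfl) (fun x hx => ?_)
    (fun w j x => by simp [← wa_coe, (wa_inj w).eq_iff])
    (fun j j' e => Fin.ext (by simpa using e j)) (fun i => by simp [hl]) fun T a1 a2 j => ?_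
  · rw [Finset.sum_eq_single ⟨x, hx⟩ (fun j _ e => if_neg (by simpa [Fin.ext_iff, eq_comm] using e))
      (by simp)]
    simp
  have := countP_or ((j : ℕ) ∈ ·) (fun c => ∀ x, x ∈ c ↔ x ∈ [(j : ℕ)]) (1 < ·.length)
    T fun c hc h => or_iff_not_imp_right.2 fun e x => (same_of (c := [(j : ℕ)]) (by simp)
      (by simpa using h) (by simpa using e) x).symm
  rw [a1.2 j j.2, a2 ⟨1, hm⟩, hl] at this
  simp only [lt_self_iff_false, if_false] at this
  convert (by omega : 2 ≤ Multiset.countP (fun c => ∀ x, x ∈ c ↔ x ∈ [(j : ℕ)]) T)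

lemma G2 (hm : 1 < m) {lam lam' : Fin m → ℕ} {d : ℕ}
    (hl : ∀ i, lam' i = lam i + if (i : ℕ) < m - 1 then 2 * m else 0)
    (h : d ≤ lam ⟨m - 2, by omega⟩) : G lam' (d + 2 * (m - 1)) ↔ G lam d := by
  classical
  have l2 : ∀ j : Fin m, ∀ x, x ∈ ((Finset.range m).erase j).toList ↔ x ≠ j ∧ x < m :=
    fun j x => by simp
  have l3 : ∀ j : Fin m, ((Finset.range m).erase j).toList.length = m - 1 := fun j => by
    rw [Finset.length_toList, Finset.card_erase_of_mem (Finset.mem_range.2 j.2), Finset.card_range]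
  refine stab (fun j : Fin m => ((Finset.range m).erase j).toList) id
    (fun j => ⟨Finset.nodup_toList _, fun x hx => ((l2 j x).1 hx).2⟩) l3 (fun x hx => ?_)
    (fun w j x => by simp [← wa_coe, (wa_inj w).eq_iff, wa_lt_iff])
    (fun j j' e => Fin.ext (by simpa using e j)) (fun i => by simp [hl]) fun T a1 a2 j => ?_
  · rw [← Finset.card_filter, show (Finset.univ.filter fun j : Fin m =>
      x ∈ ((Finset.range m).erase j).toList) = Finset.univ.erase ⟨x, hx⟩ by
        ext j; simp [hx, Fin.ext_iff, eq_comm]]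
    simp
  have := countP_or ((m - 2 : ℕ) < ·.length) ((j : ℕ) ∈ ·)
    (fun c => ∀ x, x ∈ c ↔ x ∈ ((Finset.range m).erase j).toList)
    T fun c hc h => or_iff_not_imp_left.2 fun e => same_of (a1.1 c hc).1
      (fun x hx => (l2 j x).2 ⟨fun e' => e (e' ▸ hx), (a1.1 c hc).2 x hx⟩) (by rw [l3]; omega)
  rw [a1.2 j j.2, a2 ⟨m - 2, by omega⟩, hl, if_pos (by dsimp only; omega)] at this
  convert (by omega : 2 ≤ Multiset.countP
    (fun c => ∀ x, x ∈ c ↔ x ∈ ((Finset.range m).erase j).toList) T)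

end MP7ebc2a.Ray
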