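import Pool.Agent.Lib.MP_7ebc2a_al.Ray5

/-! The structure of the set of weights without invariants. -/

namespace MP7ebc2a.Ray
open Equiv Matrix

variable {m : ℕ}

lemma ext_count {ν μ : Multiset ℕ} (h1 : ∀ x ∈ ν, x ≤ m) (h2 : ∀ x ∈ μ, x ≤ m)
    (h3 : ν.card = μ.card) (h4 : ∀ i : Fin m, ν.countP ((i : ℕ) < ·) = μ.countP ((i : ℕ) < ·)) :
    ν = μ := by
  have a : ∀ (ν : Multiset ℕ) (x : ℕ), ν.countP (x ≤ ·) = ν.count x + ν.countP (x + 1 ≤ ·) := by
    intro ν x
    induction ν using Multiset.induction_on with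
    | empty => simp
    | cons a ν ih =>
      rw [Multiset.countP_cons, Multiset.countP_cons, Multiset.count_cons, ih]
      split_ifs <;> omega
  have b : ∀ x, ν.countP (x ≤ ·) = μ.countP (x ≤ ·) := fun x => by
    rcases x with _ | x
    · simpa using h3
    by_cases hx : x < m
    · exact h4 ⟨x, hx⟩
    rw [Multiset.countP_eq_zero.2 fun y hy => by have := h1 y hy; omega,
      Multiset.countP_eq_zero.2 fun y hy => by have := h2 y hy; omega]
  ext x
  have := a ν x; have := a μ x; have := b x; have := b (x + 1)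
  omega

/-- the lengths of the columns, together with `e` full columns -/
def cols (lam : Fin m → ℕ) (N e : ℕ) : Multiset ℕ :=
  (Finset.univ : Finset (Fin N)).val.map (fun k : Fin N => colLen lam k) + Multiset.replicate e m

lemma cols_le (lam : Fin m → ℕ) (N e : ℕ) : ∀ x ∈ cols lam N e, x ≤ m := fun x hx => by
  rcases Multiset.mem_add.1 hx with h | h
  · obtain ⟨k, _, rfl⟩ := Multiset.mem_map.1 h
    exact colLen_le _ _
  · exact (Multiset.eq_of_mem_replicate h).le

lemma rows {lam : Fin m → ℕ} (hl : Antitone lam) {N : ℕ} (hN : ∀ i, lam i ≤ N) (i : Fin m) :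
    (Finset.univ.filter fun k : Fin N => (i : ℕ) < colLen lam k).card = lam i := by
  simp only [lt_colLen hl]
  exact card_lt_fin (hN i)

lemma cols_count {lam : Fin m → ℕ} (hl : Antitone lam) {N : ℕ} (hN : ∀ i, lam i ≤ N) (e : ℕ)
    (i : Fin m) : (cols lam N e).countP ((i : ℕ) < ·) = lam i + e := by
  rw [cols, Multiset.countP_add, countP_univ, rows hl hN,
    (Multiset.countP_eq_card (s := Multiset.replicate e m)).2 fun x hx => by
      rw [Multiset.eq_of_mem_replicate hx]; exact i.2, Multiset.card_replicate]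

lemma sum_col {lam : Fin m → ℕ} {N : ℕ} (hN : ∀ i, lam i ≤ N) :
    ∑ k : Fin N, colLen lam k = ∑ i, lam i := by
  simp only [colLen, Finset.card_filter]
  rw [Finset.sum_comm]
  refine Finset.sum_congr rfl fun i _ => ?_
  rw [← Finset.card_filter, card_lt_fin (hN i)]

/-- the combinatorial form of the existence of invariants -/
def B (lam : Fin m → ℕ) (d : ℕ) : Prop := G (fun i => lam i + (d + 1 + 1)) (d + (d + 1 + 1))

lemma B_of {lam : Fin m → ℕ} (hl : Antitone lam) {N d : ℕ} (hN : ∀ i, lam i ≤ N)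
    (h : Good m (d + (d + 1 + 1)) (cols lam N (d + 1 + 1))) : B lam d := by
  obtain ⟨T, a1, a2, a3⟩ := h
  refine ⟨T, a1, fun i => ?_, a3⟩
  beta_reduce
  rw [← cols_count hl hN, ← a2, Multiset.countP_map, Multiset.countP_eq_card_filter]

lemma of_B (hm : 0 < m) {lam : Fin m → ℕ} (hl : Antitone lam) {d : ℕ} (h : B lam d) :
    ∃ N, (∀ i, lam i ≤ N) ∧ Good m (d + (d + 1 + 1)) (cols lam N (d + 1 + 1)) := by
  obtain ⟨T, a1, a2, a3⟩ := h
  have b : ∀ i, lam i + (d + 1 + 1) ≤ T.card := fun i => (a2 i).ge.trans (Multiset.countP_le_card _ _)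
  have hN : ∀ i, lam i ≤ T.card - (d + 1 + 1) := fun i => Nat.le_sub_of_add_le (b i)
  refine ⟨_, hN, T, a1, ext_count (fun x hx => ?_) (cols_le _ _ _) ?_ fun i => ?_, a3⟩
  · obtain ⟨c, hc, rfl⟩ := Multiset.mem_map.1 hx
    simpa using (List.subperm_of_subset (l₂ := List.range m) (a1.1 c hc).1
      fun x hx => List.mem_range.2 ((a1.1 c hc).2 x hx)).length_le
  · have := b ⟨0, hm⟩
    simp [cols]; omega
  · rw [cols_count hl hN, Multiset.countP_map, ← Multiset.countP_eq_card_filter]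
    exact a2 i

theorem inv_iff (hm : 0 < m) {lam : Fin m → ℕ} (hl : Antitone lam) {d : ℕ}
    (hd : ∑ i, lam i = m * d) {V : Type*} [AddCommGroup V] [Module ℂ V]
    (ρ : Representation ℂ (GL (Fin m) ℂ) V) (hp : IsPolynomialRep ρ) [ρ.IsIrreducible]
    (hw : HasHighestWeight ρ lam) :
    (∃ v ≠ 0, ∀ n ∈ Subgroup.normalizer (torus m), ρ (SpecialLinearGroup.toGL n) v = v) ↔
      B lam d := by
  constructor
  · rintro ⟨v, h1, h2⟩
    have hN : ∀ i, lam i ≤ ∑ i, lam i := fun i =>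
      Finset.single_le_sum (fun _ _ => Nat.zero_le _) (Finset.mem_univ i)
    obtain ⟨A, τ, a1, a2, a3⟩ := phi_of_invariant hm ρ hp hw (fun k => colLen_le lam k)
      (rows hl hN) ((sum_col hN).trans hd) h1 h2
    exact B_of hl hN (good_of_phi _ ⟨d + 1, by ring⟩ A τ a1 a2 a3)
  · intro h
    obtain ⟨N, hN, h⟩ := of_B hm hl h
    obtain ⟨Z, z1, τ, z2, z3⟩ := fill_of_good (lam := lam) (e := d + 1) ⟨d + 1, by ring⟩ h
    exact invariant_of_Phi ρ hp hw _ (rows hl hN) Z z1 τ z2 z3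

theorem B_far (hm : 5 ≤ m) {lam : Fin m → ℕ} (hl : Antitone lam) {d : ℕ}
    (hd : ∑ i, lam i = m * d)
    (h1 : lam ⟨m - 2, by omega⟩ + 218 * m ^ 2 ≤ lam ⟨0, by omega⟩)
    (h2 : lam ⟨m - 1, by omega⟩ + 218 * m ^ 2 ≤ lam ⟨1, by omega⟩) : B lam d := by
  have hN : ∀ i, lam i ≤ ∑ i, lam i := fun i =>
    Finset.single_le_sum (fun _ _ => Nat.zero_le _) (Finset.mem_univ i)
  refine B_of hl hN (good_far hm ?_ (cols_le _ _ _) ?_)
  · have b1 := count_window hl hN ⟨1, by omega⟩ ⟨m - 2, by omega⟩ (fun x => 2 ≤ x ∧ x + 2 ≤ m)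
      (fun x _ _ => by dsimp only at *; omega) (Multiset.replicate (d + 1 + 1) m)
    have b2 := count_window hl hN ⟨0, by omega⟩ ⟨1, by omega⟩ (1 = ·)
      (fun x _ _ => by dsimp only at *; omega) (Multiset.replicate (d + 1 + 1) m)
    have b3 := count_window hl hN ⟨m - 2, by omega⟩ ⟨m - 1, by omega⟩ (m - 1 = ·)
      (fun x _ _ => by dsimp only at *; omega) (Multiset.replicate (d + 1 + 1) m)
    unfold Multiset.count cols
    omega
  · rw [cols, Multiset.sum_add, Multiset.sum_replicate, mul_add, ← hd, smul_eq_mul, mul_comm]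
    exact congrArg (· + _) (sum_col hN)

lemma G0' (hm : 0 < m) (c : ℕ) {lam lam' : Fin m → ℕ} {d d' : ℕ}
    (hl : ∀ i, lam' i = lam i + 2 * c) (hd : d' = d + 2 * c) : G lam' d' ↔ G lam d := by
  induction c generalizing lam' d' with
  | zero => rw [show lam' = lam from funext hl, hd]; rfl
  | succ c ih =>
    rw [hd, ← ih (lam' := fun i => lam i + 2 * c) (fun _ => rfl) rfl]
    exact G0 hm hl

lemma B1 (hm : 1 < m) (k c : ℕ) {μ lam : Fin m → ℕ} {d d' : ℕ} (h : k = 0 ∨ μ ⟨1, hm⟩ ≤ d)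
    (hl : ∀ i, lam i = μ i + c + if (i : ℕ) = 0 then 2 * m * k else 0) (hd : d' = d + c + 2 * k) :
    B lam d' ↔ B μ d := by
  induction k generalizing lam d' with
  | zero => exact G0' (by omega) c (fun i => by simp [hl, hd]; ring) (by omega)
  | succ k ih =>
    rw [← ih (lam := fun i => μ i + c + if (i : ℕ) = 0 then 2 * m * k else 0) (by omega)
      (fun _ => rfl) rfl, B, show d' + (d' + 1 + 1) = 2 * d' + 2 by ring,
      G1 hm (lam := fun i => μ i + c + (if (i : ℕ) = 0 then 2 * m * k else 0) + (d' + 1 + 1))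
        (fun i => by rw [hl]; split_ifs <;> first | ring1 | omega) (by simp; omega)]
    exact G0' (by omega) 1 (fun i => by beta_reduce; omega) (by omega)

lemma B2 (hm : 1 < m) (k c : ℕ) {μ lam : Fin m → ℕ} {d d' : ℕ} (h : d ≤ μ ⟨m - 2, by omega⟩)
    (hl : ∀ i, lam i = μ i + c + if (i : ℕ) + 1 < m then 2 * m * k else 0)
    (hd : d' = d + c + 2 * (m - 1) * k) : B lam d' ↔ B μ d := by
  induction k generalizing lam d' with
  | zero => exact G0' (by omega) c (fun i => by simp [hl, hd]; ring) (by omega)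
  | succ k ih =>
    have e : 2 * m * k = 2 * (m - 1) * k + 2 * k := by
      obtain ⟨n, rfl⟩ : ∃ n, m = n + 1 := ⟨m - 1, by omega⟩
      simp; ring
    rw [mul_add_one] at hd
    rw [← ih (lam := fun i => μ i + c + if (i : ℕ) + 1 < m then 2 * m * k else 0)
      (fun _ => rfl) rfl, B, show d' + (d' + 1 + 1) =
        (d + c + 2 * (m - 1) * k + (d' + 1 + 1)) + 2 * (m - 1) by omega,
      G2 hm (lam := fun i => μ i + c + (if (i : ℕ) + 1 < m then 2 * m * k else 0) + (d' + 1 + 1))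
        (fun i => by rw [hl]; split_ifs <;> first | ring1 | omega)
        (by rw [if_pos (by dsimp only; omega)]; omega)]
    exact G0' (by omega) (m - 1) (fun i => by beta_reduce; omega) (by omega)

lemma sum_first (hm : 0 < m) (a : ℕ) : ∑ i : Fin m, (if (i : ℕ) = 0 then a else 0) = a := by
  rw [Finset.sum_eq_single ⟨0, hm⟩ (fun j _ e => if_neg (by simpa [Fin.ext_iff] using e)) (by simp)]
  simp

lemma sum_last (a : ℕ) : ∑ i : Fin m, (if (i : ℕ) + 1 < m then a else 0) = (m - 1) * a := by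
  rw [← Finset.sum_filter, Finset.sum_const, smul_eq_mul, ← card_lt_fin (Nat.sub_le m 1)]
  congr 2
  ext i
  simp only [Finset.mem_filter, Finset.mem_univ, true_and]
  omega

theorem structure_B (hm : 5 ≤ m) : ∃ F₀ F₁ F₂ : Set (Fin m → ℕ),
    (∀ μ ∈ F₀ ∪ F₁ ∪ F₂, ∀ i, μ i ≤ 219 * m ^ 3) ∧
    (∀ μ ∈ F₀, μ ⟨1, by omega⟩ < 218 * m ^ 2 ∨
      μ ⟨0, by omega⟩ < μ ⟨m - 2, by omega⟩ + 218 * m ^ 2) ∧
    (∀ μ ∈ F₁, μ ⟨1, by omega⟩ < 218 * m ^ 2) ∧
    (∀ μ ∈ F₂, μ ⟨0, by omega⟩ < μ ⟨m - 2, by omega⟩ + 218 * m ^ 2) ∧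
    ∀ lam : Fin m → ℕ, Antitone lam → ∀ d, ∑ i, lam i = m * d → (¬B lam d ↔ ∃ c k : ℕ,
      (∃ μ ∈ F₀, ∀ i, lam i = μ i + c) ∨
      (∃ μ ∈ F₁, ∀ i, lam i = μ i + c + if (i : ℕ) = 0 then 2 * m * k else 0) ∨
      ∃ μ ∈ F₂, ∀ i, lam i = μ i + c + if (i : ℕ) + 1 < m then 2 * m * k else 0) := by
  set T := 218 * m ^ 2 with hT
  let o : Fin m := ⟨0, by omega⟩
  let a : Fin m := ⟨1, by omega⟩
  let b : Fin m := ⟨m - 2, by omega⟩
  let z : Fin m := ⟨m - 1, by omega⟩
  let F : (Fin m → ℕ) → ℕ → Prop := fun μ d =>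
    (∀ i, μ i ≤ 219 * m ^ 3) ∧ ∑ i, μ i = m * d ∧ ¬B μ d
  refine ⟨{μ | ∃ d, F μ d ∧ (μ a < T ∨ μ o < μ b + T)}, {μ | ∃ d, F μ d ∧ μ a < T ∧ μ a ≤ d},
    {μ | ∃ d, F μ d ∧ μ o < μ b + T ∧ d ≤ μ b}, ?_, fun μ ⟨_, h⟩ => h.2, fun μ ⟨_, h⟩ => h.2.1,
    fun μ ⟨_, h⟩ => h.2.1, fun lam hl d hd => ⟨fun hB => ?_, ?_⟩⟩
  · rintro μ ((⟨_, h⟩ | ⟨_, h⟩) | ⟨_, h⟩) <;> exact h.1.1
  · have bx : m * (T + 1) ≤ 219 * m ^ 3 := by rw [hT]; nlinarith [Nat.one_le_pow 2 m (by omega)]
    have az : ∀ i, lam z ≤ lam i := fun i => hl (Fin.le_def.2 (by have := i.2; dsimp [z]; omega))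
    obtain ⟨l, e1⟩ : ∃ l : Fin m → ℕ, ∀ i, lam i = l i + lam z :=
      ⟨fun i => lam i - lam z, fun i => (Nat.sub_add_cancel (az i)).symm⟩
    have lz : l z = 0 := by have := e1 z; omega
    generalize lam z = c at e1
    have al : ∀ i j : Fin m, (i : ℕ) ≤ j → l j ≤ l i := fun i j h => by
      have := hl (Fin.le_def.2 h); rw [e1, e1] at this; omega
    have e2 : ∑ i, l i + m * c = m * d := by simp [← hd, e1, Finset.sum_add_distrib]
    obtain ⟨d, rfl⟩ : ∃ d', d = d' + c :=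
      Nat.exists_eq_add_of_le' (Nat.le_of_mul_le_mul_left (show m * c ≤ m * d by omega) (by omega))
    replace e2 : ∑ i, l i = m * d := by rw [mul_add] at e2; omega
    have sl : ∀ (μ : Fin m → ℕ) i, μ i ≤ ∑ i, μ i := fun μ i =>
      Finset.single_le_sum (fun _ _ => Nat.zero_le _) (Finset.mem_univ i)
    have b0 : ¬B l d := fun h => hB ((B1 (by omega) 0 c (Or.inl rfl) (by simpa using e1) rfl).2 h)
    by_cases s1 : l a < T
    · by_cases s2 : l a ≤ d
      · obtain ⟨k, k1, k2⟩ : ∃ k, l a + 2 * k ≤ d ∧ d ≤ l a + 2 * k + 1 := ⟨(d - l a) / 2, by omega⟩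
        have e3 : ∑ i, l i ≤ ∑ i : Fin m, (l a + if (i : ℕ) = 0 then l o - l a else 0) :=
          Finset.sum_le_sum fun i _ => by
            have := al o i (Nat.zero_le _)
            split_ifs with h
            · omega
            · exact al a i (by dsimp [a]; omega)
        rw [Finset.sum_add_distrib, sum_first (by omega), e2] at e3
        simp only [Finset.sum_const, Finset.card_univ, Fintype.card_fin, smul_eq_mul] at e3
        have e4 : 2 * m * k ≤ l o - l a := by nlinarith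
        obtain ⟨μ, e5⟩ : ∃ μ : Fin m → ℕ, ∀ i, l i = μ i + if (i : ℕ) = 0 then 2 * m * k else 0 :=
          ⟨fun i => l i - if (i : ℕ) = 0 then 2 * m * k else 0, fun i => by
            beta_reduce
            split_ifs with h
            · rw [show i = o from Fin.ext h]; omega
            · simp⟩
        have e6 : l a = μ a := by simpa [a] using e5 a
        obtain ⟨d, rfl⟩ : ∃ d', d = d' + 2 * k := Nat.exists_eq_add_of_le' (by omega)
        have e7 : ∑ i, μ i = m * d := by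
          simp only [e5, Finset.sum_add_distrib, sum_first (by omega : 0 < m)] at e2
          nlinarith
        refine ⟨c, k, Or.inr (Or.inl ⟨μ, ⟨d, ⟨fun i => (sl μ i).trans (e7.trans_le
          ((Nat.mul_le_mul_left _ (by omega)).trans bx)), e7, fun h => b0 ((B1 (by omega) k 0
            (Or.inr (show μ a ≤ d by omega)) e5 rfl).2 h)⟩, by omega, by omega⟩,
          fun i => by rw [e1, e5]; ring⟩)⟩
      · exact ⟨c, 0, Or.inl ⟨l, ⟨d, ⟨fun i => (sl l i).trans (e2.trans_le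
          ((Nat.mul_le_mul_left _ (by omega)).trans bx)), e2, b0⟩, Or.inl s1⟩, e1⟩⟩
    have s2 : l o < l b + T := by
      by_contra s2
      exact b0 (B_far hm (fun i j h => al i j h) e2 (not_lt.1 s2)
        (show l z + T ≤ l a by omega))
    have up : ∀ μ : Fin m → ℕ, ∀ d, ∑ i, μ i = m * d → μ z = 0 → (∀ i, μ i ≤ d + T) →
        ∀ i, μ i ≤ 219 * m ^ 3 := fun μ d h1 h2 h3 i => by
      have e3 : ∑ i, μ i ≤ ∑ i : Fin m, if (i : ℕ) + 1 < m then d + T else 0 :=
        Finset.sum_le_sum fun i _ => by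
          split_ifs with h
          · exact h3 i
          · rw [show i = z from Fin.ext (by have := i.2; dsimp [z]; omega), h2]
      rw [sum_last, h1] at e3
      obtain ⟨n, rfl⟩ : ∃ n, m = n + 1 := ⟨m - 1, by omega⟩
      have := h3 i
      simp only [Nat.add_sub_cancel] at e3
      nlinarith
    by_cases s3 : d ≤ l b
    · obtain ⟨k, k1, k2⟩ : ∃ k, d + 2 * k ≤ l b ∧ l b ≤ d + 2 * k + 1 := ⟨(l b - d) / 2, by omega⟩
      have e3 : ∑ i : Fin m, (if (i : ℕ) + 1 < m then l b else 0) ≤ ∑ i, l i :=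
        Finset.sum_le_sum fun i _ => by
          split_ifs with h
          · exact al i b (by dsimp [b]; omega)
          · exact Nat.zero_le _
      rw [sum_last, e2] at e3
      have e : 2 * m * k = 2 * (m - 1) * k + 2 * k ∧ m * d = (m - 1) * d + d := by
        obtain ⟨n, rfl⟩ : ∃ n, m = n + 1 := ⟨m - 1, by omega⟩
        simp only [Nat.add_sub_cancel]
        constructor <;> ring
      have e4 : 2 * (m - 1) * k ≤ d := by nlinarith [Nat.mul_le_mul_left (m - 1) k1]
      obtain ⟨μ, e5⟩ : ∃ μ : Fin m → ℕ, ∀ i, l i = μ i + if (i : ℕ) + 1 < m then 2 * m * k else 0 :=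
        ⟨fun i => l i - if (i : ℕ) + 1 < m then 2 * m * k else 0, fun i => by
          beta_reduce
          split_ifs with h
          · have := al i b (by dsimp [b]; omega); omega
          · simp⟩
      have e6 : l b = μ b + 2 * m * k := by rw [e5, if_pos (by dsimp [b]; omega)]
      have e6' : l o = μ o + 2 * m * k := by rw [e5, if_pos (by dsimp [o]; omega)]
      obtain ⟨d, rfl⟩ : ∃ d', d = d' + 2 * (m - 1) * k := Nat.exists_eq_add_of_le' e4
      have e7 : ∑ i, μ i = m * d := by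
        simp only [e5, Finset.sum_add_distrib, sum_last] at e2
        nlinarith
      refine ⟨c, k, Or.inr (Or.inr ⟨μ, ⟨d, ⟨up μ d e7 (by have := e5 z; omega) fun i => ?_, e7,
        fun h => b0 ((B2 (by omega) k 0 (show d ≤ μ b by omega) e5 rfl).2 h)⟩, by omega, by omega⟩,
          fun i => by rw [e1, e5]; ring⟩)⟩
      have := al o i (Nat.zero_le _)
      have := e5 i
      split_ifs at this with h
      · omega
      · rw [show i = z from Fin.ext (by have := i.2; dsimp [z]; omega)] at this ⊢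
        omega
    · exact ⟨c, 0, Or.inl ⟨l, ⟨d, ⟨up l d e2 lz fun i => by
        have := al o i (Nat.zero_le _); omega, e2, b0⟩, Or.inr s2⟩, e1⟩⟩
  · rintro ⟨c, k, ⟨μ, ⟨d', h, _⟩, e⟩ | ⟨μ, ⟨d', h, _, h'⟩, e⟩ | ⟨μ, ⟨d', h, _, h'⟩, e⟩⟩
    · refine fun hB => h.2.2 ((B1 (by omega) 0 c (Or.inl rfl) (by simpa using e) ?_).1 hB)
      simp only [e, Finset.sum_add_distrib, h.2.1, Finset.sum_const, Finset.card_univ,
        Fintype.card_fin, smul_eq_mul] at hd
      exact Nat.eq_of_mul_eq_mul_left (by omega : 0 < m) (by rw [← hd]; ring)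
    · refine fun hB => h.2.2 ((B1 (by omega) k c (Or.inr h') e ?_).1 hB)
      simp only [e, Finset.sum_add_distrib, h.2.1, Finset.sum_const, Finset.card_univ,
        Fintype.card_fin, smul_eq_mul, sum_first (by omega : 0 < m)] at hd
      exact Nat.eq_of_mul_eq_mul_left (by omega : 0 < m) (by rw [← hd]; ring)
    · refine fun hB => h.2.2 ((B2 (by omega) k c h' e ?_).1 hB)
      simp only [e, Finset.sum_add_distrib, h.2.1, Finset.sum_const, Finset.card_univ,
        Fintype.card_fin, smul_eq_mul, sum_last] at hd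
      exact Nat.eq_of_mul_eq_mul_left (by omega : 0 < m) (by rw [← hd]; ring)

end MP7ebc2a.Ray
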