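import Mathlib

/-! Linear algebra used to pass from products of minors to an abstract representation:
Cauchy-Binet, density of the big cell, separation of characters. -/

namespace MP7ebc2a
open Equiv Matrix

section CB
variable {R : Type*} [CommRing R] {n m : ℕ}

lemma det_mul_rect (P : Matrix (Fin n) (Fin m) R) (Q : Matrix (Fin m) (Fin n) R) :
    (P * Q).det = ∑ f : Fin n → Fin m, (P.submatrix id f).det * ∏ i, Q (f i) i := by
  simp only [det_apply', mul_apply, Finset.prod_univ_sum, Fintype.piFinset_univ, Finset.mul_sum,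
    Finset.sum_mul, submatrix_apply, id]
  rw [Finset.sum_comm]
  refine Finset.sum_congr rfl fun f _ => Finset.sum_congr rfl fun σ _ => ?_
  rw [Finset.prod_mul_distrib, mul_assoc]

lemma cauchy_binet (P : Matrix (Fin n) (Fin m) R) (Q : Matrix (Fin m) (Fin n) R) :
    (n.factorial : R) * (P * Q).det =
      ∑ f : Fin n → Fin m, (P.submatrix id f).det * (Qᵀ.submatrix id f).det := by
  have h1 : ∀ f : Fin n → Fin m, (Qᵀ.submatrix id f).det =
      ∑ σ : Perm (Fin n), (Perm.sign σ : ℤ) * ∏ i, Q (f (σ i)) i := by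
    intro f
    rw [← det_transpose, det_apply']
    rfl
  simp only [h1, Finset.mul_sum]
  rw [Finset.sum_comm]
  have h2 : ∀ σ : Perm (Fin n), ∑ f : Fin n → Fin m, (P.submatrix id f).det *
      ((Perm.sign σ : ℤ) * ∏ i, Q (f (σ i)) i) = (P * Q).det := by
    intro σ
    rw [det_mul_rect, ← Equiv.sum_comp (Equiv.arrowCongr σ (Equiv.refl _)).symm
      (fun f => (P.submatrix id f).det * ∏ i, Q (f i) i)]
    refine Finset.sum_congr rfl fun f _ => ?_
    have : P.submatrix id ((Equiv.arrowCongr σ (Equiv.refl (Fin m))).symm f) =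
        (P.submatrix id f).submatrix id σ := by ext i j; simp
    rw [this, det_permute']
    simp only [arrowCongr_symm, refl_symm, arrowCongr_apply, coe_refl, symm_symm,
      Function.comp_apply, id]
    ring
  simp only [h2, Finset.sum_const, Finset.card_univ, Fintype.card_perm, Fintype.card_fin,
    nsmul_eq_mul]

end CB

/-- products of a lower unitriangular and an invertible upper triangular matrix -/
def LU (n : ℕ) : Set (Matrix (Fin n) (Fin n) ℂ) :=
  {A | ∃ u b : Matrix (Fin n) (Fin n) ℂ, (∀ i j, i < j → u i j = 0) ∧ (∀ i, u i i = 1) ∧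
    (∀ i j, j < i → b i j = 0) ∧ (∀ i, b i i ≠ 0) ∧ A = u * b}

def blk {n : ℕ} (a : ℂ) (r c : Fin n → ℂ) (D : Matrix (Fin n) (Fin n) ℂ) :
    Matrix (Fin (n + 1)) (Fin (n + 1)) ℂ :=
  Matrix.of (Fin.cons (Fin.cons a r) fun i => Fin.cons (c i) (D i))

lemma dense_LU (n : ℕ) : Dense (LU n) := by
  induction n with
  | zero => intro A; exact subset_closure ⟨1, 1, by simp, by simp, by simp, by simp, Subsingleton.elim _ _⟩
  | succ n ih =>
    have h1 : ∀ A : Matrix (Fin (n + 1)) (Fin (n + 1)) ℂ, A 0 0 ≠ 0 → A ∈ closure (LU (n + 1)) := by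
      intro A ha
      let Γ : Matrix (Fin n) (Fin n) ℂ → Matrix (Fin (n + 1)) (Fin (n + 1)) ℂ := fun D =>
        blk (A 0 0) (fun j => A 0 j.succ) (fun i => A i.succ 0)
          (Matrix.of fun i j => D i j + A i.succ 0 / A 0 0 * A 0 j.succ)
      have hc : Continuous Γ := by
        refine continuous_matrix fun i j => ?_
        refine Fin.cases ?_ (fun i => ?_) i <;> refine Fin.cases ?_ (fun j => ?_) j <;>
          simp only [Γ, blk, of_apply, Fin.cons_zero, Fin.cons_succ] <;> fun_prop
      have hA : A = Γ (Matrix.of fun i j => A i.succ j.succ - A i.succ 0 / A 0 0 * A 0 j.succ) := by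
        ext i j
        refine Fin.cases ?_ (fun i => ?_) i <;> refine Fin.cases ?_ (fun j => ?_) j <;>
          simp [Γ, blk]
      rw [hA]
      refine map_mem_closure hc (ih _) ?_
      rintro _ ⟨u, b, u1, u2, b1, b2, rfl⟩
      refine ⟨blk 1 0 (fun i => A i.succ 0 / A 0 0) u, blk (A 0 0) (fun j => A 0 j.succ) 0 b,
        fun i j => ?_, fun i => ?_, fun i j => ?_, fun i => ?_, ?_⟩
      · refine Fin.cases ?_ (fun i => ?_) i <;> refine Fin.cases ?_ (fun j => ?_) j <;>
          simp [blk]
        exact u1 i j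
      · refine Fin.cases ?_ (fun i => ?_) i <;> simp [blk, u2]
      · refine Fin.cases ?_ (fun i => ?_) i <;> refine Fin.cases ?_ (fun j => ?_) j <;>
          simp [blk]
        exact b1 i j
      · refine Fin.cases ?_ (fun i => ?_) i <;> simp [blk, ha, b2]
      · ext i j
        refine Fin.cases ?_ (fun i => ?_) i <;> refine Fin.cases ?_ (fun j => ?_) j <;>
          simp [Γ, blk, mul_apply, Fin.sum_univ_succ, ha, add_comm]
    intro A
    by_cases ha : A 0 0 = 0
    · rw [← closure_closure]
      have hc : Continuous fun z : ℂ => A + Matrix.single 0 0 z := by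
        refine continuous_matrix fun i j => ?_
        simp only [Matrix.add_apply, Matrix.single, of_apply]
        split_ifs <;> fun_prop
      have := map_mem_closure (t := closure (LU (n + 1))) hc (dense_compl_singleton (0 : ℂ) 0)
        (fun z hz => h1 _ (by simpa [ha] using hz))
      simpa using this
    · exact h1 A ha

lemma eq_of_LU {n : ℕ} {f g : Matrix (Fin n) (Fin n) ℂ → ℂ} (hf : Continuous f) (hg : Continuous g)
    (h : ∀ A ∈ LU n, f A = g A) : f = g :=
  Continuous.ext_on (dense_LU n) hf hg h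

lemma mem_of_chars {W A ι : Type*} [AddCommGroup W] [Module ℂ W] [Monoid A] [Fintype ι]
    (M : Submodule ℂ W) (w : ι → W) (χ : ι → (A →* ℂ)) (h : ∀ a, ∑ i, χ i a • w i ∈ M)
    (ψ : A →* ℂ) [DecidablePred fun i => χ i = ψ] :
    ∑ i ∈ Finset.univ.filter (fun i => χ i = ψ), w i ∈ M := by
  classical
  by_contra hn
  obtain ⟨φ, h1, h2⟩ := Submodule.exists_dual_map_eq_bot_of_notMem hn inferInstance
  have h3 : ∀ a, ∑ i, χ i a * φ (w i) = 0 := by
    intro a
    have : φ (∑ i, χ i a • w i) ∈ M.map φ := Submodule.mem_map_of_mem (h a)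
    rw [h2] at this
    simpa using this
  have li := linearIndependent_iff'.1 (linearIndependent_monoidHom A ℂ)
    (insert ψ (Finset.univ.image χ))
    (fun θ => ∑ i ∈ Finset.univ.filter (fun i => χ i = θ), φ (w i)) (by
      ext a
      rw [Finset.sum_apply, Pi.zero_apply, ← h3 a, ← Finset.sum_fiberwise_of_maps_to
        (t := insert ψ (Finset.univ.image χ)) (g := χ) (by simp)]
      refine Finset.sum_congr rfl fun θ _ => ?_
      rw [Pi.smul_apply, smul_eq_mul, Finset.sum_mul]
      refine Finset.sum_congr rfl fun i hi => ?_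
      rw [(Finset.mem_filter.1 hi).2, mul_comm]) ψ (Finset.mem_insert_self _ _)
  apply h1
  rw [map_sum]
  convert li

end MP7ebc2a
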