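import Pool.Agent.Lib.MP_7ebc2a_al.Rep1
import Pool.Agent.Lib.MP_7ebc2a_al.Defs

/-! From a nonzero symmetrised product of minors to an invariant vector. -/

namespace MP7ebc2a
open Equiv Matrix

section EE
variable {R S : Type*} [CommRing R] [CommRing S] {m N : ℕ} {ν : Fin N → ℕ}

abbrev Fill (m : ℕ) (ν : Fin N → ℕ) := ∀ k, Fin (ν k) → Fin m

def EE (hν : ∀ k, ν k ≤ m) (A : Matrix (Fin m) (Fin m) R) (τ : Fill m ν) : R :=
  ∏ k, (A.submatrix (Fin.castLE (hν k)) (τ k)).det

def content (τ : Fill m ν) (j : Fin m) : ℕ :=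
  ∑ k, (Finset.univ.filter fun i => τ k i = j).card

def act (w : Perm (Fin m)) (τ : Fill m ν) : Fill m ν := fun k i => w (τ k i)

def Phi (hν : ∀ k, ν k ≤ m) (d : ℕ) (A : Matrix (Fin m) (Fin m) R) (τ : Fill m ν) : R :=
  ∑ w : Perm (Fin m), ((Perm.sign w : ℤ) : R) ^ d * EE hν A (act w τ)

variable (hν : ∀ k, ν k ≤ m)

lemma map_EE (φ : R →+* S) (A : Matrix (Fin m) (Fin m) R) (τ : Fill m ν) :
    φ (EE hν A τ) = EE hν (A.map φ) τ := by
  unfold EE
  rw [map_prod]
  refine Finset.prod_congr rfl fun k _ => ?_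
  rw [RingHom.map_det]; rfl

lemma map_Phi (φ : R →+* S) (d : ℕ) (A : Matrix (Fin m) (Fin m) R) (τ : Fill m ν) :
    φ (Phi hν d A τ) = Phi hν d (A.map φ) τ := by
  simp [Phi, map_EE]

lemma EE_submatrix (A : Matrix (Fin m) (Fin m) R) (w : Perm (Fin m)) (τ : Fill m ν) :
    EE hν (A.submatrix id w) τ = EE hν A (act w τ) := rfl

lemma EE_diag (A : Matrix (Fin m) (Fin m) R) (t : Fin m → R) (τ : Fill m ν) :
    EE hν (A * diagonal t) τ = (∏ j, t j ^ content τ j) * EE hν A τ := by
  have h1 : ∀ k, ((A * diagonal t).submatrix (Fin.castLE (hν k)) (τ k)).det =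
      (∏ i, t (τ k i)) * (A.submatrix (Fin.castLE (hν k)) (τ k)).det := by
    intro k
    rw [← det_mul_row]
    congr 1
    ext i j
    simp [mul_comm]
  unfold EE content
  simp only [h1, Finset.prod_mul_distrib]
  congr 1
  simp only [← Finset.prod_pow_eq_pow_sum]
  rw [Finset.prod_comm]
  refine Finset.prod_congr rfl fun k _ => ?_
  rw [← Finset.prod_fiberwise Finset.univ (τ k)]
  refine Finset.prod_congr rfl fun j _ => ?_
  rw [← Finset.prod_const]
  exact Finset.prod_congr rfl fun i hi => by rw [(Finset.mem_filter.1 hi).2]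

lemma EE_mul (A H : Matrix (Fin m) (Fin m) R) :
    (∏ k, ((ν k).factorial : R)) * EE hν (A * H) (fun k => Fin.castLE (hν k)) =
      ∑ τ : Fill m ν, EE hν A τ * EE hν Hᵀ τ := by
  unfold EE
  rw [← Finset.prod_mul_distrib]
  have : ∀ k, ((ν k).factorial : R) *
      ((A * H).submatrix (Fin.castLE (hν k)) (Fin.castLE (hν k))).det =
      ∑ f : Fin (ν k) → Fin m, (A.submatrix (Fin.castLE (hν k)) f).det *
        (Hᵀ.submatrix (Fin.castLE (hν k)) f).det := fun k =>
    cauchy_binet (A.submatrix (Fin.castLE (hν k)) id) (H.submatrix id (Fin.castLE (hν k)))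
  simp only [this, Finset.prod_univ_sum, Fintype.piFinset_univ, Finset.prod_mul_distrib]

lemma content_act (w : Perm (Fin m)) (τ : Fill m ν) (j : Fin m) :
    content (act w τ) j = content τ (w⁻¹ j) := by
  unfold content act
  simp only [Perm.eq_inv_iff_eq]

lemma sign_sq (w : Perm (Fin m)) (d : ℕ) :
    ((Perm.sign w : ℤ) : R) ^ d * ((Perm.sign w : ℤ) : R) ^ d = 1 := by
  rw [← mul_pow, ← Int.cast_mul, ← Units.val_mul, Int.units_mul_self]; simp

lemma Phi_act (d : ℕ) (A : Matrix (Fin m) (Fin m) R) (σ : Perm (Fin m)) (τ : Fill m ν) :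
    Phi hν d A (act σ τ) = ((Perm.sign σ : ℤ) : R) ^ d * Phi hν d A τ := by
  unfold Phi
  rw [Finset.mul_sum, ← Equiv.sum_comp (Equiv.mulRight σ)
    (fun w => ((Perm.sign σ : ℤ) : R) ^ d * (((Perm.sign w : ℤ) : R) ^ d * EE hν A (act w τ)))]
  refine Finset.sum_congr rfl fun w _ => ?_
  simp only [coe_mulRight, map_mul, Units.val_mul, Int.cast_mul, mul_pow]
  rw [show act (w * σ) τ = act w (act σ τ) from rfl]
  linear_combination (-(((Perm.sign w : ℤ) : R) ^ d * EE hν A (act w (act σ τ)))) * sign_sq (R := R) σ d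

lemma Phi_submatrix (d : ℕ) (A : Matrix (Fin m) (Fin m) R) (σ : Perm (Fin m)) (τ : Fill m ν) :
    Phi hν d (A.submatrix id σ) τ = ((Perm.sign σ : ℤ) : R) ^ d * Phi hν d A τ := by
  unfold Phi
  rw [Finset.mul_sum, ← Equiv.sum_comp (Equiv.mulLeft σ)
    (fun w => ((Perm.sign σ : ℤ) : R) ^ d * (((Perm.sign w : ℤ) : R) ^ d * EE hν A (act w τ)))]
  refine Finset.sum_congr rfl fun w _ => ?_
  simp only [coe_mulLeft, map_mul, Units.val_mul, Int.cast_mul, mul_pow, EE_submatrix]
  rw [show act (σ * w) τ = act σ (act w τ) from rfl]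
  linear_combination (-(((Perm.sign w : ℤ) : R) ^ d * EE hν A (act σ (act w τ)))) * sign_sq (R := R) σ d

lemma Phi_diag {d : ℕ} (A : Matrix (Fin m) (Fin m) R) (t : Fin m → R) {τ : Fill m ν}
    (h : ∀ j, content τ j = d) : Phi hν d (A * diagonal t) τ = (∏ j, t j) ^ d * Phi hν d A τ := by
  unfold Phi
  rw [Finset.mul_sum]
  refine Finset.sum_congr rfl fun w _ => ?_
  rw [EE_diag]
  simp only [content_act, h, Finset.prod_pow]
  ring

lemma sum_Phi_sq (d : ℕ) (A : Matrix (Fin m) (Fin m) R) :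
    ∑ τ : Fill m ν with (∀ j, content τ j = d), Phi hν d A τ * Phi hν d A τ =
      m.factorial * ∑ τ : Fill m ν with (∀ j, content τ j = d), Phi hν d A τ * EE hν A τ := by
  have h1 : ∀ τ : Fill m ν, Phi hν d A τ * Phi hν d A τ =
      ∑ w : Perm (Fin m), Phi hν d A (act w τ) * EE hν A (act w τ) := by
    intro τ
    conv_lhs => rw [show Phi hν d A τ * Phi hν d A τ = Phi hν d A τ *
      ∑ w : Perm (Fin m), ((Perm.sign w : ℤ) : R) ^ d * EE hν A (act w τ) from rfl, Finset.mul_sum]
    refine Finset.sum_congr rfl fun w _ => ?_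
    rw [Phi_act]; ring
  simp only [h1]
  rw [Finset.sum_comm]
  have h2 : ∀ w : Perm (Fin m), ∑ τ : Fill m ν with (∀ j, content τ j = d),
      Phi hν d A (act w τ) * EE hν A (act w τ) =
      ∑ τ : Fill m ν with (∀ j, content τ j = d), Phi hν d A τ * EE hν A τ := by
    intro w
    refine Finset.sum_nbij' (act w) (act w⁻¹) (fun τ h => ?_) (fun τ h => ?_) (fun τ _ => ?_)
      (fun τ _ => ?_) fun _ _ => rfl
    · simp only [Finset.mem_filter, Finset.mem_univ, true_and] at h ⊢
      exact fun j => by rw [content_act, h]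
    · simp only [Finset.mem_filter, Finset.mem_univ, true_and] at h ⊢
      exact fun j => by rw [content_act, h]
    · ext k i; simp [act]
    · ext k i; simp [act]
  simp only [h2, Finset.sum_const, Finset.card_univ, Fintype.card_perm, Fintype.card_fin,
    nsmul_eq_mul]

lemma EE_LU (u b : Matrix (Fin m) (Fin m) R) (u1 : ∀ i j, i < j → u i j = 0) (u2 : ∀ i, u i i = 1)
    (b1 : ∀ i j, j < i → b i j = 0) :
    EE hν (u * b) (fun k => Fin.castLE (hν k)) =
      ∏ i, b i i ^ (Finset.univ.filter fun k => (i : ℕ) < ν k).card := by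
  have h1 : ∀ k, ((u * b).submatrix (Fin.castLE (hν k)) (Fin.castLE (hν k))).det =
      ∏ i ∈ Finset.univ.filter (fun i : Fin m => (i : ℕ) < ν k), b i i := by
    intro k
    have e : (u * b).submatrix (Fin.castLE (hν k)) (Fin.castLE (hν k)) =
        u.submatrix (Fin.castLE (hν k)) (Fin.castLE (hν k)) *
          b.submatrix (Fin.castLE (hν k)) (Fin.castLE (hν k)) := by
      ext i j
      simp only [submatrix_apply, mul_apply]
      symm
      refine Finset.sum_of_injOn (Fin.castLE (hν k)) (Fin.castLE_injective _).injOn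
        (fun _ _ => Finset.mem_univ _) (fun l _ hl => ?_) fun _ _ => rfl
      rw [u1, zero_mul]
      by_contra hlt
      have : (l : ℕ) < ν k := by
        have := i.2
        simp only [Fin.lt_def, Fin.val_castLE, not_lt] at hlt
        omega
      exact hl ⟨⟨l, this⟩, by simp, rfl⟩
    rw [e, det_mul, det_of_isLowerTriangular (u.submatrix (Fin.castLE (hν k)) (Fin.castLE (hν k)))
      (fun i j h => u1 _ _ (by simpa using h)),
      det_of_isUpperTriangular (M := b.submatrix (Fin.castLE (hν k)) (Fin.castLE (hν k)))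
      (fun i j h => b1 _ _ (by simpa using h))]
    simp only [submatrix_apply, u2, Finset.prod_const_one, one_mul]
    refine Finset.prod_bij (fun i _ => Fin.castLE (hν k) i) (fun i _ => by simp)
      (fun _ _ _ _ h => Fin.castLE_injective _ h) (fun l hl => ?_) fun _ _ => rfl
    exact ⟨⟨l, (Finset.mem_filter.1 hl).2⟩, Finset.mem_univ _, rfl⟩
  unfold EE
  simp only [h1, Finset.prod_filter]
  rw [Finset.prod_comm]
  refine Finset.prod_congr rfl fun i _ => ?_
  rw [← Finset.prod_filter, Finset.prod_const]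

end EE

end MP7ebc2a
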