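import Pool.Agent.Lib.MP_7ebc2a_al.Win

/-! Invariants for weights that are not flat on three windows of rows. -/

namespace MP7ebc2a
open Equiv Matrix

variable {m : ℕ}

theorem fill_of_good {lam : Fin m → ℕ} {d N e : ℕ} (he : Even (d + (e + 1)))
    (hG : Good m (d + (e + 1))
      ((Finset.univ : Finset (Fin N)).val.map (fun k : Fin N => colLen lam k) +
        Multiset.replicate (e + 1) m)) :
    ∃ Z : Matrix (Fin m) (Fin m) ℤ, Z.det ≠ 0 ∧ ∃ τ : Fill m fun k : Fin N => colLen lam k,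
      (∀ j, content τ j = d) ∧ Phi (fun k => colLen_le lam k) d Z τ ≠ 0 := by
  obtain ⟨T, hv, hT, hnz⟩ := hG
  obtain ⟨T1, T2, rfl, h1, h2⟩ := map_eq_add _ _ _ _ hT
  obtain ⟨h3, h4⟩ := len_of_rep h2
  have h5 : ∀ c ∈ T2, (c.Nodup ∧ ∀ j ∈ c, j < m) ∧ c.length = m := fun c hc =>
    ⟨hv.1 c (Multiset.mem_add.2 (Or.inr hc)), h4 c hc⟩
  obtain ⟨c, rfl, hc⟩ := index_cols _ _ _ _ h1
  have hc1 : ∀ k, (c k).length = colLen lam k := fun k => hc k (Finset.mem_univ _)
  have hc2 : ∀ k, (c k).Nodup ∧ ∀ j ∈ c k, j < m := fun k =>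
    hv.1 _ (Multiset.mem_add.2 (Or.inl (Multiset.mem_map_of_mem _ (Finset.mem_univ_val k))))
  obtain ⟨x, hx⟩ : ∃ x : ℕ × ℕ → ℤ, MvPolynomial.eval x
      (Psi m Xg ((Finset.univ : Finset (Fin N)).val.map c + T2)) ≠ 0 := by
    by_contra! h
    exact hnz (MvPolynomial.funext fun x => by simpa using h x)
  rw [map_Psi] at hx
  set Z : ℕ → ℕ → ℤ := fun r j => MvPolynomial.eval x (Xg r j)
  let τ : Fill m fun k : Fin N => colLen lam k := fun k i =>
    ⟨(c k).getD i 0, (hc2 k).2 _ (getD_mem (by rw [hc1]; exact i.2))⟩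
  have key : Psi m Z ((Finset.univ : Finset (Fin N)).val.map c + T2) =
      Phi (fun k => colLen_le lam k) d (mat m Z) τ * E Z T2 := by
    unfold Psi Phi
    rw [Finset.sum_mul]
    refine Finset.sum_congr rfl fun w _ => ?_
    have e1 : ((Perm.sign w : ℤ) : ℤ) ^ (e + 1) = ((Perm.sign w : ℤ) : ℤ) ^ d := by
      rcases Int.units_eq_one_or (Perm.sign w) with h | h
      · simp [h]
      · simp only [h, Units.val_neg, Units.val_one]
        exact neg_one_pow_congr (Nat.even_add.1 he).symm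
    have e2 : E (fun r j => Z r (wa w j)) ((Finset.univ : Finset (Fin N)).val.map c) =
        EE (fun k => colLen_le lam k) (mat m Z) (act w τ) := by
      unfold E EE
      rw [Multiset.map_map]
      refine Finset.prod_congr rfl fun k _ => ?_
      rw [Function.comp_apply, D, hc1, Dn]
      congr 1
      ext i j
      simp [mat, act, τ, ← wa_coe]
    rw [E_add, E_full _ _ h5, h3, e2]
    simp only [Int.cast_id, e1]
    ring
  rw [key] at hx
  refine ⟨mat m Z, fun h0 => right_ne_zero_of_mul hx ?_, τ, fun j => ?_, left_ne_zero_of_mul hx⟩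
  · obtain ⟨a, ha⟩ := Multiset.card_pos_iff_exists_mem.1 (by omega : 0 < T2.card)
    obtain ⟨σ, hσ⟩ := D_full (R := ℤ) (h5 a ha).1.1 (h5 a ha).1.2 (h5 a ha).2
    rw [← Multiset.cons_erase ha, E_cons, hσ, h0]
    simp
  · have e1 := hv.2 j j.2
    have e2 : T2.countP ((j : ℕ) ∈ ·) = e + 1 := by
      rw [← h3, Multiset.countP_eq_card]
      intro a ha
      have := Finset.eq_of_subset_of_card_le (s := a.toFinset) (t := Finset.range m)
        (fun i hi => Finset.mem_range.2 ((h5 a ha).1.2 i (List.mem_toFinset.1 hi)))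
        (by rw [List.toFinset_card_of_nodup (h5 a ha).1.1, (h5 a ha).2]; simp)
      rw [← List.mem_toFinset, this]
      simp
    rw [Multiset.countP_add, e2, Multiset.countP_map] at e1
    rw [← Nat.add_right_cancel e1]
    change _ = (Finset.univ.filter fun k => (j : ℕ) ∈ c k).card
    rw [content, Finset.card_filter]
    refine Finset.sum_congr rfl fun k _ => ?_
    have g : ∀ i : Fin (colLen lam k), (τ k i : ℕ) = (c k)[(i : ℕ)]'(by rw [hc1]; exact i.2) :=
      fun i => List.getD_eq_getElem _ _ _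
    split_ifs with h
    · obtain ⟨i, hi, e⟩ := List.getElem_of_mem h
      refine Finset.card_eq_one.2 ⟨⟨i, by rwa [← hc1]⟩, ?_⟩
      ext i'
      simp only [Finset.mem_filter, Finset.mem_univ, true_and, Finset.mem_singleton, Fin.ext_iff, g,
        ← e]
      exact (hc2 k).1.getElem_inj_iff
    · rw [Finset.card_eq_zero, Finset.filter_eq_empty_iff]
      intro i _ e
      exact h (by rw [← e, g]; exact List.getElem_mem _)

lemma count_window {lam : Fin m → ℕ} (hl : Antitone lam) {N : ℕ} (hN : ∀ i, lam i ≤ N)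
    (a b : Fin m) (p : ℕ → Prop) [DecidablePred p] (hp : ∀ x, (a : ℕ) < x → x ≤ b → p x)
    (W : Multiset ℕ) : lam a - lam b ≤
      ((Finset.univ : Finset (Fin N)).val.map (fun k : Fin N => colLen lam k) + W).countP p := by
  rw [Multiset.countP_add, countP_univ]
  refine le_trans ?_ (Nat.le_add_right _ _)
  rw [← card_lt_fin (hN a), ← card_lt_fin (hN b)]
  refine (Finset.le_card_sdiff _ _).trans (Finset.card_le_card fun k hk => ?_)
  simp only [Finset.mem_sdiff, Finset.mem_filter, Finset.mem_univ, true_and] at hk ⊢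
  exact hp _ ((lt_colLen hl a k).2 hk.1) (not_lt.1 fun h => hk.2 ((lt_colLen hl b k).1 h))

theorem invariant_of_windows (hm : 2000 ≤ m) (lam : Fin m → ℕ) (hl : Antitone lam)
    (hd : m ∣ ∑ i, lam i) (a b a' b' a'' b'' : Fin m)
    (e1 : m ≤ 100 * (a + 1) ∧ 100 * b ≤ 44 * m) (e2 : 45 * m ≤ 100 * (a' + 1) ∧ 100 * b' ≤ 55 * m)
    (e3 : 56 * m ≤ 100 * (a'' + 1) ∧ 100 * b'' ≤ 99 * m)
    (h1 : lam b + 70000 * (Nat.log 2 m + 1) ≤ lam a)
    (h2 : lam b' + 70000 * (Nat.log 2 m + 1) ≤ lam a')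
    (h3 : lam b'' + 70000 * (Nat.log 2 m + 1) ≤ lam a'')
    {V : Type*} [AddCommGroup V] [Module ℂ V]
    (ρ : Representation ℂ (GL (Fin m) ℂ) V) (hp : IsPolynomialRep ρ) [ρ.IsIrreducible]
    (hw : HasHighestWeight ρ lam) :
    ∃ v ≠ 0, ∀ n ∈ Subgroup.normalizer (torus m), ρ (SpecialLinearGroup.toGL n) v = v := by
  obtain ⟨d, hd⟩ := hd
  obtain ⟨N, hN, h8⟩ : ∃ N, ∑ i, lam i ≤ N ∧ 8 ∣ N + (3 * d + 3 + 1) :=
    ⟨8 * (∑ i, lam i) + 7 * (3 * d + 3 + 1), by omega, by omega⟩
  have hN' : ∀ i, lam i ≤ N := fun i =>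
    (Finset.single_le_sum (fun _ _ => Nat.zero_le _) (Finset.mem_univ i)).trans hN
  obtain ⟨Z, z1, τ, z2, z3⟩ := fill_of_good (lam := lam) (d := d) (N := N) (e := 3 * d + 3)
    ⟨2 * d + 2, by ring⟩ (by
      rw [show d + (3 * d + 3 + 1) = 4 * (d + 1) by ring]
      refine good_windows _ hm (Nat.lt_succ_self _) (fun x hx => ?_) (by
          rw [Multiset.card_add, Multiset.card_replicate]; simpa using h8) ?_
        (le_trans (Nat.le_sub_of_add_le' h1) (count_window hl hN' a b _ (fun x _ _ => by omega) _))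
        (le_trans (Nat.le_sub_of_add_le' h2) (count_window hl hN' a' b' _ (fun x _ _ => by omega) _))
        (le_trans (Nat.le_sub_of_add_le' h3) (count_window hl hN' a'' b'' _ (fun x _ _ => by omega) _))
      · rcases Multiset.mem_add.1 hx with h | h
        · obtain ⟨k, _, rfl⟩ := Multiset.mem_map.1 h
          exact colLen_le _ _
        · exact (Multiset.eq_of_mem_replicate h).le
      · rw [Multiset.sum_add, Multiset.sum_replicate, show 4 * (d + 1) = d + (3 * d + 3 + 1) by ring,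
          mul_add, ← hd, smul_eq_mul, mul_comm]
        congr 1
        change ∑ k : Fin N, colLen lam k = _
        simp only [colLen, Finset.card_filter]
        rw [Finset.sum_comm]
        refine Finset.sum_congr rfl fun i _ => ?_
        rw [← Finset.card_filter, card_lt_fin (hN' i)])
  refine invariant_of_Phi ρ hp hw _ (fun i => ?_) Z z1 τ z2 z3
  simp only [lt_colLen hl]
  exact card_lt_fin (hN' i)

end MP7ebc2a
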