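import Pool.Agent.Lib.MP_7ebc2a_al.Top

/-! The two recursion steps for the strengthened statement `Kp`. -/

namespace MP7ebc2a
open Equiv Multiset

def Good (m d : ℕ) (ν : Multiset ℕ) : Prop :=
  ∃ T, Valid m d T ∧ T.map List.length = ν ∧ NZ m T

def Dead (T : Multiset (List ℕ)) (t : ℕ) (α β : List ℕ) (j : ℕ) : Prop :=
  (∃ c ∈ T, c.length < t ∧ j ∈ c) ∨ (∃ c ∈ T, t + 1 < c.length ∧ j ∉ c) ∨ j ∈ α ∨ j ∉ β

def Kp (m d t : ℕ) (ν : Multiset ℕ) : Prop :=
  ∃ T, Valid m d T ∧ T.map List.length = ν ∧ NZ m T ∧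
    ∃ α ∈ T, ∃ β ∈ T, α.length = t ∧ β.length = t + 1 ∧ ∀ j < m, Dead T t α β j

lemma Kp.good {m d t : ℕ} {ν : Multiset ℕ} (h : Kp m d t ν) : Good m d ν := by
  obtain ⟨T, h1, h2, h3, _⟩ := h
  exact ⟨T, h1, h2, h3⟩

lemma map_length_wa {m : ℕ} (u : Perm (Fin m)) (U : Multiset (List ℕ)) :
    (U.map (List.map (wa u))).map List.length = U.map List.length := by
  rw [Multiset.map_map]; exact Multiset.map_congr rfl fun c _ => by simp

lemma Good.add {m d d' : ℕ} {ν ν' : Multiset ℕ} (h : Good m d ν) (h' : Good m d' ν') :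
    Good m (d + d') (ν + ν') := by
  obtain ⟨T, h1, rfl, h3⟩ := h
  obtain ⟨U, h1', rfl, h3'⟩ := h'
  obtain ⟨u, hu⟩ := h3.add h3'
  exact ⟨_, h1.add (h1'.map u), by rw [Multiset.map_add, map_length_wa], hu⟩

lemma Kp.add {m d d' t : ℕ} {ν ν' : Multiset ℕ} (h : Kp m d t ν) (h' : Good m d' ν') :
    Kp m (d + d') t (ν + ν') := by
  obtain ⟨T, h1, rfl, h3, α, hα, β, hβ, la, lb, hd⟩ := h
  obtain ⟨U, h1', rfl, h3'⟩ := h'
  obtain ⟨u, hu⟩ := h3.add h3'
  refine ⟨_, h1.add (h1'.map u), by rw [Multiset.map_add, map_length_wa], hu,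
    α, mem_add.2 (Or.inl hα), β, mem_add.2 (Or.inl hβ), la, lb, fun j hj => ?_⟩
  rcases hd j hj with ⟨c, hc, h⟩ | ⟨c, hc, h⟩ | h
  · exact Or.inl ⟨c, mem_add.2 (Or.inl hc), h⟩
  · exact Or.inr (Or.inl ⟨c, mem_add.2 (Or.inl hc), h⟩)
  · exact Or.inr (Or.inr h)

lemma Good.double {m d : ℕ} {T : Multiset (List ℕ)} (h : Valid m d T) :
    Good m (d + d) (T.map List.length + T.map List.length) :=
  ⟨T + T, h.add h, by rw [Multiset.map_add], NZ_double m T fun c hc => (h.1 c hc).1⟩

lemma Good.nil (m : ℕ) : Good m 0 {0} :=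
  ⟨{[]}, ⟨by simp, fun j _ => by simp [countP_eq_zero]⟩, by simp, NZ_nil m⟩

lemma countP_lt {α : Type*} {p q : α → Prop} [DecidablePred p] [DecidablePred q] {T : Multiset α}
    (h : ∀ c ∈ T, p c → q c) {c0 : α} (h0 : c0 ∈ T) (hp : ¬ p c0) (hq : q c0) :
    T.countP p < T.countP q := by
  obtain ⟨T', rfl⟩ := exists_cons_of_mem h0
  rw [countP_cons, countP_cons, if_neg hp, if_pos hq, countP_eq_card_filter,
    countP_eq_card_filter]
  have : T'.filter p ≤ T'.filter q := by
    rw [le_filter]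
    exact ⟨filter_le _ _, fun a ha => h a (mem_cons_of_mem (mem_of_mem_filter ha)) (of_mem_filter ha)⟩
  have := card_le_card this
  omega

/-- away from the centre the strengthened statement is automatic -/
lemma Good.kp {m d t : ℕ} {ν : Multiset ℕ} (h : Good m d ν) (ha : t ∈ ν) (hb : t + 1 ∈ ν)
    (hd : d ≤ ν.countP (t + 1 < ·) ∨ ν.countP (t ≤ ·) ≤ d) : Kp m d t ν := by
  obtain ⟨T, h1, rfl, h3⟩ := h
  obtain ⟨α, hα, la⟩ := mem_map.1 ha
  obtain ⟨β, hβ, lb⟩ := mem_map.1 hb
  refine ⟨T, h1, rfl, h3, α, hα, β, hβ, la, lb, fun j hj => ?_⟩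
  by_contra hn
  simp only [Dead, not_or, not_exists, not_and, not_not] at hn
  obtain ⟨n1, n2, n3, n4⟩ := hn
  have hj' := h1.2 j hj
  simp only [countP_map, ← countP_eq_card_filter] at hd
  rcases hd with hd | hd
  · have := countP_lt (p := fun c : List ℕ => t + 1 < c.length) (q := (j ∈ ·)) n2 hβ (by omega) n4
    omega
  · have := countP_lt (p := (j ∈ ·)) (q := fun c : List ℕ => t ≤ c.length)
      (fun c hc hjc => by by_contra hlt; exact n1 c hc (by omega) hjc) hα n3 (by omega)
    omega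

lemma valid_ext {m d : ℕ} {U : Multiset (Bool × List ℕ)} (h : Valid m d (U.map Prod.snd))
    (hd : U.countP (·.1 = true) = d) : Valid (m + 1) d (U.map ext) := by
  refine ⟨fun c hc => ?_, fun j hj => ?_⟩
  · obtain ⟨q, hq, rfl⟩ := mem_map.1 hc
    have := h.1 q.2 (mem_map_of_mem _ hq)
    refine ⟨ext_nodup this.1, fun j hj => ?_⟩
    cases j with
    | zero => omega
    | succ j => have := this.2 j ((succ_mem_ext q j).1 hj); omega
  · cases j with
    | zero =>
      rw [← hd, countP_map, ← countP_eq_card_filter]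
      exact countP_congr rfl fun q _ => by simp [zero_mem_ext]
    | succ j =>
      rw [← h.2 j (by omega), countP_map, countP_map, ← countP_eq_card_filter,
        ← countP_eq_card_filter]
      exact countP_congr rfl fun q _ => by simp [succ_mem_ext]

def sc (wt : ℕ → ℕ) (piv : ℤ) (j j' : ℕ) (c : List ℕ) : ℤ :=
  ((if j' ∈ c then 1 else 0) - (if j ∈ c then 1 else 0)) * ((wt (c.length - 1) : ℤ) - piv)

lemma sum_sc (wt : ℕ → ℕ) (piv : ℤ) (j j' : ℕ) (T : Multiset (List ℕ)) :
    (T.map (sc wt piv j j')).sum = (cost wt T j' : ℤ) - cost wt T j -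
      piv * ((T.countP (j' ∈ ·) : ℤ) - T.countP (j ∈ ·)) := by
  induction T using Multiset.induction_on with
  | empty => simp [cost]
  | cons c T ih =>
    have : ∀ j, cost wt (c ::ₘ T) j = cst wt j c + cost wt T j := fun j => by simp [cost]
    rw [map_cons, sum_cons, ih, this, this, countP_cons, countP_cons]
    unfold sc cst
    split_ifs <;> push_cast <;> ring

lemma le_sum_of {α : Type*} {f : α → ℤ} {T : Multiset α} (h : ∀ c ∈ T, 0 ≤ f c) {c0 : α}
    (h0 : c0 ∈ T) : f c0 ≤ (T.map f).sum :=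
  single_le_sum (fun x hx => by obtain ⟨c, hc, rfl⟩ := mem_map.1 hx; exact h c hc) _
    (mem_map_of_mem f h0)

/-- an extreme letter beats every non-extreme one -/
lemma cost_lt_of_extreme {T : Multiset (List ℕ)} {τ j : ℕ}
    (hc : T.countP (0 ∈ ·) = T.countP (j ∈ ·)) (hτ : 1 ≤ τ)
    (h1 : ∀ c ∈ T, τ < c.length → 0 ∈ c) (h2 : ∀ c ∈ T, c.length < τ → 0 ∉ c)
    (h : (∃ c ∈ T, c.length < τ ∧ j ∈ c) ∨ (∃ c ∈ T, τ < c.length ∧ j ∉ c)) :
    cost id T j < cost id T 0 := by
  have hs := sum_sc id ((τ : ℤ) - 1) j 0 T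
  have hn : ∀ c ∈ T, 0 ≤ sc id ((τ : ℤ) - 1) j 0 c := by
    intro c hc
    have a1 := h1 c hc
    have a2 := h2 c hc
    unfold sc
    split_ifs with x y y
    · simp
    · have : τ ≤ c.length := by by_contra h; exact a2 (by omega) x
      simp only [id]; omega
    · have : c.length ≤ τ := by by_contra h; exact x (a1 (by omega))
      simp only [id]; omega
    · simp
  have : 0 < (T.map (sc id ((τ : ℤ) - 1) j 0)).sum := by
    rcases h with ⟨c, hc, l, hj⟩ | ⟨c, hc, l, hj⟩
    · refine lt_of_lt_of_le ?_ (le_sum_of hn hc)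
      have := List.length_pos_of_mem hj
      simp only [sc, if_pos hj, if_neg (h2 c hc l), id]; omega
    · refine lt_of_lt_of_le ?_ (le_sum_of hn hc)
      simp only [sc, if_neg hj, if_pos (h1 c hc l), id]; omega
  rw [hs, hc] at this
  omega

lemma map_eq_add {α β : Type*} (f : α → β) (X Y : Multiset β) (T : Multiset α)
    (h : T.map f = X + Y) : ∃ T1 T2, T = T1 + T2 ∧ T1.map f = X ∧ T2.map f = Y := by
  classical
  induction X using Multiset.induction_on generalizing T with
  | empty => exact ⟨0, T, by simp, by simp, by simpa using h⟩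
  | cons x X ih =>
    rw [cons_add] at h
    obtain ⟨a, ha, hx, h'⟩ := (map_eq_cons f T _ x).2 h
    obtain ⟨T1, T2, e, e1, e2⟩ := ih _ h'
    exact ⟨a ::ₘ T1, T2, by rw [cons_add, ← e, cons_erase ha], by simp [hx, e1], e2⟩

lemma split_card {α : Type*} (n k : ℕ) (s : Multiset α) (h : card s = n + k) :
    ∃ u v, s = u + v ∧ card u = n ∧ card v = k := by
  have : s.map (fun _ => ()) = replicate n () + replicate k () := by
    rw [map_const', h, replicate_add]
  obtain ⟨u, v, e, e1, e2⟩ := map_eq_add _ _ _ _ this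
  exact ⟨u, v, e, by simpa using congrArg card e1, by simpa using congrArg card e2⟩

lemma len_of_rep {A : Multiset (List ℕ)} {n t : ℕ} (h : A.map List.length = replicate n t) :
    card A = n ∧ ∀ c ∈ A, c.length = t :=
  ⟨by simpa using congrArg card h, fun c hc => eq_of_mem_replicate (h ▸ mem_map_of_mem _ hc)⟩

lemma rep_of_len {α : Type*} {A : Multiset α} {f : α → ℕ} {n t : ℕ} (h1 : card A = n)
    (h2 : ∀ c ∈ A, f c = t) : A.map f = replicate n t := by
  rw [eq_replicate]
  refine ⟨by simpa using h1, fun b hb => ?_⟩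
  obtain ⟨c, hc, rfl⟩ := mem_map.1 hb
  exact h2 c hc

/-- unpacking `Kp` along a decomposition of the shape -/
lemma Kp.unpack {m d t x y : ℕ} {Sm Lg : Multiset ℕ} (hS : ∀ i ∈ Sm, i < t)
    (hL : ∀ i ∈ Lg, t + 1 < i)
    (h : Kp m d t (Sm + replicate (x + 1) t + replicate (y + 1) (t + 1) + Lg)) :
    ∃ (TS TA TB TL : Multiset (List ℕ)) (α β : List ℕ),
      Valid m d (TS + (α ::ₘ TA) + (β ::ₘ TB) + TL) ∧ NZ m (TS + (α ::ₘ TA) + (β ::ₘ TB) + TL) ∧
      TS.map List.length = Sm ∧ TL.map List.length = Lg ∧ card TA = x ∧ card TB = y ∧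
      α.length = t ∧ β.length = t + 1 ∧ (∀ c ∈ TA, c.length = t) ∧ (∀ c ∈ TB, c.length = t + 1) ∧
      (∀ c ∈ TS, c.length < t) ∧ (∀ c ∈ TL, t + 1 < c.length) ∧
      ∀ j < m, (∃ c ∈ TS, j ∈ c) ∨ (∃ c ∈ TL, j ∉ c) ∨ j ∈ α ∨ j ∉ β := by
  obtain ⟨T, h1, h2, h3, α, hα, β, hβ, la, lb, hd⟩ := h
  obtain ⟨T1, TL, rfl, e1, eL⟩ := map_eq_add _ _ _ _ h2
  obtain ⟨T2, TB, rfl, e2, eB⟩ := map_eq_add _ _ _ _ e1
  obtain ⟨TS, TA, rfl, eS, eA⟩ := map_eq_add _ _ _ _ e2
  obtain ⟨cA, lA⟩ := len_of_rep eA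
  obtain ⟨cB, lB⟩ := len_of_rep eB
  have lS : ∀ c ∈ TS, c.length < t := fun c hc => hS _ (eS ▸ mem_map_of_mem _ hc)
  have lL : ∀ c ∈ TL, t + 1 < c.length := fun c hc => hL _ (eL ▸ mem_map_of_mem _ hc)
  have hαA : α ∈ TA := by
    simp only [mem_add] at hα
    rcases hα with ((h | h) | h) | h
    · have := lS _ h; omega
    · exact h
    · have := lB _ h; omega
    · have := lL _ h; omega
  have hβB : β ∈ TB := by
    simp only [mem_add] at hβ
    rcases hβ with ((h | h) | h) | h
    · have := lS _ h; omega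
    · have := lA _ h; omega
    · exact h
    · have := lL _ h; omega
  obtain ⟨TA', rfl⟩ := exists_cons_of_mem hαA
  obtain ⟨TB', rfl⟩ := exists_cons_of_mem hβB
  refine ⟨TS, TA', TB', TL, α, β, h1, h3, eS, eL, by simpa using cA, by simpa using cB, la, lb,
    fun c hc => lA c (mem_cons_of_mem hc), fun c hc => lB c (mem_cons_of_mem hc), lS, lL,
    fun j hj => ?_⟩
  rcases hd j hj with ⟨c, hc, l, h⟩ | ⟨c, hc, l, h⟩ | h
  · refine Or.inl ⟨c, ?_, h⟩
    simp only [mem_add] at hc
    rcases hc with ((h | h) | h) | h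
    · exact h
    · have := lA _ h; omega
    · have := lB _ h; omega
    · have := lL _ h; omega
  · refine Or.inr (Or.inl ⟨c, ?_, h⟩)
    simp only [mem_add] at hc
    rcases hc with ((h | h) | h) | h
    · have := lS _ h; omega
    · have := lA _ h; omega
    · have := lB _ h; omega
    · exact h
  · exact Or.inr (Or.inr h)

theorem Kp.step {m d t a q p b : ℕ} {Sm Lg : Multiset ℕ} (hS : ∀ i ∈ Sm, i < t)
    (hL : ∀ i ∈ Lg, t + 1 < i) (hd : d = card Lg + (b + 1) + q)
    (h : Kp m d t (Sm + replicate (q + a + 1) t + replicate (p + b + 1) (t + 1) + Lg)) :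
    let ν := Sm + replicate (a + 1) t + replicate (q + p) (t + 1) + replicate (b + 1) (t + 2) +
      Lg.map (· + 1)
    (1 ≤ p → Kp (m + 1) d t ν) ∧ (1 ≤ q → Kp (m + 1) d (t + 1) ν) := by
  intro ν
  obtain ⟨TS, TA, TB, TL, α, β, hV, hN, eS, eL, cA, cB, la, lb, lA, lB, lS, lL, hD⟩ :=
    h.unpack hS hL
  obtain ⟨A1, A0, rfl, cA1, cA0⟩ := split_card _ _ _ cA
  obtain ⟨B0, B1, rfl, cB0, cB1⟩ := split_card _ _ _ cB
  have lA1 : ∀ c ∈ A1, c.length = t := fun c hc => lA c (mem_add.2 (Or.inl hc))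
  have lA0 : ∀ c ∈ A0, c.length = t := fun c hc => lA c (mem_add.2 (Or.inr hc))
  have lB0 : ∀ c ∈ B0, c.length = t + 1 := fun c hc => lB c (mem_add.2 (Or.inl hc))
  have lB1 : ∀ c ∈ B1, c.length = t + 1 := fun c hc => lB c (mem_add.2 (Or.inr hc))
  set U : Multiset (Bool × List ℕ) := (TS + (α ::ₘ A0) + B0).map (false, ·) +
    (A1 + (β ::ₘ B1) + TL).map (true, ·) with hU
  have hsnd : U.map Prod.snd = TS + (α ::ₘ (A1 + A0)) + (β ::ₘ (B0 + B1)) + TL := by
    simp only [hU, Multiset.map_add, Multiset.map_map, Function.comp_def, map_id', ← singleton_add]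
    abel
  have cL : card TL = card Lg := by rw [← eL, card_map]
  have hV' : Valid (m + 1) d (U.map ext) := by
    refine valid_ext (hsnd ▸ hV) ?_
    simp [hU, countP_map, cA1, cB1, cL, hd]; omega
  have mF : ∀ c, c ∈ TS ∨ c = α ∨ c ∈ A0 ∨ c ∈ B0 → ext (false, c) ∈ U.map ext := by
    intro c hc
    refine mem_map_of_mem _ (mem_add.2 (Or.inl (mem_map_of_mem _ ?_)))
    simp only [mem_add, mem_cons]; tauto
  have mT : ∀ c, c ∈ A1 ∨ c = β ∨ c ∈ B1 ∨ c ∈ TL → ext (true, c) ∈ U.map ext := by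
    intro c hc
    refine mem_map_of_mem _ (mem_add.2 (Or.inr (mem_map_of_mem _ ?_)))
    simp only [mem_add, mem_cons]; tauto
  have cases' : ∀ c ∈ U.map ext, (0 ∉ c ∧ c.length ≤ t + 1) ∨ (0 ∈ c ∧ t + 1 ≤ c.length) := by
    intro c' hc'
    obtain ⟨u, hu, rfl⟩ := mem_map.1 hc'
    rcases mem_add.1 hu with hu | hu <;> obtain ⟨c, hc, rfl⟩ := mem_map.1 hu <;>
      simp only [Multiset.mem_add, Multiset.mem_cons] at hc
    · refine Or.inl ⟨by simp [zero_mem_ext], ?_⟩
      simp only [length_ext, Bool.false_eq_true, if_false]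
      rcases hc with (h | rfl | h) | h
      · have := lS _ h; omega
      · omega
      · have := lA0 _ h; omega
      · have := lB0 _ h; omega
    · refine Or.inr ⟨by simp [zero_mem_ext], ?_⟩
      simp only [length_ext, if_true]
      rcases hc with (h | rfl | h) | h
      · have := lA1 _ h; omega
      · omega
      · have := lB1 _ h; omega
      · have := lL _ h; omega
  have hN' : NZ (m + 1) (U.map ext) := by
    refine NZ_step (wt := id) strictMono_id U (fun u hu => ?_) (fun j hj => ?_) (hsnd ▸ hN)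
    · exact (hV.1 _ (hsnd ▸ mem_map_of_mem _ hu)).1
    · refine cost_lt_of_extreme (τ := t + 1) ((hV'.2 0 (by omega)).trans (hV'.2 _ (by omega)).symm)
        (by omega) (fun c hc l => ?_) (fun c hc l => ?_) ?_
      · rcases cases' c hc with h | h
        · omega
        · exact h.1
      · rcases cases' c hc with h | h
        · exact h.1
        · omega
      · rcases hD j hj with ⟨c, hc, h⟩ | ⟨c, hc, h⟩ | h | h
        · exact Or.inl ⟨_, mF c (Or.inl hc), by have := lS c hc; simp [length_ext]; omega,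
            (succ_mem_ext _ _).2 h⟩
        · exact Or.inr ⟨_, mT c (by tauto), by have := lL c hc; simp [length_ext]; omega,
            by rwa [succ_mem_ext]⟩
        · exact Or.inl ⟨_, mF α (by tauto), by simp [length_ext, la], (succ_mem_ext _ _).2 h⟩
        · exact Or.inr ⟨_, mT β (by tauto), by simp [length_ext, lb], by rwa [succ_mem_ext]⟩
  have hsh : (U.map ext).map List.length = ν := by
    have x1 : A0.map List.length = replicate a t := rep_of_len cA0 lA0
    have x2 : B0.map List.length = replicate p (t + 1) := rep_of_len cB0 lB0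
    have x3 : A1.map (fun c => c.length + 1) = replicate q (t + 1) :=
      rep_of_len cA1 fun c hc => by rw [lA1 c hc]
    have x4 : B1.map (fun c => c.length + 1) = replicate b (t + 2) :=
      rep_of_len cB1 fun c hc => by rw [lB1 c hc]
    have x5 : TL.map (fun c => c.length + 1) = Lg.map (· + 1) := by
      rw [← eL, Multiset.map_map]; rfl
    simp only [hU, Multiset.map_add, Multiset.map_map, Function.comp_def, length_ext, map_singleton,
      Bool.false_eq_true, if_false, if_true, add_zero, x1, x2, x3, x4, x5, la, lb, ν,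
      replicate_add, replicate_one, ← singleton_add]
    rw [show TS.map (fun c => c.length) = Sm from eS]
    abel
  constructor
  · intro hp
    obtain ⟨b0, hb0⟩ := card_pos_iff_exists_mem.1 (show 0 < card B0 by omega)
    refine ⟨_, hV', hsh, hN', _, mF α (by tauto), _, mF b0 (by tauto), by simp [length_ext, la],
      by simp [length_ext, lB0 b0 hb0], fun j hj => ?_⟩
    cases j with
    | zero => exact Or.inr (Or.inr (Or.inr (by simp [zero_mem_ext])))
    | succ j =>
      rcases hD j (by omega) with ⟨c, hc, h⟩ | ⟨c, hc, h⟩ | h | h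
      · exact Or.inl ⟨_, mF c (Or.inl hc), by have := lS c hc; simpa [length_ext],
          (succ_mem_ext _ _).2 h⟩
      · exact Or.inr (Or.inl ⟨_, mT c (by tauto), by have := lL c hc; simp [length_ext]; omega,
          by rwa [succ_mem_ext]⟩)
      · exact Or.inr (Or.inr (Or.inl ((succ_mem_ext _ _).2 h)))
      · exact Or.inr (Or.inl ⟨_, mT β (by tauto), by simp [length_ext, lb],
          by rwa [succ_mem_ext]⟩)
  · intro hq
    obtain ⟨a1, ha1⟩ := card_pos_iff_exists_mem.1 (show 0 < card A1 by omega)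
    refine ⟨_, hV', hsh, hN', _, mT a1 (by tauto), _, mT β (by tauto),
      by simp [length_ext, lA1 a1 ha1], by simp [length_ext, lb], fun j hj => ?_⟩
    cases j with
    | zero => exact Or.inr (Or.inr (Or.inl (by simp [zero_mem_ext])))
    | succ j =>
      rcases hD j (by omega) with ⟨c, hc, h⟩ | ⟨c, hc, h⟩ | h | h
      · exact Or.inl ⟨_, mF c (Or.inl hc), by have := lS c hc; simp [length_ext]; omega,
          (succ_mem_ext _ _).2 h⟩
      · exact Or.inr (Or.inl ⟨_, mT c (by tauto), by have := lL c hc; simp [length_ext]; omega,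
          by rwa [succ_mem_ext]⟩)
      · exact Or.inl ⟨_, mF α (by tauto), by simp [length_ext, la], (succ_mem_ext _ _).2 h⟩
      · exact Or.inr (Or.inr (Or.inr (by rwa [succ_mem_ext])))

lemma len_e2 (p : Bool × Bool × List ℕ) :
    (e2 p).length = p.2.2.length + (if p.2.1 then 1 else 0) + if p.1 then 1 else 0 := by
  simp [e2, length_ext]

lemma mem_e2_zero (p : Bool × Bool × List ℕ) : 0 ∈ e2 p ↔ p.1 = true := zero_mem_ext _
lemma mem_e2_one (p : Bool × Bool × List ℕ) : 1 ∈ e2 p ↔ p.2.1 = true :=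
  (succ_mem_ext _ 0).trans (zero_mem_ext _)
lemma mem_e2_two (p : Bool × Bool × List ℕ) (j : ℕ) : j + 2 ∈ e2 p ↔ j ∈ p.2.2 :=
  (succ_mem_ext _ (j + 1)).trans (succ_mem_ext _ j)

lemma cost_add (wt : ℕ → ℕ) (T U : Multiset (List ℕ)) (j : ℕ) :
    cost wt (T + U) j = cost wt T j + cost wt U j := by simp [cost]

lemma countP_single {α : Type*} (p : α → Prop) [DecidablePred p] (a : α) :
    countP p {a} = if p a then 1 else 0 := by
  rw [← cons_zero, countP_cons]; simp

lemma cost_single (wt : ℕ → ℕ) (c : List ℕ) (j : ℕ) : cost wt {c} j = cst wt j c := by simp [cost]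

theorem Kp.step2 {m d t a a' b b' : ℕ} {Sm Lg : Multiset ℕ} (hS : ∀ i ∈ Sm, i < t)
    (hL : ∀ i ∈ Lg, t + 1 < i) (hd : d = card Lg + (b + 1) + b' + 2) (hev : Even d)
    (h : Kp m d t (Sm + replicate (2 + b' + a + 1) t + replicate (2 + a' + b + 1) (t + 1) + Lg)) :
    Kp (m + 2) d (t + 1) (Sm + replicate (a + 1) t + replicate (2 + a') (t + 1) +
      replicate (b' + 2) (t + 2) + replicate (b + 1) (t + 3) + Lg.map (· + 2)) := by
  obtain ⟨TS, TA, TB, TL, α, β, hV, hN, eS, eL, cA, cB, la, lb, lA, lB, lS, lL, hD⟩ :=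
    h.unpack hS hL
  obtain ⟨A12, A0, rfl, cA12, cA0⟩ := split_card _ _ _ cA
  obtain ⟨A1, A2, rfl, cA1, cA2⟩ := split_card _ _ _ cA12
  obtain ⟨α1, α2, rfl⟩ := card_eq_two.1 cA1
  obtain ⟨B01, B2, rfl, cB01, cB2⟩ := split_card _ _ _ cB
  obtain ⟨B1, B0, rfl, cB1, cB0⟩ := split_card _ _ _ cB01
  obtain ⟨β1, β2, rfl⟩ := card_eq_two.1 cB1
  have lα1 : α1.length = t := lA _ (by simp)
  have lα2 : α2.length = t := lA _ (by simp)
  have lβ1 : β1.length = t + 1 := lB _ (by simp)
  have lβ2 : β2.length = t + 1 := lB _ (by simp)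
  have lA2 : ∀ c ∈ A2, c.length = t := fun c hc => lA c (by simp [hc])
  have lA0 : ∀ c ∈ A0, c.length = t := fun c hc => lA c (by simp [hc])
  have lB0 : ∀ c ∈ B0, c.length = t + 1 := fun c hc => lB c (by simp [hc])
  have lB2 : ∀ c ∈ B2, c.length = t + 1 := fun c hc => lB c (by simp [hc])
  obtain ⟨N, hNdef⟩ : ∃ N, N = TS + (α ::ₘ A0) + B0 := ⟨_, rfl⟩
  obtain ⟨Bo, hBo⟩ : ∃ Bo, Bo = A2 + (β ::ₘ B2) + TL := ⟨_, rfl⟩
  obtain ⟨U, hU⟩ : ∃ U : Multiset (Bool × Bool × List ℕ), U = N.map (false, false, ·) +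
    Bo.map (true, true, ·) + {(true, false, α1)} + {(false, true, α2)} + {(false, true, β1)} +
    {(true, false, β2)} := ⟨_, rfl⟩
  have hsnd : (U.map fun p => p.2.2) =
      TS + (α ::ₘ ({α1, α2} + A2 + A0)) + (β ::ₘ ({β1, β2} + B0 + B2)) + TL := by
    simp only [hU, hNdef, hBo, Multiset.map_add, Multiset.map_map, Function.comp_def, map_id',
      insert_eq_cons, ← singleton_add, map_singleton]
    abel
  have cL : card TL = card Lg := by rw [← eL, card_map]
  have cBo : card Bo + 2 = d := by simp [hBo, cA2, cB2, cL, hd]; omega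
  have lN : ∀ c ∈ N, c.length ≤ t + 1 := by
    intro c hc
    simp only [hNdef, Multiset.mem_add, Multiset.mem_cons] at hc
    rcases hc with (h | rfl | h) | h
    · have := lS _ h; omega
    · omega
    · have := lA0 _ h; omega
    · have := lB0 _ h; omega
  have lBo : ∀ c ∈ Bo, t ≤ c.length := by
    intro c hc
    simp only [hBo, Multiset.mem_add, Multiset.mem_cons] at hc
    rcases hc with (h | rfl | h) | h
    · have := lA2 _ h; omega
    · omega
    · have := lB2 _ h; omega
    · have := lL _ h; omega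
  have hD' : ∀ j < m, (∃ c ∈ N, c.length ≤ t ∧ j ∈ c) ∨ (∃ c ∈ Bo, t + 1 ≤ c.length ∧ j ∉ c) := by
    intro j hj
    rcases hD j hj with ⟨c, hc, h⟩ | ⟨c, hc, h⟩ | h | h
    · exact Or.inl ⟨c, by simp [hNdef, hc], (lS c hc).le, h⟩
    · exact Or.inr ⟨c, by simp [hBo, hc], (lL c hc).le, h⟩
    · exact Or.inl ⟨α, by simp [hNdef], la.le, h⟩
    · exact Or.inr ⟨β, by simp [hBo], lb.ge, h⟩
  have mN : ∀ c ∈ N, (false, false, c) ∈ U := fun c hc => by simp [hU, hc]
  have mB : ∀ c ∈ Bo, (true, true, c) ∈ U := fun c hc => by simp [hU, hc]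
  have casesU : ∀ u ∈ U, (∃ c ∈ N, u = (false, false, c)) ∨ (∃ c ∈ Bo, u = (true, true, c)) ∨
      u = (true, false, α1) ∨ u = (false, true, α2) ∨ u = (false, true, β1) ∨
      u = (true, false, β2) := by
    intro u hu
    simp only [hU, Multiset.mem_add, mem_map, mem_singleton] at hu
    rcases hu with ((((⟨c, hc, rfl⟩ | ⟨c, hc, rfl⟩) | h) | h) | h) | h
    · exact Or.inl ⟨c, hc, rfl⟩
    · exact Or.inr (Or.inl ⟨c, hc, rfl⟩)
    all_goals tauto
  have hVa : Valid (m + 1) d (U.map fun p => ext (p.2.1, p.2.2)) := by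
    have := valid_ext (m := m) (d := d) (U := U.map fun p => (p.2.1, p.2.2))
      (by rw [Multiset.map_map]; exact hsnd ▸ hV)
      (by rw [← cBo]; simp [hU, countP_map, countP_single])
    rwa [Multiset.map_map] at this
  have hVb : Valid (m + 1) d (U.map fun p => ext (p.1, p.2.2)) := by
    have := valid_ext (m := m) (d := d) (U := U.map fun p => (p.1, p.2.2))
      (by rw [Multiset.map_map]; exact hsnd ▸ hV)
      (by rw [← cBo]; simp [hU, countP_map, countP_single])
    rwa [Multiset.map_map] at this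
  have hV' : Valid (m + 2) d (U.map e2) := by
    have := valid_ext (m := m + 1) (d := d) (U := U.map fun p => (p.1, ext (p.2.1, p.2.2)))
      (by rw [Multiset.map_map]; exact hVa)
      (by rw [← cBo]; simp [hU, countP_map, countP_single])
    rwa [Multiset.map_map] at this
  have lvl1 : ∀ f : Bool × Bool × List ℕ → Bool, (∀ c, f (false, false, c) = false) →
      (∀ c, f (true, true, c) = true) → Valid (m + 1) d (U.map fun p => ext (f p, p.2.2)) →
      ∀ j < m, cost id (U.map fun p => ext (f p, p.2.2)) (j + 1) <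
        cost id (U.map fun p => ext (f p, p.2.2)) 0 := by
    intro f f0 f1 hW j hj
    refine cost_lt_of_extreme (τ := t + 1) ((hW.2 0 (by omega)).trans (hW.2 _ (by omega)).symm)
      (by omega) (fun c hc l => ?_) (fun c hc l => ?_) ?_
    · obtain ⟨u, hu, rfl⟩ := mem_map.1 hc
      rw [zero_mem_ext]
      by_contra hf
      simp only [length_ext, hf, if_false] at l
      rcases casesU u hu with ⟨c0, hc0, rfl⟩ | ⟨c0, hc0, rfl⟩ | rfl | rfl | rfl | rfl
      · have := lN c0 hc0; simp at l; omega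
      · exact hf (f1 c0)
      all_goals simp at l; omega
    · obtain ⟨u, hu, rfl⟩ := mem_map.1 hc
      rw [zero_mem_ext]
      intro hf
      simp only [length_ext] at l hf
      rw [if_pos hf] at l
      rcases casesU u hu with ⟨c0, hc0, rfl⟩ | ⟨c0, hc0, rfl⟩ | rfl | rfl | rfl | rfl
      · simp [f0] at hf
      · have := lBo c0 hc0; simp at l; omega
      all_goals simp at l; omega
    · rcases hD' j hj with ⟨c, hc, l, h⟩ | ⟨c, hc, l, h⟩
      · exact Or.inl ⟨_, mem_map_of_mem _ (mN c hc), by simp [length_ext, f0]; omega,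
          (succ_mem_ext _ _).2 h⟩
      · exact Or.inr ⟨_, mem_map_of_mem _ (mB c hc), by simp [length_ext, f1]; omega,
          by rwa [succ_mem_ext]⟩
  have hN' : NZ (m + 2) (U.map e2) := by
    refine NZ_step2 (wt := fun r => if r ≤ t + 1 then r else r + 1) (wt' := id) ?_ strictMono_id U
      (fun u hu => ?_) ?_ ?_ (fun j hj => ?_) (lvl1 (fun p => p.2.1) (by simp) (by simp) hVa)
      (lvl1 (fun p => p.1) (by simp) (by simp) hVb) ?_ (hsnd ▸ hN)
    · intro x y hxy
      simp only
      split_ifs <;> omega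
    · exact (hV.1 _ (hsnd ▸ mem_map_of_mem (fun p => p.2.2) hu)).1
    · have : U.countP (fun p => p.1 = true ∧ p.2.1 = true) = card Bo := by
        simp [hU, countP_map, countP_single]
      rw [this]
      rw [← cBo] at hev
      exact (Nat.even_add.1 hev).2 even_two
    · simp only [hU, Multiset.map_add, Multiset.map_map, Function.comp_def, cost_add,
        map_singleton, cost_single, e2, e2', cst, zero_mem_ext, length_ext, lα1, lα2, lβ1, lβ2]
      simp
    · have hs := sum_sc (fun r => if r ≤ t + 1 then r else r + 1) ((t : ℤ) + 1) (j + 2) 0 (U.map e2)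
      rw [hV'.2 0 (by omega), hV'.2 _ (by omega)] at hs
      obtain ⟨U', hU'⟩ : ∃ U', U = (true, false, α1) ::ₘ U' ∧ U' = N.map (false, false, ·) +
          Bo.map (true, true, ·) + {(false, true, α2)} + {(false, true, β1)} +
          {(true, false, β2)} := ⟨_, by rw [hU, ← singleton_add]; abel, rfl⟩
      have hn : ∀ c ∈ U'.map e2,
          0 ≤ sc (fun r => if r ≤ t + 1 then r else r + 1) ((t : ℤ) + 1) (j + 2) 0 c := by
        intro c hc
        obtain ⟨u, hu, rfl⟩ := mem_map.1 hc
        simp only [hU'.2, Multiset.mem_add, mem_map, mem_singleton] at hu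
        rcases hu with (((⟨c0, hc0, rfl⟩ | ⟨c0, hc0, rfl⟩) | rfl) | rfl) | rfl
        · have := lN c0 hc0
          simp only [sc, mem_e2_zero, len_e2]; simp; split_ifs <;> omega
        · have := lBo c0 hc0
          simp only [sc, mem_e2_zero, len_e2]; simp; split_ifs <;> omega
        all_goals
          simp only [sc, mem_e2_zero, len_e2, lα2, lβ1, lβ2]; simp <;> split_ifs <;> omega
      have h2 : 2 ≤ ((U'.map e2).map
          (sc (fun r => if r ≤ t + 1 then r else r + 1) ((t : ℤ) + 1) (j + 2) 0)).sum := by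
        rcases hD' j hj with ⟨c, hc, l, h⟩ | ⟨c, hc, l, h⟩
        · refine le_trans ?_ (le_sum_of hn (mem_map_of_mem e2
            (show (false, false, c) ∈ U' by simp [hU'.2, hc])))
          have := List.length_pos_of_mem h
          simp only [sc, mem_e2_zero, mem_e2_two, len_e2, h]; simp; split_ifs <;> omega
        · refine le_trans ?_ (le_sum_of hn (mem_map_of_mem e2
            (show (true, true, c) ∈ U' by simp [hU'.2, hc])))
          simp only [sc, mem_e2_zero, mem_e2_two, len_e2, h]; simp; split_ifs <;> omega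
      have h3 : -1 ≤ sc (fun r => if r ≤ t + 1 then r else r + 1) ((t : ℤ) + 1) (j + 2) 0
          (e2 (true, false, α1)) := by
        simp only [sc, mem_e2_zero, len_e2, lα1]; simp; split_ifs <;> omega
      have h4 : ((U.map e2).map
          (sc (fun r => if r ≤ t + 1 then r else r + 1) ((t : ℤ) + 1) (j + 2) 0)).sum ≥ 1 := by
        rw [hU'.1, map_cons, map_cons, sum_cons]; omega
      omega
    · simp only [hU, Multiset.map_add, Multiset.map_map, Function.comp_def, cost_add,
        map_singleton, cost_single, cst, zero_mem_ext, length_ext, lα1, lα2, lβ1, lβ2]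
      simp
  refine ⟨_, hV', ?_, hN', e2 (true, false, α1), mem_map_of_mem _ (by simp [hU]),
    e2 (true, false, β2), mem_map_of_mem _ (by simp [hU]), by simp [len_e2, lα1],
    by simp [len_e2, lβ2], fun j hj => ?_⟩
  · have x1 : A0.map List.length = replicate a t := rep_of_len cA0 lA0
    have x2 : B0.map List.length = replicate a' (t + 1) := rep_of_len cB0 lB0
    have x3 : A2.map (fun c => c.length + 1 + 1) = replicate b' (t + 2) :=
      rep_of_len cA2 fun c hc => by rw [lA2 c hc]
    have x4 : B2.map (fun c => c.length + 1 + 1) = replicate b (t + 3) :=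
      rep_of_len cB2 fun c hc => by rw [lB2 c hc]
    have x5 : TL.map (fun c => c.length + 1 + 1) = Lg.map (· + 2) := by
      rw [← eL, Multiset.map_map]; rfl
    have r2 : ∀ x : ℕ, replicate 2 x = {x} + {x} := fun x => rfl
    simp only [hU, hNdef, hBo, Multiset.map_add, Multiset.map_map, Function.comp_def, len_e2,
      map_singleton, Bool.false_eq_true, if_false, if_true, add_zero, x1, x2, x3, x4, x5, la, lb,
      lα1, lα2, lβ1, lβ2, replicate_add, replicate_one, ← singleton_add, r2]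
    rw [show TS.map (fun c => c.length) = Sm from eS]
    abel
  · match j with
    | 0 => exact Or.inr (Or.inr (Or.inl (by simp [mem_e2_zero])))
    | 1 => exact Or.inr (Or.inr (Or.inr (by simp [mem_e2_one])))
    | j + 2 =>
      rcases hD' j (by omega) with ⟨c, hc, l, h⟩ | ⟨c, hc, l, h⟩
      · exact Or.inl ⟨_, mem_map_of_mem _ (mN c hc), by simp [len_e2]; omega,
          (mem_e2_two _ _).2 h⟩
      · exact Or.inr (Or.inl ⟨_, mem_map_of_mem _ (mB c hc), by simp [len_e2]; omega,
          by rwa [mem_e2_two]⟩)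

end MP7ebc2a
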