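import Pool.Agent.Lib.MP_7ebc2a_al.Core

/-! Top coefficients: adding one new letter (`NZ_step`) or two new letters (`NZ_step2`). -/

namespace MP7ebc2a
open Equiv Matrix Polynomial

variable {R : Type*} [CommRing R]

noncomputable def Zc (wt : ℕ → ℕ) (Y : ℕ → ℕ → R) : ℕ → ℕ → R[X]
  | r, 0 => X ^ wt r
  | r, j + 1 => C (Y r j)

/-- add the new letter `0` at the end of the column when the flag is set -/
def ext (p : Bool × List ℕ) : List ℕ := if p.1 then p.2.map (· + 1) ++ [0] else p.2.map (· + 1)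

def cst (wt : ℕ → ℕ) (j : ℕ) (c : List ℕ) : ℕ := if j ∈ c then wt (c.length - 1) else 0

def cost (wt : ℕ → ℕ) (T : Multiset (List ℕ)) (j : ℕ) : ℕ := (T.map (cst wt j)).sum

lemma deg_D {wt : ℕ → ℕ} (hw : Monotone wt) (Y : ℕ → ℕ → R[X]) (p : ℕ) (c : List ℕ)
    (hc : c.Nodup) (hY : ∀ r j, (Y r j).natDegree ≤ if j = p then wt r else 0) :
    (D Y c).natDegree ≤ cst wt p c := by
  unfold D Dn
  rw [det_apply']
  refine natDegree_sum_le_of_forall_le _ _ fun σ _ => ?_
  refine natDegree_mul_le.trans ?_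
  rw [natDegree_intCast, zero_add]
  refine (natDegree_prod_le _ _).trans ?_
  have h1 : ∀ i : Fin c.length, (Matrix.of (fun i j : Fin c.length => Y i (c.getD j 0)) (σ i) i).natDegree
      ≤ if c.getD i 0 = p then wt (c.length - 1) else 0 := by
    intro i
    refine (hY _ _).trans ?_
    split_ifs
    · exact hw (by have := (σ i).2; omega)
    · exact le_rfl
  refine (Finset.sum_le_sum fun i _ => h1 i).trans ?_
  rw [← Finset.sum_filter, Finset.sum_const, smul_eq_mul]
  unfold cst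
  split_ifs with hp
  · have : (Finset.univ.filter fun i : Fin c.length => c.getD i 0 = p).card ≤ 1 := by
      refine Finset.card_le_one.2 fun a ha b hb => ?_
      have ha := (Finset.mem_filter.1 ha).2
      have hb := (Finset.mem_filter.1 hb).2
      rw [List.getD_eq_getElem _ _ a.2] at ha
      rw [List.getD_eq_getElem _ _ b.2] at hb
      exact Fin.ext ((List.Nodup.getElem_inj_iff hc).1 (ha.trans hb.symm))
    calc _ ≤ 1 * wt (c.length - 1) := Nat.mul_le_mul_right _ this
      _ = _ := one_mul _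
  · have : (Finset.univ.filter fun i : Fin c.length => c.getD i 0 = p) = ∅ := by
      refine Finset.filter_eq_empty_iff.2 fun i _ h => hp ?_
      rw [← h]; exact getD_mem i.2
    rw [this]; simp

lemma deg_E {wt : ℕ → ℕ} (hw : Monotone wt) (Y : ℕ → ℕ → R[X]) (p : ℕ) (T : Multiset (List ℕ))
    (hT : ∀ c ∈ T, c.Nodup) (hY : ∀ r j, (Y r j).natDegree ≤ if j = p then wt r else 0) :
    (E Y T).natDegree ≤ cost wt T p := by
  induction T using Multiset.induction_on with
  | empty => simp [cost]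
  | cons c T ih =>
    rw [E_cons]
    refine natDegree_mul_le.trans ?_
    have := add_le_add (deg_D hw Y p c (hT c (Multiset.mem_cons_self _ _)) hY)
      (ih fun c' h => hT c' (Multiset.mem_cons_of_mem h))
    simpa [cost] using this

lemma Zc_deg (wt : ℕ → ℕ) (Y : ℕ → ℕ → R) (r j : ℕ) :
    (Zc wt Y r j).natDegree ≤ if j = 0 then wt r else 0 := by
  cases j with
  | zero => simpa [Zc] using natDegree_X_pow_le (R := R) (wt r)
  | succ j => simp [Zc]

lemma ext_nodup {p : Bool × List ℕ} (h : p.2.Nodup) : (ext p).Nodup := by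
  have h1 : (p.2.map (· + 1)).Nodup := h.map (add_left_injective 1)
  unfold ext
  split_ifs
  · rw [List.nodup_append]
    refine ⟨h1, by simp, ?_⟩
    intro a ha b hb
    obtain ⟨x, _, rfl⟩ := List.mem_map.1 ha
    simp at hb; omega
  · exact h1

lemma zero_mem_ext (p : Bool × List ℕ) : 0 ∈ ext p ↔ p.1 = true := by
  unfold ext; split_ifs with h <;> simp [h]

lemma succ_mem_ext (p : Bool × List ℕ) (j : ℕ) : j + 1 ∈ ext p ↔ j ∈ p.2 := by
  unfold ext; split_ifs with h <;> simp

lemma length_ext (p : Bool × List ℕ) : (ext p).length = p.2.length + if p.1 then 1 else 0 := by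
  unfold ext; split_ifs with h <;> simp

lemma D_snoc (Z : ℕ → ℕ → R) (c : List ℕ) (a : ℕ) :
    D Z (c ++ [a]) = ∑ i : Fin (c.length + 1), (-1) ^ ((i : ℕ) + c.length) * Z i a *
      (Matrix.of fun r j : Fin c.length => Z (i.succAbove r) (c.getD j 0)).det := by
  have : D Z (c ++ [a]) = Dn Z (c.length + 1) (fun j => (c ++ [a]).getD j 0) := by
    unfold D; simp
  rw [this]
  unfold Dn
  rw [det_succ_column _ (Fin.last _)]
  refine Finset.sum_congr rfl fun i _ => ?_
  congr 2
  · simp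
  · ext r j
    simp [Fin.succAbove_last]

lemma coeff_D_ext {wt : ℕ → ℕ} (hw : StrictMono wt) (Y : ℕ → ℕ → R) (p : Bool × List ℕ) :
    (D (Zc wt Y) (ext p)).coeff (cst wt 0 (ext p)) = D Y p.2 := by
  obtain ⟨b, c⟩ := p
  cases b with
  | false =>
    have h0 : cst wt 0 (ext (false, c)) = 0 := by simp [cst, zero_mem_ext]
    have h1 : D (Zc wt Y) (ext (false, c)) = C (D Y c) := by
      simp only [ext, Bool.false_eq_true, if_false]
      rw [D_map, map_D]; rfl
    rw [h0, h1, coeff_C_zero]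
  | true =>
    have h0 : cst wt 0 (ext (true, c)) = wt c.length := by
      simp [cst, zero_mem_ext, length_ext]
    rw [h0]
    simp only [ext, if_true]
    rw [D_snoc, finsetSum_coeff]
    have key : ∀ i : Fin ((c.map (· + 1)).length + 1),
        (Matrix.of fun r j : Fin (c.map (· + 1)).length =>
          Zc wt Y (i.succAbove r) ((c.map (· + 1)).getD j 0)).det =
        C (Matrix.of fun r j : Fin (c.map (· + 1)).length =>
          Y (i.succAbove r) (c.getD j 0)).det := by
      intro i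
      rw [RingHom.map_det]
      congr 1
      ext1 r j
      have hj : (j : ℕ) < c.length := by simpa using j.2
      simp only [Matrix.of_apply, RingHom.mapMatrix_apply, Matrix.map_apply]
      rw [List.getD_eq_getElem _ _ j.2, List.getD_eq_getElem _ _ hj, List.getElem_map]
      rfl
    simp only [key]
    rw [Finset.sum_eq_single (Fin.last _)]
    · have h2 : (-1 : R[X]) ^ (((Fin.last (c.map (· + 1)).length : Fin _) : ℕ) +
          (c.map (· + 1)).length) = 1 := by
        rw [Fin.val_last, ← two_mul, pow_mul]; simp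
      rw [h2, one_mul, coeff_mul_C]
      simp only [Zc, Fin.val_last, List.length_map, coeff_X_pow_self, one_mul]
      have : D Y c = Dn Y (c.map (· + 1)).length (fun j => c.getD j 0) := by
        unfold D; simp
      rw [this]
      unfold Dn
      congr 1
      ext r j
      simp [Fin.succAbove_last]
    · intro i _ hi
      have hlt : (i : ℕ) < c.length := by
        have := Fin.val_lt_last hi
        simpa using this
      have h3 : (-1 : R[X]) ^ ((i : ℕ) + (c.map (· + 1)).length) =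
          C ((-1) ^ ((i : ℕ) + (c.map (· + 1)).length)) := by simp
      rw [h3, coeff_mul_C, coeff_C_mul]
      simp only [Zc, coeff_X_pow]
      rw [if_neg (hw hlt).ne']
      simp
    · simp

lemma coeff_E_ext {wt : ℕ → ℕ} (hw : StrictMono wt) (Y : ℕ → ℕ → R)
    (U : Multiset (Bool × List ℕ)) (hU : ∀ p ∈ U, p.2.Nodup) :
    (E (Zc wt Y) (U.map ext)).coeff (cost wt (U.map ext) 0) = E Y (U.map Prod.snd) := by
  induction U using Multiset.induction_on with
  | empty => simp [cost]
  | cons p U ih =>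
    have hp := hU p (Multiset.mem_cons_self _ _)
    have hU' : ∀ q ∈ U, q.2.Nodup := fun q h => hU q (Multiset.mem_cons_of_mem h)
    have hc : cost wt ((p ::ₘ U).map ext) 0 = cst wt 0 (ext p) + cost wt (U.map ext) 0 := by
      simp [cost]
    rw [hc, Multiset.map_cons, Multiset.map_cons, E_cons, E_cons,
      coeff_mul_add_eq_of_natDegree_le
        (deg_D hw.monotone _ 0 _ (ext_nodup hp) (Zc_deg wt Y))
        (deg_E hw.monotone _ 0 _ ?_ (Zc_deg wt Y)), coeff_D_ext hw, ih hU']
    intro c hc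
    obtain ⟨q, hq, rfl⟩ := Multiset.mem_map.1 hc
    exact ext_nodup (hU' q hq)

def lift {m : ℕ} (e : Perm (Fin m)) : Perm (Fin (m + 1)) := Perm.decomposeFin.symm (0, e)

lemma lift_zero {m : ℕ} (e : Perm (Fin m)) : lift e 0 = 0 := by simp [lift]

lemma lift_succ {m : ℕ} (e : Perm (Fin m)) (j : Fin m) : lift e j.succ = (e j).succ := by
  simp [lift]

lemma lift_inv {m : ℕ} (e : Perm (Fin m)) : lift e⁻¹ = (lift e)⁻¹ := by
  rw [eq_inv_iff_mul_eq_one]
  ext j
  refine Fin.cases ?_ (fun j => ?_) j <;> simp [lift_zero, lift_succ]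

lemma sum_perm_succ {M : Type*} [AddCommMonoid M] {m : ℕ} (f : Perm (Fin (m + 1)) → M) :
    ∑ w, f w = ∑ p : Fin (m + 1), ∑ e : Perm (Fin m), f (lift e * swap 0 p) := by
  rw [← Equiv.sum_comp (Equiv.inv _), ← Equiv.sum_comp Perm.decomposeFin.symm,
    Fintype.sum_prod_type]
  refine Finset.sum_congr rfl fun p _ => ?_
  rw [← Equiv.sum_comp (Equiv.inv _)]
  refine Finset.sum_congr rfl fun e _ => ?_
  congr 1
  have : Perm.decomposeFin.symm (p, e⁻¹) = swap 0 p * lift e⁻¹ := by
    ext j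
    refine Fin.cases ?_ (fun j => ?_) j <;> simp [lift_zero, lift_succ]
  simp [this, lift_inv]

lemma wa_lift_zero {m : ℕ} (e : Perm (Fin m)) : wa (lift e) 0 = 0 := by
  simp [wa, lift_zero]

lemma wa_lift_succ {m : ℕ} (e : Perm (Fin m)) (j : ℕ) : wa (lift e) (j + 1) = wa e j + 1 := by
  unfold wa
  by_cases h : j < m
  · have h' : j + 1 < m + 1 := by omega
    rw [dif_pos h, dif_pos h']
    have : (⟨j + 1, h'⟩ : Fin (m + 1)) = (⟨j, h⟩ : Fin m).succ := rfl
    rw [this, lift_succ]; rfl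
  · rw [dif_neg h, dif_neg (by omega)]

lemma Zc_lift {m : ℕ} (wt : ℕ → ℕ) (Y : ℕ → ℕ → R) (e : Perm (Fin m)) (r j : ℕ) :
    Zc wt Y r (wa (lift e) j) = Zc wt (fun r j => Y r (wa e j)) r j := by
  cases j with
  | zero => rw [wa_lift_zero]; rfl
  | succ j => rw [wa_lift_succ]; rfl

lemma wa_swap_eq_zero {m : ℕ} (p : Fin (m + 1)) (j : ℕ) : wa (swap 0 p) j = 0 ↔ j = p := by
  have h : wa (swap (0 : Fin (m + 1)) p) p = 0 := by rw [wa_coe]; simp
  constructor
  · intro h'; exact wa_inj _ (h'.trans h.symm)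
  · rintro rfl; exact h

/-- the terms of the symmetrisation, sorted by the letter that is sent to `0` -/
noncomputable def term (m : ℕ) (wt : ℕ → ℕ) (Y : ℕ → ℕ → R) (T : Multiset (List ℕ))
    (p : Fin (m + 1)) : R[X] :=
  ∑ e : Perm (Fin m), E (fun r j => Zc wt (fun r j => Y r (wa e j)) r (wa (swap 0 p) j)) T

lemma Psi_Zc (m : ℕ) (wt : ℕ → ℕ) (Y : ℕ → ℕ → R) (T : Multiset (List ℕ)) :
    Psi (m + 1) (Zc wt Y) T = ∑ p, term m wt Y T p := by
  unfold Psi term
  rw [sum_perm_succ]
  simp only [wa_mul, Zc_lift]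

lemma coeff_term_eq_zero {m : ℕ} {wt : ℕ → ℕ} (hw : Monotone wt) (Y : ℕ → ℕ → R)
    {T : Multiset (List ℕ)} (hT : ∀ c ∈ T, c.Nodup) (p : Fin (m + 1)) {n : ℕ}
    (h : cost wt T p < n) : (term m wt Y T p).coeff n = 0 := by
  unfold term
  rw [finsetSum_coeff]
  refine Finset.sum_eq_zero fun e _ => coeff_eq_zero_of_natDegree_lt (lt_of_le_of_lt ?_ h)
  refine deg_E hw _ _ _ hT fun r j => ?_
  simpa [wa_swap_eq_zero] using Zc_deg wt (fun r j => Y r (wa e j)) r (wa (swap 0 p) j)

lemma coeff_term_zero {m : ℕ} {wt : ℕ → ℕ} (hw : StrictMono wt) (Y : ℕ → ℕ → R)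
    (U : Multiset (Bool × List ℕ)) (hU : ∀ p ∈ U, p.2.Nodup) :
    (term m wt Y (U.map ext) 0).coeff (cost wt (U.map ext) 0) = Psi m Y (U.map Prod.snd) := by
  unfold term Psi
  rw [finsetSum_coeff]
  refine Finset.sum_congr rfl fun e _ => ?_
  have : (swap (0 : Fin (m + 1)) 0) = 1 := by simp [Perm.one_def]
  simp only [this, wa_one]
  exact coeff_E_ext hw _ U hU

lemma nodup_map_ext {U : Multiset (Bool × List ℕ)} (hU : ∀ p ∈ U, p.2.Nodup) :
    ∀ c ∈ U.map ext, c.Nodup := by
  intro c hc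
  obtain ⟨q, hq, rfl⟩ := Multiset.mem_map.1 hc
  exact ext_nodup (hU q hq)

lemma coeff_Psi {m : ℕ} {wt : ℕ → ℕ} (hw : StrictMono wt) (Y : ℕ → ℕ → R)
    (U : Multiset (Bool × List ℕ)) (hU : ∀ p ∈ U, p.2.Nodup)
    (h : ∀ j < m, cost wt (U.map ext) (j + 1) < cost wt (U.map ext) 0) :
    (Psi (m + 1) (Zc wt Y) (U.map ext)).coeff (cost wt (U.map ext) 0) =
      Psi m Y (U.map Prod.snd) := by
  rw [Psi_Zc, finsetSum_coeff, Fin.sum_univ_succ, coeff_term_zero hw Y U hU,
    Finset.sum_eq_zero, add_zero]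
  intro p _
  exact coeff_term_eq_zero hw.monotone Y (nodup_map_ext hU) _ (h p p.2)

theorem NZ_step {m : ℕ} {wt : ℕ → ℕ} (hw : StrictMono wt)
    (U : Multiset (Bool × List ℕ)) (hU : ∀ p ∈ U, p.2.Nodup)
    (h : ∀ j < m, cost wt (U.map ext) (j + 1) < cost wt (U.map ext) 0)
    (h0 : NZ m (U.map Prod.snd)) : NZ (m + 1) (U.map ext) := by
  refine NZ_of (Zc wt Xg) fun hz => h0 ?_
  rw [← coeff_Psi hw Xg U hU h, hz, coeff_zero]

lemma D_swap (Z : ℕ → ℕ → R) (c : List ℕ) (a b : ℕ) :
    D Z (c ++ [a] ++ [b]) = - D Z (c ++ [b] ++ [a]) := by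
  have h1 : ∀ a b : ℕ, D Z (c ++ [a] ++ [b]) =
      Dn Z (c.length + 2) (fun j => (c ++ [a] ++ [b]).getD j 0) := by
    intro a b; unfold D; simp
  rw [h1, h1]
  unfold Dn
  have hne : (⟨c.length, by omega⟩ : Fin (c.length + 2)) ≠ ⟨c.length + 1, by omega⟩ := by
    simp
  have := det_permute' (swap (⟨c.length, by omega⟩ : Fin (c.length + 2)) ⟨c.length + 1, by omega⟩)
    (Matrix.of fun i j : Fin (c.length + 2) => Z i ((c ++ [b] ++ [a]).getD j 0))
  rw [Perm.sign_swap hne] at this
  simp only [Units.val_neg, Units.val_one, Int.cast_neg, Int.cast_one, neg_mul, one_mul] at this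
  rw [← this]
  congr 1
  ext i j
  simp only [Matrix.of_apply, submatrix_apply, id]
  congr 1
  by_cases h0 : j = ⟨c.length, by omega⟩
  · subst h0; simp
  by_cases h1 : j = ⟨c.length + 1, by omega⟩
  · subst h1; simp
  rw [swap_apply_of_ne_of_ne h0 h1]
  have : (j : ℕ) < c.length := by
    have := j.2
    simp only [Fin.ext_iff] at h0 h1
    omega
  simp [List.getElem_append_left this]

lemma wa_swap01 {m : ℕ} : wa (swap (0 : Fin (m + 2)) 1) 0 = 1 ∧ wa (swap (0 : Fin (m + 2)) 1) 1 = 0 ∧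
    ∀ j, wa (swap (0 : Fin (m + 2)) 1) (j + 1 + 1) = j + 1 + 1 := by
  refine ⟨by simp [wa], ?_, fun j => ?_⟩
  · rw [wa_swap_eq_zero]; simp
  · unfold wa
    split_ifs with h
    · rw [swap_apply_of_ne_of_ne] <;> simp [Fin.ext_iff]
    · rfl

def e2 (p : Bool × Bool × List ℕ) : List ℕ := ext (p.1, ext (p.2.1, p.2.2))
def e2' (p : Bool × Bool × List ℕ) : List ℕ := ext (p.2.1, ext (p.1, p.2.2))

lemma D_e2 {m : ℕ} (Z : ℕ → ℕ → R) (p : Bool × Bool × List ℕ) :
    D (fun r j => Z r (wa (swap (0 : Fin (m + 2)) 1) j)) (e2 p) =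
      (if p.1 = true ∧ p.2.1 = true then -1 else 1) * D Z (e2' p) := by
  obtain ⟨h0, h1, h2⟩ := wa_swap01 (m := m)
  obtain ⟨b0, b1, c⟩ := p
  rw [← D_map]
  have hc : ((c.map (· + 1)).map (· + 1)).map (wa (swap (0 : Fin (m + 2)) 1)) =
      (c.map (· + 1)).map (· + 1) := by
    simp only [List.map_map]
    exact List.map_congr_left fun a _ => h2 a
  cases b0 <;> cases b1 <;>
    simp only [e2, e2', ext, if_true, Bool.false_eq_true, if_false, List.map_append, hc,
      List.map_cons, List.map_nil, zero_add, h0, h1, and_true, and_false, one_mul, neg_mul]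
  exact D_swap _ _ _ _

lemma E_e2 {m : ℕ} (Z : ℕ → ℕ → R) (U : Multiset (Bool × Bool × List ℕ)) :
    E (fun r j => Z r (wa (swap (0 : Fin (m + 2)) 1) j)) (U.map e2) =
      (-1) ^ U.countP (fun p => p.1 = true ∧ p.2.1 = true) * E Z (U.map e2') := by
  induction U using Multiset.induction_on with
  | empty => simp
  | cons p U ih =>
    rw [Multiset.map_cons, Multiset.map_cons, E_cons, E_cons, ih, D_e2, Multiset.countP_cons]
    split_ifs <;> ring

theorem NZ_step2 {m : ℕ} {wt wt' : ℕ → ℕ} (hw : StrictMono wt) (hw' : StrictMono wt')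
    (U : Multiset (Bool × Bool × List ℕ)) (hU : ∀ p ∈ U, p.2.2.Nodup)
    (hev : Even (U.countP fun p => p.1 = true ∧ p.2.1 = true))
    (h1 : cost wt (U.map e2') 0 = cost wt (U.map e2) 0)
    (h2 : ∀ j < m, cost wt (U.map e2) (j + 2) < cost wt (U.map e2) 0)
    (h3 : ∀ j < m, cost wt' (U.map fun p => ext (p.2.1, p.2.2)) (j + 1) <
      cost wt' (U.map fun p => ext (p.2.1, p.2.2)) 0)
    (h4 : ∀ j < m, cost wt' (U.map fun p => ext (p.1, p.2.2)) (j + 1) <
      cost wt' (U.map fun p => ext (p.1, p.2.2)) 0)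
    (h5 : cost wt' (U.map fun p => ext (p.1, p.2.2)) 0 =
      cost wt' (U.map fun p => ext (p.2.1, p.2.2)) 0)
    (h0 : NZ m (U.map fun p => p.2.2)) : NZ (m + 2) (U.map e2) := by
  refine NZ_of (Zc wt (Zc wt' Xg)) fun hz => h0 ?_
  have ea : U.map e2 = (U.map fun p => (p.1, ext (p.2.1, p.2.2))).map ext := by
    rw [Multiset.map_map]; rfl
  have eb : U.map e2' = (U.map fun p => (p.2.1, ext (p.1, p.2.2))).map ext := by
    rw [Multiset.map_map]; rfl
  have na : ∀ q ∈ U.map fun p => (p.1, ext (p.2.1, p.2.2)), q.2.Nodup := by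
    intro q hq
    obtain ⟨p, hp, rfl⟩ := Multiset.mem_map.1 hq
    exact ext_nodup (hU p hp)
  have nb : ∀ q ∈ U.map fun p => (p.2.1, ext (p.1, p.2.2)), q.2.Nodup := by
    intro q hq
    obtain ⟨p, hp, rfl⟩ := Multiset.mem_map.1 hq
    exact ext_nodup (hU p hp)
  have t0 := coeff_term_zero (m := m + 1) hw (Zc wt' Xg) _ na
  have t1 := coeff_term_zero (m := m + 1) hw (Zc wt' Xg) _ nb
  rw [← ea, Multiset.map_map] at t0
  rw [← eb, Multiset.map_map, h1] at t1
  have t1' : term (m + 1) wt (Zc wt' Xg) (U.map e2) 1 =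
      term (m + 1) wt (Zc wt' Xg) (U.map e2') 0 := by
    unfold term
    refine Finset.sum_congr rfl fun e _ => ?_
    have : (swap (0 : Fin (m + 1 + 1)) 0) = 1 := by simp [Perm.one_def]
    rw [E_e2, hev.neg_one_pow, one_mul]
    simp only [this, wa_one]
  have key := congrArg (fun f => f.coeff (cost wt (U.map e2) 0)) hz
  simp only [coeff_zero] at key
  rw [Psi_Zc, finsetSum_coeff, Fin.sum_univ_succ, Fin.sum_univ_succ, Finset.sum_eq_zero, add_zero,
    Fin.succ_zero_eq_one, t1', t0, t1] at key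
  · have ca := coeff_Psi (m := m) hw' Xg (U.map fun p => (p.2.1, p.2.2))
      (fun q hq => by obtain ⟨p, hp, rfl⟩ := Multiset.mem_map.1 hq; exact hU p hp)
      (by simpa only [Multiset.map_map, Function.comp_def] using h3)
    have cb := coeff_Psi (m := m) hw' Xg (U.map fun p => (p.1, p.2.2))
      (fun q hq => by obtain ⟨p, hp, rfl⟩ := Multiset.mem_map.1 hq; exact hU p hp)
      (by simpa only [Multiset.map_map, Function.comp_def] using h4)
    simp only [Multiset.map_map, Function.comp_def] at ca cb key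
    rw [h5] at cb
    have k2 := congrArg (fun f => f.coeff (cost wt' (U.map fun p => ext (p.2.1, p.2.2)) 0)) key
    simp only [coeff_add, coeff_zero] at k2
    rw [ca, cb, ← two_mul] at k2
    exact (mul_eq_zero.1 k2).resolve_left two_ne_zero
  · intro p _
    refine coeff_term_eq_zero hw.monotone _ ?_ _ (h2 p p.2)
    rw [ea]; exact nodup_map_ext na

end MP7ebc2a
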